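import Pool.Agent.R917.OM.Hmem
import Pool.Agent.R917.SpinPt

set_option autoImplicit false
set_option linter.unusedSectionVars false
set_option linter.unusedSimpArgs false

/-!
# 1-motives over abelian varieties of spin type
-/

open Module Function TensorProduct Matrix

noncomputable section

namespace Pool.Agent.R917.OM

open Pool.Agent.Y102 Pool.Agent.W516.DR Pool.Agent.H204R3.GP Pool.Agent.W516.KC
  Pool.Agent.H204R3.SP Pool.Agent.TH119.MX

variable {g : ℕ} {A : AbVar g} {n s : ℕ} {𝔤 : Submodule ℚ (Tup A n s)} {d : Dt g n s}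

/-- Lifts of the reductive part. -/
theorem lifts_of (h : Lg 𝔤 d) (hle : A.NA ≤ aa 𝔤)
    (hperf : A.NA ≤ Submodule.span ℚ {Z | ∃ X ∈ A.NA, ∃ Y ∈ A.NA, Z = X * Y - Y * X}) :
    (∀ X ∈ A.NA, ∃ L ∈ 𝔤, L.1 = X ∧ L.2.1 = 0) ∧ ∃ L ∈ 𝔤, L.1 = 0 ∧ L.2.1 = 1 := by
  have h1 : ∀ X ∈ A.NA, ∃ L ∈ 𝔤, L.1 = X ∧ L.2.1 = 0 := by
    intro X hX
    refine der_lift h ?_
    unfold der
    refine Submodule.span_mono ?_ (hperf hX)
    rintro _ ⟨Y, hY, Z, hZ, rfl⟩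
    exact ⟨Y, hle hY, Z, hle hZ, rfl⟩
  refine ⟨h1, ?_⟩
  obtain ⟨D, lam, hne⟩ := exists_der
  obtain ⟨L, hL, e1, e2⟩ := h1 _ (h.na _ (h.per D lam))
  have h2 := 𝔤.smul_mem (lam (D tau / (2 * tau)))⁻¹ (𝔤.sub_mem (h.per D lam) hL)
  refine ⟨_, h2, ?_, ?_⟩
  · rw [Prod.smul_fst, Prod.fst_sub, e1, sub_self, smul_zero]
  · rw [Prod.smul_snd, Prod.smul_fst, Prod.snd_sub, Prod.fst_sub, e2, sub_zero, smul_eq_mul]
    exact inv_mul_cancel₀ hne

/-- The Lie algebras of spin type are perfect. -/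
theorem spin_perfect {N k r : ℕ} {E : Fin N → Matrix (Fin (2 * g)) (Fin (2 * g)) ℂ}
    {c : Fin N → Fin k} (hr : 3 ≤ r) (h1 : ∀ i, E i * E i = 1)
    (h2 : ∀ i j, i ≠ j → E i * E j = -(E j * E i))
    (hc : ∀ σ, (Finset.univ.filter fun j => c j = σ).card = r)
    (hl : Submodule.span ℂ {Y | ∃ X ∈ A.NA, Y = toC X} =
      Submodule.span ℂ {Y | ∃ i j, i ≠ j ∧ c i = c j ∧ Y = E i * E j}) :
    A.NA ≤ Submodule.span ℚ {Z | ∃ X ∈ A.NA, ∃ Y ∈ A.NA, Z = X * Y - Y * X} := by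
  have hE : SP.CE (fun i => matE (2 * g) (E i)) := ⟨fun i => by rw [← map_mul, h1, map_one],
    fun i j hij => by rw [← map_mul, h2 i j hij, map_neg, map_mul]⟩
  have hcx : cx A.NA = SP.soC (fun i => matE (2 * g) (E i)) c := by
    rw [← map_lie, hl, Submodule.map_span]
    unfold SP.soC
    congr 1
    ext Y
    constructor
    · rintro ⟨_, ⟨i, j, a, b, rfl⟩, rfl⟩
      exact ⟨i, j, a, b, map_mul (matE (2 * g)) _ _⟩
    · rintro ⟨i, j, a, b, rfl⟩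
      exact ⟨_, ⟨i, j, a, b, rfl⟩, map_mul (matE (2 * g)) _ _⟩
  refine perfect_of ?_
  rcases subsingleton_or_nontrivial (ℂ ⊗[ℚ] A.H1) with hs | hn
  · intro X _
    have h0 : X = 0 := by
      refine LinearMap.ext fun x => ?_
      exact Subsingleton.elim _ _
    rw [h0]
    exact Submodule.zero_mem _
  · rw [hcx]
    exact SP.soC_perfect hE fun i => by rw [hc]; exact hr

end Pool.Agent.R917.OM
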