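import Pool.Agent.R917.OM.Eig

set_option autoImplicit false
set_option linter.unusedSectionVars false
set_option linter.unusedSimpArgs false

/-!
# The image of the Deligne torus
-/

open Module Function TensorProduct Matrix

noncomputable section

namespace Pool.Agent.R917.OM

open Pool.Agent.Y102 Pool.Agent.W516.DR Pool.Agent.H204R3.GP Pool.Agent.W516.KC
  Pool.Agent.H204R3.SP Pool.Agent.TH119.MX

section norms

attribute [local instance] Matrix.linftyOpNormedRing Matrix.linftyOpNormedAlgebra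

/-- Eigenvectors of a matrix are eigenvectors of its exponential. -/
theorem vecMul_exp {B : Type} [Fintype B] [DecidableEq B] {X : Matrix B B ℂ} {v : B → ℂ} {c : ℂ}
    (h : v ᵥ* X = c • v) : v ᵥ* NormedSpace.exp X = Complex.exp c • v := by
  have hpow : ∀ k : ℕ, v ᵥ* X ^ k = c ^ k • v := by
    intro k
    induction k with
    | zero => rw [pow_zero, pow_zero, Matrix.vecMul_one, one_smul]
    | succ k ih =>
      rw [pow_succ, ← Matrix.vecMul_vecMul, ih, Matrix.smul_vecMul, h, smul_smul, pow_succ]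
  let L : Matrix B B ℂ →ₗ[ℂ] (B → ℂ) :=
    { toFun := fun M => v ᵥ* M
      map_add' := fun M N => Matrix.vecMul_add M N v
      map_smul' := fun a M => by rw [RingHom.id_apply, Matrix.vecMul_smul] }
  have h1 := NormedSpace.exp_series_hasSum_exp' (𝕂 := ℂ) X
  have h2 := (LinearMap.toContinuousLinearMap L).hasSum h1
  have h3 := (NormedSpace.exp_series_hasSum_exp' (𝕂 := ℂ) c).smul_const v
  have h4 : (fun k : ℕ => (LinearMap.toContinuousLinearMap L)
      (((k.factorial : ℂ)⁻¹) • X ^ k)) = fun k : ℕ => (((k.factorial : ℂ)⁻¹) • c ^ k) • v := by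
    funext k
    change v ᵥ* (((k.factorial : ℂ)⁻¹) • X ^ k) = _
    rw [Matrix.vecMul_smul, hpow, smul_smul, smul_eq_mul]
  have h5 : HasSum (fun k : ℕ => (((k.factorial : ℂ)⁻¹) • c ^ k) • v)
      (v ᵥ* NormedSpace.exp X) := by
    rw [← h4]
    exact h2
  rw [Complex.exp_eq_exp_ℂ]
  exact h5.unique h3

end norms

section restricted

variable {g : ℕ} {A : AbVar g} {n s : ℕ} {d : Dt g n s}
  {H : Set (Matrix (RI g n s) (RI g n s) ℂ)}

/-- The tuples without the dual part over a set of indices. -/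
def gg1 (A : AbVar g) (n s : ℕ) (H : Set (Matrix (RI g n s) (RI g n s) ℂ)) (S : Set (Fin s)) :
    Submodule ℚ (Tup A n s) where
  carrier := {L | L ∈ gg A n s H ∧ ∀ l ∈ S, L.2.2.1 (Sum.inr l) = 0}
  zero_mem' := ⟨(gg A n s H).zero_mem, fun _ _ => rfl⟩
  add_mem' := fun {L L'} hL hL' => ⟨(gg A n s H).add_mem hL.1 hL'.1, fun l hl => by
    rw [Prod.snd_add, Prod.snd_add, Prod.fst_add, Pi.add_apply, hL.2 l hl, hL'.2 l hl, add_zero]⟩
  smul_mem' := fun c L hL => ⟨(gg A n s H).smul_mem c hL.1, fun l hl => by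
    rw [Prod.smul_snd, Prod.smul_snd, Prod.smul_fst, Pi.smul_apply, hL.2 l hl, smul_zero]⟩

theorem gg1_Lg (h : PtM A d H) {S : Set (Fin s)} (hP : ∀ l ∈ S, ∀ c, d.P (Sum.inr l) c = 0) :
    Lg (gg1 A n s H S) d where
  na := fun L hL => hL.1.1
  br := fun L hL L' hL' => ⟨gg_br hL.1 hL'.1, fun l hl => by
    change op L (L'.2.2.1 (Sum.inr l)) - op L' (L.2.2.1 (Sum.inr l)) = 0
    rw [hL.2 l hl, hL'.2 l hl, map_zero, map_zero, sub_zero]⟩
  per := fun D lam => ⟨LD_mem h D lam, fun l hl => by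
    change Pool.Agent.W516.DR.cmp lam (lft A fun c => D (d.P (Sum.inr l) c)) = 0
    have h1 : (fun c => D (d.P (Sum.inr l) c)) = 0 := by
      funext c
      rw [hP l hl, map_zero]
      rfl
    rw [h1]
    unfold lft
    simp⟩

/-- The rational vectors which satisfy the relations of the points. -/
def Rel (A : AbVar g) (d : Dt g n s) (z : Fin n ⊕ Fin s → A.H1) : Prop :=
  ∀ (f : Fin n ⊕ Fin s → Module.End ℚ A.H1)
    (F : Fin n ⊕ Fin s → (Fin g → ℂ) →ₗ[ℂ] (Fin g → ℂ)),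
    (∀ q w, A.per (f q w) = F q (A.per w)) → (∃ w, ∑ q, F q (pt d q) = A.per w) →
    ∑ q, f q (z q) = 0

end restricted

variable {g : ℕ} {A : AbVarG g} {n s : ℕ} {d : Dt g n s}
  {H : Set (Matrix (RI g n s) (RI g n s) ℂ)}

/-- **The Hodge structure of the 1-motive is in the Lie algebra of the group.** -/
theorem hodge_stab (hpt : PtM A.toAbVar d H) {S : Set (Fin s)}
    (hP : ∀ l ∈ S, ∀ c, d.P (Sum.inr l) c = 0)
    (hℓ : ∀ i, ∀ l ∈ S, IsAlgebraic ℚ (Complex.exp (d.ℓ i l)))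
    {K₁ : IntermediateField ℚ ℂ} [FiniteDimensional ℚ K₁]
    (hu : ∀ p (m : ℕ), IsRat A.toAbVar K₁ (m • pt d p))
    (hnd : ∀ m : Fin n → Fin s → ℤ, (∀ z z', Rel A.toAbVar d z → Rel A.toAbVar d z' →
      ∑ i, ∑ l, (m i l : ℚ) * bb z z' i l = 0) → ∀ i l, l ∉ S → m i l = 0)
    (hmin : ∀ 𝔥, A.toAbVar.Full 𝔥 → A.toAbVar.NA ≤ 𝔥)
    (hperf : A.toAbVar.NA ≤ Submodule.span ℚ {Z | ∃ X ∈ A.toAbVar.NA, ∃ Y ∈ A.toAbVar.NA,
      Z = X * Y - Y * X}) :
    (∀ k, Stab H k (XJ A.toAbVar d)) ∧ ∀ k, Stab H k (XW A.toAbVar d) := by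
  have hLg := gg1_Lg hpt hP
  obtain ⟨w, f, F, h1, h2, h3, h4⟩ := main hLg hu
  obtain ⟨hNA, hW⟩ := lifts_of hLg (hmin _ hLg.full) hperf
  have key : ∀ z, Rel A.toAbVar d z → z ∈ uu (gg1 A.toAbVar n s H S) := by
    intro z hr
    rw [← h2]
    intro p
    refine hr _ _ (fun q => h1 p q) ⟨∑ q, f p q (w q), ?_⟩
    have h5 := h3 p
    simp only [map_sub] at h5
    rw [Finset.sum_sub_distrib, sub_eq_zero] at h5
    rw [map_sum]
    simp only [h1]
    rw [← h5]
  have hnd' : ∀ φ : (Fin n → Fin s → ℚ) →ₗ[ℚ] ℚ, (∀ t ∈ tt (gg1 A.toAbVar n s H S), φ t = 0) →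
      ∀ i l, l ∉ S → φ (Pi.single i (Pi.single l 1)) = 0 := by
    intro φ hφ i l hl
    obtain ⟨N, M, hN, hM⟩ := exists_int fun i l => φ (Pi.single i (Pi.single l 1))
    have h5 := hnd M (fun z z' hz hz' => by
      have h6 := hφ _ (bb_mem hLg (key z hz) (key z' hz'))
      rw [functional_eq φ] at h6
      simp only [hM, mul_assoc]
      simp only [← Finset.mul_sum]
      rw [h6, mul_zero]) i l hl
    have h6 := hM i l
    rw [h5, Int.cast_zero] at h6
    exact (mul_eq_zero.1 h6.symm).resolve_left (by exact_mod_cast hN)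
  have hB : ∀ φ : (Fin n → Fin s → ℚ) →ₗ[ℚ] ℚ, (∀ t ∈ tt (gg1 A.toAbVar n s H S), φ t = 0) →
      ∀ L ∈ gg1 A.toAbVar n s H S, ∀ L' ∈ gg1 A.toAbVar n s H S,
      φ (fun i l => A.toAbVar.om (L.2.2.1 (Sum.inr l)) (L'.2.2.1 (Sum.inl i))) = 0 := by
    intro φ hφ L hL L' hL'
    rw [functional_eq φ]
    refine Finset.sum_eq_zero fun i _ => Finset.sum_eq_zero fun l _ => ?_
    by_cases hl : l ∈ S
    · rw [hL.2 l hl, map_zero, LinearMap.zero_apply, mul_zero]
    · rw [hnd' φ hφ i l hl, zero_mul]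
  have hS : ∀ l ∈ S, pt d (Sum.inr l) = 0 := fun l hl => by
    funext k
    exact hP l hl _
  constructor
  · intro k
    refine stab_of_comp fun lam => ?_
    rw [← mt_tJ]
    exact (tJ_mem hLg h1 h2 h3 h4 hB hS hnd' hNA lam).1.2 k
  · intro k
    refine stab_of_comp fun lam => ?_
    rw [← mt_tW]
    exact (tW_mem hLg h1 h2 h3 h4 hB hP hℓ hnd' hW lam).1.2 k

/-- The elements of the group. -/
theorem hodge_exp (hH : AlgGrp QQ H) {A : AbVar g} {d : Dt g n s}
    (h1 : ∀ k, Stab H k (XJ A d)) (h2 : ∀ k, Stab H k (XW A d)) (z : ℂ) :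
    ∃ M ∈ H, ∀ (v : RI g n s → ℂ) (a b : ℂ), v ᵥ* XW A d = a • v → v ᵥ* XJ A d = b • v →
      v ᵥ* M = Complex.exp ((Complex.log z).re * a + (Complex.log z).im * b) • v := by
  refine ⟨NormedSpace.exp (((Complex.log z).re : ℂ) • XW A d + ((Complex.log z).im : ℂ) • XJ A d),
    exp_mem hH fun k => ((h2 k).smul _).add ((h1 k).smul _), fun v a b ha hb => ?_⟩
  refine vecMul_exp ?_
  rw [Matrix.vecMul_add, Matrix.vecMul_smul, Matrix.vecMul_smul, ha, hb, smul_smul, smul_smul,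
    ← add_smul]

end Pool.Agent.R917.OM
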