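import Pool.Agent.R917.OM.Grp

set_option autoImplicit false
set_option linter.unusedSectionVars false
set_option linter.unusedSimpArgs false

/-!
# The field of definition of the multiples of finitely many points
-/

open Module Function TensorProduct Matrix

noncomputable section

namespace Pool.Agent.R917.OM

open Pool.Agent.Y102 Pool.Agent.W516.DR Pool.Agent.H204R3.GP Pool.Agent.W516.KC
  Pool.Agent.H204R3.SP Pool.Agent.TH119.MX

variable {g : ℕ}

/-- The origin is rational over a number field. -/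
theorem rat_origin (A : AbVar g) : ∃ K : IntermediateField ℚ ℂ, FiniteDimensional ℚ K ∧
    IsRat A K 0 := by
  obtain ⟨K, hK, h⟩ := exists_field (fun i => A.θ i 0) A.origin.2.1
  exact ⟨K, hK, 1, one_ne_zero, fun i => by rw [one_mul]; exact h i⟩

/-- An algebraic point is rational over a number field. -/
theorem rat_point (A : AbVar g) {z : Fin g → ℂ} (hz : IsPoint A z) :
    ∃ K : IntermediateField ℚ ℂ, FiniteDimensional ℚ K ∧ IsRat A K z := by
  obtain ⟨K, hK, h⟩ := exists_field (fun i => A.θ i z / A.θ 0 z) hz.2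
  refine ⟨K, hK, (A.θ 0 z)⁻¹, inv_ne_zero hz.1, fun i => ?_⟩
  rw [inv_mul_eq_div]
  exact h i

/-- All multiples of finitely many algebraic points are rational over a number field. -/
theorem exists_rat_mult (A : AbVarG g) {ι : Type} [Finite ι] (u : ι → Fin g → ℂ)
    (hu : ∀ i, IsPoint A.toAbVar (u i) ∨ u i = 0) : ∃ K : IntermediateField ℚ ℂ,
    FiniteDimensional ℚ K ∧ ∀ i (m : ℕ), IsRat A.toAbVar K (m • u i) := by
  have h1 : ∀ i, ∃ K : IntermediateField ℚ ℂ, FiniteDimensional ℚ K ∧
      IsRat A.toAbVar K (u i) := by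
    intro i
    rcases hu i with h | h
    · exact rat_point A.toAbVar h
    · rw [h]
      exact rat_origin A.toAbVar
  choose K hK hr using h1
  obtain ⟨K₀, hK₀, hlaw⟩ := A.law
  obtain ⟨K', hK', h0⟩ := rat_origin A.toAbVar
  have : ∀ i, FiniteDimensional ℚ (K i) := hK
  refine ⟨(K₀ ⊔ K') ⊔ ⨆ i, K i, inferInstance, fun i m => ?_⟩
  have e1 : K₀ ≤ (K₀ ⊔ K') ⊔ ⨆ i, K i := le_sup_left.trans le_sup_left
  have e2 : K' ≤ (K₀ ⊔ K') ⊔ ⨆ i, K i := le_sup_right.trans le_sup_left
  have e3 : K i ≤ (K₀ ⊔ K') ⊔ ⨆ i, K i := (le_iSup K i).trans le_sup_right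
  induction m with
  | zero =>
    rw [zero_smul]
    exact h0.mono e2
  | succ m ih =>
    rw [succ_nsmul]
    exact hlaw _ e1 _ _ ih ((hr i).mono e3)

/-- The exponential of an element of the Lie algebra of tuples is in the group. -/
theorem exp_tup {A : AbVar g} {n s : ℕ} {H : Set (Matrix (RI g n s) (RI g n s) ℂ)}
    (hH : AlgGrp QQ H) {L : Tup A n s} (hL : L ∈ gg A n s H) :
    NormedSpace.exp (mt L) ∈ H :=
  exp_mem hH fun k => hL.2 k

end Pool.Agent.R917.OM
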