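import Pool.Agent.R917.OM.Rec
import Pool.Agent.Y102.Dat

set_option autoImplicit false
set_option linter.unusedSectionVars false

/-!
# Algebraic points of abelian varieties with algebraic logarithms, modulo an abelian subvariety
-/

open Module Filter Topology MvPolynomial

noncomputable section

namespace Pool.Agent.R917.OM

open Pool.Agent.Y102 Pool.Agent.W245.EB

variable {g : ℕ} (A : AbVarG g)

theorem coeff_quad_mem {V : Type} [Fintype V] [DecidableEq V] {a : V → V → ℂ}
    {K : IntermediateField ℚ ℂ} (ha : ∀ p q, a p q ∈ K) (m : V →₀ ℕ) : (quad a).coeff m ∈ K := by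
  unfold quad
  rw [coeff_sum]
  refine sum_mem fun p _ => ?_
  rw [coeff_sum]
  refine sum_mem fun q _ => ?_
  have h1 : C (a p q) * (X p * X q : MvPolynomial V ℂ) =
      monomial (Finsupp.single p 1 + Finsupp.single q 1) (a p q) := by
    rw [X, X, monomial_mul, C_mul_monomial, one_mul, mul_one]
  rw [h1, coeff_monomial]
  split_ifs
  · exact ha p q
  · exact zero_mem K

theorem coeff_rename_mem {V V' : Type} {f : V → V'} (hf : Function.Injective f)
    {K : IntermediateField ℚ ℂ} {Q : MvPolynomial V ℂ} (hQ : ∀ m, Q.coeff m ∈ K) (m : V' →₀ ℕ) :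
    (rename f Q).coeff m ∈ K := by
  by_cases hm : ∃ m', Finsupp.mapDomain f m' = m
  · obtain ⟨m', rfl⟩ := hm
    rw [coeff_rename_mapDomain _ hf]
    exact hQ _
  · rw [coeff_rename_eq_zero]
    · exact zero_mem K
    · intro m' hm'
      exact absurd ⟨m', hm'⟩ hm

/-- **The transcendence of abelian logarithms modulo an abelian subvariety.** -/
theorem point {ι : Type} [Fintype ι] [DecidableEq ι] {b : ℕ} {β : Fin b → ι → Fin g → ℂ} (hβ : LinearIndependent ℂ β)
    (hβa : ∀ k i j, IsAlgebraic ℚ (β k i j)) {v : ι → Fin g → ℂ}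
    (hva : ∀ i j, IsAlgebraic ℚ (v i j)) {w : Fin b → ι → A.H1}
    (hw : ∀ k i, w k i ∈ A.lat)
    (hwT : ∀ k, (fun i => A.per (w k i) : ι → Fin g → ℂ) ∈ Submodule.span ℂ (Set.range β))
    (hli : LinearIndependent ℂ (fun k : Fin b => (fun i => A.per (w k i) : ι → Fin g → ℂ)))
    {u : ι → Fin g → ℂ} {K₁ : IntermediateField ℚ ℂ} [hK₁ : FiniteDimensional ℚ K₁]
    (hu : ∀ i (m : ℕ), IsRat A.toAbVar K₁ (m • u i)) {w0 : ι → A.H1}
    (hw0 : ∀ i, w0 i ∈ A.lat)
    (h : (fun i => u i + A.per (w0 i)) - v ∈ Submodule.span ℂ (Set.range β)) :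
    v ∈ Submodule.span ℂ (Set.range β) := by
  classical
  by_contra hv
  -- the parametrization
  let γ : Fin (b + 1) → ι → Fin g → ℂ := Fin.snoc (α := fun _ => ι → Fin g → ℂ) β v
  have hγ1 : ∀ k : Fin b, γ k.castSucc = β k := fun k => Fin.snoc_castSucc _ _ _
  have hγ2 : γ (Fin.last b) = v := Fin.snoc_last _ _
  have hγ : LinearIndependent ℂ γ := linearIndependent_finSnoc.2 ⟨hβ, hv⟩
  have hγa : ∀ k i j, IsAlgebraic ℚ (γ k i j) := by
    intro k
    refine Fin.lastCases ?_ (fun k => ?_) k
    · rw [hγ2]; exact hva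
    · rw [hγ1]; exact hβa k
  let M0 : (Fin (b + 1) → ℂ) →ₗ[ℂ] (ι → Fin g → ℂ) := Fintype.linearCombination ℂ γ
  let M : (Fin (b + 1) → ℂ) →L[ℂ] (ι → Fin g → ℂ) := LinearMap.toContinuousLinearMap M0
  have hM : ∀ x, M x = ∑ k, x k • γ k := fun x => rfl
  have hMinj : ∀ x, M x = 0 → x = 0 := by
    intro x hx
    funext k
    exact Fintype.linearIndependent_iff.1 hγ x (by rw [← hM]; exact hx) k
  have hM1 : ∀ k, M (Pi.single k 1) = γ k := by
    intro k
    rw [hM, Finset.sum_eq_single k]
    · rw [Pi.single_eq_same, one_smul]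
    · intro j _ hj
      rw [Pi.single_eq_of_ne hj, zero_smul]
    · intro h
      exact absurd (Finset.mem_univ _) h
  -- the points
  let tg : Fin (b + 1) → ι → Fin g → ℂ := Fin.snoc (α := fun _ => ι → Fin g → ℂ)
    (fun k i => A.per (w k i)) (fun i => u i + A.per (w0 i))
  have htg1 : ∀ k : Fin b, tg k.castSucc = fun i => A.per (w k i) := fun k =>
    Fin.snoc_castSucc (α := fun _ => ι → Fin g → ℂ) _ _ _
  have htg2 : tg (Fin.last b) = fun i => u i + A.per (w0 i) :=
    Fin.snoc_last (α := fun _ => ι → Fin g → ℂ) _ _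
  have htgli : LinearIndependent ℂ tg := by
    refine linearIndependent_finSnoc.2 ⟨hli, fun h1 => hv ?_⟩
    have h2 : Submodule.span ℂ (Set.range fun k : Fin b =>
        (fun i => A.per (w k i) : ι → Fin g → ℂ)) ≤ Submodule.span ℂ (Set.range β) := by
      rw [Submodule.span_le]
      rintro _ ⟨k, rfl⟩
      exact hwT k
    have h3 := Submodule.sub_mem _ (h2 h1) h
    rwa [sub_sub_cancel] at h3
  have hex : ∀ k, ∃ x : Fin (b + 1) → ℂ, M x = tg k ∧
      x (Fin.last b) = if k = Fin.last b then 1 else 0 := by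
    intro k
    refine Fin.lastCases ?_ (fun k => ?_) k
    · obtain ⟨c, hc⟩ := (Submodule.mem_span_range_iff_exists_fun ℂ).1 h
      refine ⟨Fin.snoc (α := fun _ => ℂ) c 1, ?_, ?_⟩
      · rw [hM, Fin.sum_univ_castSucc]
        simp only [Fin.snoc_castSucc (α := fun _ => ℂ), Fin.snoc_last (α := fun _ => ℂ), hγ1, hγ2,
          hc, one_smul]
        rw [sub_add_cancel, htg2]
      · rw [if_pos rfl, Fin.snoc_last (α := fun _ => ℂ)]
    · obtain ⟨c, hc⟩ := (Submodule.mem_span_range_iff_exists_fun ℂ).1 (hwT k)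
      refine ⟨Fin.snoc (α := fun _ => ℂ) c 0, ?_, ?_⟩
      · rw [hM, Fin.sum_univ_castSucc]
        simp only [Fin.snoc_castSucc (α := fun _ => ℂ), Fin.snoc_last (α := fun _ => ℂ), hγ1, hγ2,
          hc, zero_smul, add_zero]
        rw [htg1]
      · rw [if_neg (Fin.castSucc_lt_last k).ne, Fin.snoc_last (α := fun _ => ℂ)]
  choose U hU1 hU2 using hex
  have hU : LinearIndependent ℂ U := by
    refine LinearIndependent.of_comp M0 ?_
    have h1 : (M0 ∘ U) = tg := funext fun k => hU1 k
    rw [h1]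
    exact htgli
  -- the number field
  obtain ⟨KW, hKW, hwr⟩ := exists_wr (A := A)
  obtain ⟨Kγ, hKγ, hγK⟩ := exists_field (fun c : Fin (b + 1) × ι × Fin g =>
    γ c.1 c.2.1 c.2.2) (fun c => hγa _ _ _)
  have hfd1 : FiniteDimensional ℚ (K₁ ⊔ KW : IntermediateField ℚ ℂ) :=
    IntermediateField.finiteDimensional_sup _ _
  obtain ⟨K, hK⟩ : ∃ K : IntermediateField ℚ ℂ, K = K₁ ⊔ KW ⊔ Kγ := ⟨_, rfl⟩
  have hfd : FiniteDimensional ℚ K := by
    rw [hK]
    exact IntermediateField.finiteDimensional_sup _ _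
  have hK1 : K₁ ≤ K := by rw [hK]; exact le_sup_left.trans le_sup_left
  have hK2 : KW ≤ K := by rw [hK]; exact le_sup_right.trans le_sup_left
  have hK3 : Kγ ≤ K := by rw [hK]; exact le_sup_right
  obtain ⟨S, hS⟩ : ∃ S : ℕ, S = AD.Snum (b + 1) (Module.finrank ℚ K) := ⟨_, rfl⟩
  -- the section
  obtain ⟨x0, hx0⟩ := exists_nat_ne (N := A.N)
    (insert (fun j => A.θ j 0) (Finset.univ.image fun q : ι × Fin S =>
      fun j => A.θ j ((q.2 : ℕ) • u q.1))) (by
        intro y hy h0
        rcases Finset.mem_insert.1 hy with rfl | hy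
        · obtain ⟨i, hi⟩ := A.free 0
          exact hi (congrFun h0 i)
        · obtain ⟨q, -, rfl⟩ := Finset.mem_image.1 hy
          obtain ⟨i, hi⟩ := A.free ((q.2 : ℕ) • u q.1)
          exact hi (congrFun h0 i))
  have hs0 : sec A x0 0 ≠ 0 := hx0 _ (Finset.mem_insert_self _ _)
  have hsu : ∀ i (m : Fin S), sec A x0 ((m : ℕ) • u i) ≠ 0 := fun i m =>
    hx0 _ (Finset.mem_insert_of_mem (Finset.mem_image.2 ⟨(i, m), Finset.mem_univ _, rfl⟩))
  -- values at the points
  have hpts : ∀ s : Fin (b + 1) → ℕ, ∀ i, ∃ W ∈ A.lat,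
      M (∑ k, (s k : ℂ) • U k) i = (s (Fin.last b)) • u i + A.per W := by
    intro s i
    refine ⟨(∑ k : Fin b, s k.castSucc • w k i) + s (Fin.last b) • w0 i, ?_, ?_⟩
    · exact A.lat.add_mem (sum_mem fun k _ => A.lat.nsmul_mem (hw k i) _)
        (A.lat.nsmul_mem (hw0 i) _)
    · rw [map_sum]
      simp only [map_smul, hU1]
      rw [Fin.sum_univ_castSucc, htg2]
      simp only [htg1]
      rw [Pi.add_apply, Finset.sum_apply]
      simp only [Pi.smul_apply]
      rw [map_add, map_sum, smul_add]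
      simp only [map_nsmul, Nat.cast_smul_eq_nsmul]
      abel
  -- the functions
  let O : Set (Fin (b + 1) → ℂ) := {x | ∀ i, sec A x0 (M x i) ≠ 0}
  have hO : IsOpen O := by
    have h1 : O = ⋂ i, {x | sec A x0 (M x i) ≠ 0} := by
      ext x
      simp [O]
    rw [h1]
    refine isOpen_iInter_of_finite fun i => ?_
    exact isOpen_ne_fun ((sec_cont x0).comp ((continuous_apply i).comp M.continuous))
      continuous_const
  let Mi : ι → (Fin (b + 1) → ℂ) →L[ℂ] (Fin g → ℂ) := fun i =>
    (ContinuousLinearMap.proj i).comp M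
  have hMi : ∀ i x, Mi i x = M x i := fun i x => rfl
  have hcA : ∀ i j x, sec A x0 (M x i) ≠ 0 → AnalyticAt ℂ (fun x => fn A x0 j (M x i)) x :=
    fun i j x hx => AnalyticAt.comp (g := fn A x0 j) (f := fun x => M x i) (fn_an x0 j hx)
      ((Mi i).analyticAt x)
  have hcD : ∀ i j x, sec A x0 (M x i) ≠ 0 → HasFDerivAt (fun x => fn A x0 j (M x i))
      ((fderiv ℂ (fn A x0 j) (M x i)).comp (Mi i)) x :=
    fun i j x hx => HasFDerivAt.comp (g := fn A x0 j) (f := fun x => M x i) x
      (fn_an x0 j hx).differentiableAt.hasFDerivAt (Mi i).hasFDerivAt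
  let val : (ι × Fin (A.N + 1)) ⊕ Unit → (Fin (b + 1) → ℂ) → ℂ := fun p x =>
    Sum.elim (fun q => fn A x0 q.2 (M x q.1)) (fun _ => x (Fin.last b)) p
  choose a haK ha using hwr x0
  let δ : Fin (b + 1) → (ι × Fin (A.N + 1)) ⊕ Unit →
      MvPolynomial ((ι × Fin (A.N + 1)) ⊕ Unit) ℂ := fun s p =>
    Sum.elim (fun q => ∑ k, MvPolynomial.C (γ s q.1 k) *
      rename (fun r => (Sum.inl (q.1, r) : (ι × Fin (A.N + 1)) ⊕ Unit)) (quad (a k q.2)))
      (fun _ => MvPolynomial.C (if s = Fin.last b then 1 else 0)) p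
  have hinj : ∀ i : ι, Function.Injective
      (fun r => (Sum.inl (i, r) : (ι × Fin (A.N + 1)) ⊕ Unit)) := by
    intro i r r' h
    exact (Prod.mk.inj (Sum.inl.inj h)).2
  have hδa : ∀ s p m, (δ s p).coeff m ∈ K := by
    intro s p m
    rcases p with q | _
    · change (∑ k, MvPolynomial.C (γ s q.1 k) *
        rename (fun r => (Sum.inl (q.1, r) : (ι × Fin (A.N + 1)) ⊕ Unit))
          (quad (a k q.2))).coeff m ∈ K
      rw [coeff_sum]
      refine sum_mem fun k _ => ?_
      rw [coeff_C_mul]
      refine mul_mem (hK3 (hγK (s, q.1, k))) (hK2 ?_)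
      exact coeff_rename_mem (hinj q.1) (fun m => coeff_quad_mem (haK k q.2) m) m
    · change (MvPolynomial.C (if s = Fin.last b then 1 else 0) :
        MvPolynomial ((ι × Fin (A.N + 1)) ⊕ Unit) ℂ).coeff m ∈ K
      rw [coeff_C]
      split_ifs
      · exact one_mem K
      · exact zero_mem K
      · exact zero_mem K
  have hδd : ∀ s p, (δ s p).totalDegree ≤ 2 := by
    intro s p
    rcases p with q | _
    · refine totalDegree_finsetSum_le fun k _ => ?_
      refine (totalDegree_mul _ _).trans ?_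
      rw [totalDegree_C, zero_add]
      exact (totalDegree_rename_le _ _).trans (degree_quad _)
    · change (MvPolynomial.C _ : MvPolynomial ((ι × Fin (A.N + 1)) ⊕ Unit) ℂ).totalDegree ≤ 2
      rw [totalDegree_C]
      exact Nat.zero_le _
  have hder : ∀ i j s x, x ∈ O → fderiv ℂ (fun x => fn A x0 j (M x i)) x (Pi.single s 1) =
      ∑ k, γ s i k * ∑ p, ∑ q, a k j p q * (fn A x0 p (M x i) * fn A x0 q (M x i)) := by
    intro i j s x hx
    rw [(hcD i j x (hx i)).fderiv]
    change fderiv ℂ (fn A x0 j) (M x i) (M (Pi.single s 1) i) = _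
    rw [hM1]
    conv_lhs => rw [show γ s i = ∑ k, γ s i k • (Pi.single k 1 : Fin g → ℂ) from by
      funext l
      rw [Finset.sum_apply]
      simp [Pi.single_apply]]
    rw [map_sum]
    refine Finset.sum_congr rfl fun k _ => ?_
    rw [map_smul, smul_eq_mul, ha k j (M x i) (hx i)]
  -- coordinates with independent differentials
  obtain ⟨J, hJ, hJi⟩ := exists_J (E := Fin (b + 1) → ℂ)
    (fun p : ι × Fin (A.N + 1) =>
      (fderiv ℂ (fun x => fn A x0 p.2 (M x p.1)) 0).toLinearMap)
    (fun y hy => by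
      apply hMinj
      funext i
      apply fn_imm (A := A) x0 hs0
      intro j
      have h1 := hcD i j 0 (by rw [map_zero]; exact hs0)
      have h2 : fderiv ℂ (fun x => fn A x0 j (M x i)) 0 y = 0 := hy (i, j)
      rw [h1.fderiv] at h2
      change fderiv ℂ (fn A x0 j) (M 0 i) (M y i) = 0 at h2
      rw [map_zero] at h2
      exact h2) (m := b + 1) (by rw [Module.finrank_fin_fun])
  -- the relation
  obtain ⟨P, hP, hPz⟩ := schneiderLang (Nat.succ_pos b) K val O hO
    (by
      intro p x hx
      rcases p with q | _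
      · exact hcA q.1 q.2 x (hx q.1)
      · exact (ContinuousLinearMap.proj (R := ℂ) (φ := fun _ : Fin (b + 1) => ℂ)
          (Fin.last b)).analyticAt x)
    U hU
    (by
      rw [← hS]
      intro s i
      obtain ⟨W, hW, h1⟩ := hpts (fun k => (s k : ℕ)) i
      rw [h1]
      exact (sec_ne x0 hW).2 (hsu i _))
    (by
      rw [← hS]
      intro p s
      rcases p with q | _
      · obtain ⟨W, hW, h1⟩ := hpts (fun k => (s k : ℕ)) q.1
        change fn A x0 q.2 (M (∑ k, ((s k : ℕ) : ℂ) • U k) q.1) ∈ K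
        rw [h1, fn_lat x0 q.2 hW]
        exact fn_rat x0 ((hu q.1 _).mono hK1) q.2
      · change (∑ k, ((s k : ℕ) : ℂ) • U k) (Fin.last b) ∈ K
        rw [Finset.sum_apply]
        refine sum_mem fun k _ => ?_
        rw [Pi.smul_apply, hU2, smul_eq_mul]
        refine mul_mem (natCast_mem K _) ?_
        split_ifs
        · exact one_mem K
        · exact zero_mem K)
    δ hδa hδd
    (by
      intro s p x hx
      rcases p with q | _
      · change fderiv ℂ (fun x => fn A x0 q.2 (M x q.1)) x (Pi.single s 1) = eval _ (∑ k, _)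
        rw [hder q.1 q.2 s x hx, map_sum]
        refine Finset.sum_congr rfl fun k _ => ?_
        rw [map_mul, eval_C, eval_rename, eval_quad]
        rfl
      · change fderiv ℂ (fun x : Fin (b + 1) → ℂ => x (Fin.last b)) x (Pi.single s 1) =
          eval _ (MvPolynomial.C _)
        rw [eval_C]
        have h1 : fderiv ℂ (fun x : Fin (b + 1) → ℂ => x (Fin.last b)) x =
            ContinuousLinearMap.proj (R := ℂ) (φ := fun _ : Fin (b + 1) => ℂ) (Fin.last b) :=
          (ContinuousLinearMap.proj (R := ℂ) (φ := fun _ : Fin (b + 1) => ℂ)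
            (Fin.last b)).fderiv
        rw [h1, ContinuousLinearMap.proj_apply, Pi.single_apply]
        simp only [eq_comm])
    (I := Option (Fin (b + 1))) (by rw [Fintype.card_option, Fintype.card_fin])
    (fun o => Option.elim o (Sum.inr ()) (fun i => Sum.inl (J i)))
    (by
      rintro (_ | i) (_ | j) h1
      · rfl
      · exact absurd h1 (by simp)
      · exact absurd h1 (by simp)
      · simp only [Option.elim_some, Sum.inl.injEq] at h1
        rw [hJ h1])
    (fun o x => Option.elim o 1 (fun i => sec A x0 (M x (J i).1)))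
    (fun o x => Option.elim o (x (Fin.last b)) (fun i => A.θ (J i).2 (M x (J i).1)))
    (by
      rintro (_ | i) x -
      · exact analyticAt_const
      · exact (sec_an x0 _ trivial).comp ((Mi (J i).1).analyticAt x))
    (by
      rintro (_ | i) x -
      · exact (ContinuousLinearMap.proj (R := ℂ) (φ := fun _ : Fin (b + 1) => ℂ)
          (Fin.last b)).analyticAt x
      · exact (A.entire _ _ trivial).comp ((Mi (J i).1).analyticAt x))
    (by
      rintro (_ | i)
      · refine ⟨0, le_rfl, fun z => ?_⟩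
        simp
      · exact gr_comp (sec_gr x0) (Mi (J i).1))
    (by
      rintro (_ | i)
      · exact grE_linear (ContinuousLinearMap.proj (R := ℂ) (φ := fun _ : Fin (b + 1) => ℂ)
          (Fin.last b))
      · exact gr_comp (A.gr_theta _) (Mi (J i).1))
    (by
      rintro (_ | i) x hx
      · change 1 * x (Fin.last b) = x (Fin.last b)
        rw [one_mul]
      · change sec A x0 (M x (J i).1) * fn A x0 (J i).2 (M x (J i).1) = A.θ (J i).2 (M x (J i).1)
        unfold fn
        rw [mul_div_cancel₀]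
        exact hx _)
    (by
      rw [← hS]
      rintro (_ | i) s
      · exact one_ne_zero
      · change sec A x0 (M (∑ k, ((s k : ℕ) : ℂ) • U k) (J i).1) ≠ 0
        obtain ⟨W, hW, h1⟩ := hpts (fun k => (s k : ℕ)) (J i).1
        rw [h1]
        exact (sec_ne x0 hW).2 (hsu _ _))
  -- the leading coefficient
  let Q := optionEquivLeft ℂ (Fin (b + 1)) P
  have hQ : Q ≠ 0 := by
    intro h0
    apply hP
    exact (optionEquivLeft ℂ (Fin (b + 1))).injective (by rw [map_zero]; exact h0)
  have hrel : ∀ x ∈ O, (Q.map (eval fun i => fn A x0 (J i).2 (M x (J i).1))).eval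
      (x (Fin.last b)) = 0 := by
    intro x hx
    rw [← eval_opt]
    have h1 := hPz x hx (by
      rintro (_ | i)
      · exact one_ne_zero
      · exact hx _)
    have h2 : (sb (x (Fin.last b)) fun i => fn A x0 (J i).2 (M x (J i).1)) =
        fun o => val (Option.elim o (Sum.inr ()) (fun i => Sum.inl (J i))) x := by
      funext o
      rcases o with _ | i <;> rfl
    rw [h2]
    exact h1
  -- the domain
  let OE : Set (ι → Fin g → ℂ) := {z | ∀ i, sec A x0 (z i) ≠ 0}
  have hOE : IsOpen OE := by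
    have h1 : OE = ⋂ i, {z | sec A x0 (z i) ≠ 0} := by
      ext x
      simp [OE]
    rw [h1]
    refine isOpen_iInter_of_finite fun i => ?_
    exact isOpen_ne_fun ((sec_cont x0).comp (continuous_apply i)) continuous_const
  have h0E : (0 : ι → Fin g → ℂ) ∈ OE := fun i => hs0
  have hlead : ∀ x, M x ∈ OE → eval (fun i => fn A x0 (J i).2 (M x (J i).1)) Q.leadingCoeff = 0 := by
    intro x hx
    obtain ⟨ε, hε, hball⟩ := Metric.isOpen_iff.1 hOE _ hx
    choose d hd W hW hdW using fun m : ℕ => recur A v (ε := min ε (1 / ((m : ℝ) + 1)))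
      (lt_min hε Nat.one_div_pos_of_nat) m
    let e : ℕ → ι → Fin g → ℂ := fun m => (d m : ℂ) • v - fun i => A.per (W m i)
    have he : Tendsto e atTop (𝓝 0) := by
      refine squeeze_zero_norm (a := fun m : ℕ => 1 / ((m : ℝ) + 1)) (fun m => ?_)
        tendsto_one_div_add_atTop_nhds_zero_nat
      exact (hdW m).le.trans (min_le_right _ _)
    have hmem : ∀ m, M x + e m ∈ OE := by
      intro m
      apply hball
      rw [Metric.mem_ball, dist_eq_norm, add_sub_cancel_left]
      exact (hdW m).trans_le (min_le_left _ _)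
    have hMx : ∀ m, M (x + (d m : ℂ) • Pi.single (Fin.last b) 1) =
        (M x + e m) + fun i => A.per (W m i) := by
      intro m
      rw [map_add, map_smul, hM1, hγ2]
      simp only [e]
      abel
    refine lead_zero Q (fun m i => fn A x0 (J i).2 ((M x + e m) (J i).1)) _ ?_
      (x (Fin.last b)) d hd fun m => ?_
    · rw [tendsto_pi_nhds]
      intro i
      have h1 : ContinuousAt (fn A x0 (J i).2) (M x (J i).1) :=
        (fn_an x0 (J i).2 (hx (J i).1)).continuousAt
      have h2 : Tendsto (fun m => (M x + e m) (J i).1) atTop (𝓝 (M x (J i).1)) := by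
        have h3 : Tendsto (fun m => M x + e m) atTop (𝓝 (M x + 0)) := he.const_add _
        rw [add_zero] at h3
        exact (continuous_apply (J i).1).continuousAt.tendsto.comp h3
      exact h1.tendsto.comp h2
    · have h1 := hrel (x + (d m : ℂ) • Pi.single (Fin.last b) 1) (by
        intro i
        rw [hMx, Pi.add_apply]
        exact (sec_ne x0 (hW m i)).2 (hmem m i))
      have h2 : (x + (d m : ℂ) • (Pi.single (Fin.last b) 1 : Fin (b + 1) → ℂ)) (Fin.last b) =
          x (Fin.last b) + d m := by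
        rw [Pi.add_apply, Pi.smul_apply, Pi.single_eq_same, smul_eq_mul, mul_one]
      rw [h2] at h1
      convert h1 using 4
      funext i
      rw [hMx, Pi.add_apply (M x + e m), fn_lat x0 _ (hW m _)]
  apply hQ
  rw [← Polynomial.leadingCoeff_eq_zero]
  refine poly_zero_of_indep (E := Fin (b + 1) → ℂ) (by rw [Module.finrank_fin_fun, Fintype.card_fin])
    (fun i x => fn A x0 (J i).2 (M x (J i).1)) (fun i => ?_) hJi _ ?_
  · exact hcA _ _ 0 (by rw [map_zero]; exact hs0)
  · have h1 : ∀ᶠ x in 𝓝 (0 : Fin (b + 1) → ℂ), M x ∈ OE := by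
      refine M.continuous.continuousAt.eventually_mem ?_
      rw [map_zero]
      exact hOE.mem_nhds h0E
    filter_upwards [h1] with x hx
    exact hlead x hx

end Pool.Agent.R917.OM
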