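import Pool.Agent.R917.OM.Proj
import Pool.Agent.R917.OM.Point

set_option autoImplicit false
set_option linter.unusedSectionVars false
set_option linter.unusedSimpArgs false

/-!
# The unipotent part and the relations between the points
-/

open Module Function TensorProduct Matrix

noncomputable section

namespace Pool.Agent.R917.OM

open Pool.Agent.Y102 Pool.Agent.W516.DR Pool.Agent.H204R3.GP Pool.Agent.W516.KC
  Pool.Agent.H204R3.SP Pool.Agent.TH119.MX

section general

variable {g : ℕ} {A : AbVar g} {n s : ℕ} {𝔤 : Submodule ℚ (Tup A n s)} {d : Dt g n s}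

/-- Endomorphisms which commute with the Lie algebra come from complex linear maps with algebraic
coefficients. -/
theorem exists_cplx (h : Lg 𝔤 d) {P : Module.End ℚ A.H1} (hP : ∀ Y ∈ aa 𝔤, Y * P = P * Y) :
    ∃ F : (Fin g → ℂ) →ₗ[ℂ] (Fin g → ℂ), (∀ w, A.per (P w) = F (A.per w)) ∧
      ∀ k l, IsAlgebraic ℚ (F (Pi.single l 1) k) := by
  have h1 := A.end_of_central (𝔥 := aa 𝔤) (fun D lam => ⟨_, h.per D lam, rfl⟩) hP
  obtain ⟨F, hF⟩ := A.hodge_end h1
  obtain ⟨a, ha⟩ := h1
  refine ⟨F, fun w => (hF w).symm, fun k l => ?_⟩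
  have h2 : ∀ w, ∑ j, (algebraMap QBar ℂ (a (Sum.inl k) j) -
      Sum.elim (fun l => F (Pi.single l 1) k) (fun _ => 0) j) * A.dR j w = 0 := by
    intro w
    have h3 := ha (Sum.inl k) w
    have h4 : A.dR (Sum.inl k) (P w) = F (A.per w) k := congrFun (hF w).symm k
    have h5 : F (A.per w) k = ∑ l, A.per w l * F (Pi.single l 1) k := by
      conv_lhs => rw [show A.per w = ∑ l, A.per w l • (Pi.single l 1 : Fin g → ℂ) from by
        funext l
        rw [Finset.sum_apply]
        simp [Pi.single_apply]]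
      rw [map_sum, Finset.sum_apply]
      exact Finset.sum_congr rfl fun l _ => by rw [map_smul, Pi.smul_apply, smul_eq_mul]
    rw [h4, h5] at h3
    simp only [sub_mul, Finset.sum_sub_distrib]
    rw [← h3, Fintype.sum_sum_type]
    simp only [Sum.elim_inl, Sum.elim_inr, zero_mul, Finset.sum_const_zero, add_zero]
    rw [sub_eq_zero]
    refine Finset.sum_congr rfl fun l _ => ?_
    rw [mul_comm]
    rfl
  have h3 : ∑ j, (algebraMap QBar ℂ (a (Sum.inl k) j) -
      Sum.elim (fun l => F (Pi.single l 1) k) (fun _ => 0) j) • A.dR j = 0 := by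
    refine LinearMap.ext fun w => ?_
    rw [LinearMap.sum_apply, LinearMap.zero_apply]
    exact h2 w
  have h4 := Fintype.linearIndependent_iff.1 A.indep_dR _ h3 (Sum.inl l)
  rw [Sum.elim_inl, sub_eq_zero] at h4
  rw [← h4]
  exact QBar.alg _

theorem cmp_bc (P : Module.End ℚ A.H1) (lam : ℂ →ₗ[ℚ] ℚ) (z : ℂ ⊗[ℚ] A.H1) :
    Pool.Agent.W516.DR.cmp lam (P.baseChange ℂ z) = P (Pool.Agent.W516.DR.cmp lam z) := by
  induction z with
  | zero => simp only [map_zero]
  | add z z' h h' => simp only [map_add, h, h']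
  | tmul c w => rw [LinearMap.baseChange_tmul, cmp_tmul, cmp_tmul, map_smul]

theorem etaL_bc {P : Module.End ℚ A.H1} {F : (Fin g → ℂ) →ₗ[ℂ] (Fin g → ℂ)}
    (hF : ∀ w, A.per (P w) = F (A.per w)) (k : Fin g) (z : ℂ ⊗[ℚ] A.H1) :
    etaL A.basis (Sum.inl k) (P.baseChange ℂ z) =
      ∑ l, F (Pi.single l 1) k * etaL A.basis (Sum.inl l) z := by
  induction z with
  | zero => simp only [map_zero, mul_zero, Finset.sum_const_zero]
  | add z z' h h' => simp only [map_add, mul_add, Finset.sum_add_distrib, h, h']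
  | tmul c w =>
    rw [LinearMap.baseChange_tmul]
    simp only [etaL_tmul, A.coe_basis]
    have h2 : ∀ (k : Fin g) (x : A.H1), A.dR (Sum.inl k) x = A.per x k := fun k x => rfl
    simp only [h2]
    rw [hF]
    conv_lhs => rw [show A.per w = ∑ l, A.per w l • (Pi.single l 1 : Fin g → ℂ) from by
      funext l
      rw [Finset.sum_apply]
      simp [Pi.single_apply]]
    rw [map_sum, Finset.sum_apply, Finset.mul_sum]
    refine Finset.sum_congr rfl fun l _ => ?_
    rw [map_smul, Pi.smul_apply, smul_eq_mul]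
    ring

/-- the first de Rham coordinates of the points -/
def pt (d : Dt g n s) (p : Fin n ⊕ Fin s) : Fin g → ℂ := fun k => d.P p (Sum.inl k)

/-- Extraction of a basis from a set of generators. -/
theorem extract {V : Type} [AddCommGroup V] [Module ℂ V] [FiniteDimensional ℂ V] (S : Set V)
    {T : Submodule ℂ V} (hT : Submodule.span ℂ S = T) {b : ℕ} (hb : finrank ℂ T = b) :
    ∃ f : Fin b → V, (∀ k, f k ∈ S) ∧ LinearIndependent ℂ f ∧
      Submodule.span ℂ (Set.range f) = T := by
  obtain ⟨B, hBS, hspan, hli⟩ := exists_linearIndependent ℂ S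
  have hfin : Finite B := hli.finite
  have _ : Fintype B := Fintype.ofFinite B
  have hcard : Fintype.card B = b := by
    have h1 := finrank_span_eq_card hli
    rw [Subtype.range_coe, hspan, hT, hb] at h1
    exact h1.symm
  let e : Fin b ≃ B := (Fintype.equivFinOfCardEq hcard).symm
  refine ⟨fun k => (e k : V), fun k => hBS (e k).2, hli.comp e e.injective, ?_⟩
  have h2 : Set.range (fun k => (e k : V)) = B := by
    have h3 : (fun k => (e k : V)) = (Subtype.val : B → V) ∘ e := rfl
    rw [h3, e.surjective.range_comp, Subtype.range_coe]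
  rw [h2, hspan, hT]

end general

variable {g : ℕ} {A : AbVarG g} {n s : ℕ} {𝔤 : Submodule ℚ (Tup A.toAbVar n s)} {d : Dt g n s}

/-- **The unipotent part of a Lie algebra which contains the periods.** -/
theorem main (h : Lg 𝔤 d) {K₁ : IntermediateField ℚ ℂ} [FiniteDimensional ℚ K₁]
    (hu : ∀ p (m : ℕ), IsRat A.toAbVar K₁ (m • pt d p)) :
    ∃ (w : (Fin n ⊕ Fin s) → A.H1) (f : (Fin n ⊕ Fin s) → (Fin n ⊕ Fin s) → Module.End ℚ A.H1)
      (F : (Fin n ⊕ Fin s) → (Fin n ⊕ Fin s) → (Fin g → ℂ) →ₗ[ℂ] (Fin g → ℂ)),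
      (∀ p q w, A.per (f p q w) = F p q (A.per w)) ∧
      (∀ z, (∀ p, ∑ q, f p q (z q) = 0) ↔ z ∈ uu 𝔤) ∧
      (∀ p, ∑ q, F p q (pt d q - A.per (w q)) = 0) ∧
      (∀ L ∈ 𝔤, (fun p => L.2.2.1 p - op L (w p)) ∈ uu 𝔤) := by
  classical
  obtain ⟨π, hπ2, hπ0, hπc⟩ := exists_proj_aux h.full.semi (uu 𝔤) (by
    rintro _ ⟨L, hL, rfl⟩ z hz
    have h1 := (uu 𝔤).sub_mem (uu_stable h hL hz) ((uu 𝔤).smul_mem L.2.1 hz)
    convert h1 using 1
    funext p
    change L.1 (z p) = op L (z p) - L.2.1 • z p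
    rw [op_apply, add_sub_cancel_right])
  obtain ⟨w, hw⟩ := exists_levi h
  let f : (Fin n ⊕ Fin s) → (Fin n ⊕ Fin s) → Module.End ℚ A.H1 := fun p q =>
    (LinearMap.proj p ∘ₗ π) ∘ₗ LinearMap.single ℚ (fun _ => A.H1) q
  have hfπ : ∀ z p, π z p = ∑ q, f p q (z q) := by
    intro z p
    have h1 : z = ∑ q, (LinearMap.single ℚ (fun _ => A.H1) q (z q)) := by
      funext q
      rw [Finset.sum_apply, Finset.sum_eq_single q]
      · simp
      · intro b _ hb
        simp [hb.symm]
      · intro hq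
        exact absurd (Finset.mem_univ _) hq
    conv_lhs => rw [h1, map_sum, Finset.sum_apply]
    rfl
  have hfc : ∀ p q, ∀ Y ∈ aa 𝔤, Y * f p q = f p q * Y := by
    intro p q Y hY
    refine LinearMap.ext fun x => ?_
    have h1 := congrFun (hπc Y hY (Pi.single q x)) p
    have h2 : (fun p => Y ((Pi.single q x : (Fin n ⊕ Fin s) → A.H1) p)) =
        (Pi.single q (Y x) : (Fin n ⊕ Fin s) → A.H1) := by
      funext p'
      by_cases hp : p' = q
      · subst hp
        rw [Pi.single_eq_same, Pi.single_eq_same]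
      · rw [Pi.single_eq_of_ne hp, Pi.single_eq_of_ne hp, map_zero]
    rw [h2] at h1
    exact h1.symm
  choose F hF hFa using fun p q => exists_cplx h (hfc p q)
  -- the complex projector
  let Q : ((Fin n ⊕ Fin s) → Fin g → ℂ) →ₗ[ℂ] ((Fin n ⊕ Fin s) → Fin g → ℂ) :=
    LinearMap.pi fun p => ∑ q, (F p q) ∘ₗ LinearMap.proj q
  have hQ : ∀ x p, Q x p = ∑ q, F p q (x q) := by
    intro x p
    simp [Q]
  let Per : ((Fin n ⊕ Fin s) → A.H1) → ((Fin n ⊕ Fin s) → Fin g → ℂ) := fun z p => A.per (z p)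
  have hPerQ : ∀ z, Q (Per z) = Per (π z) := by
    intro z
    funext p
    rw [hQ]
    change _ = A.per (π z p)
    rw [hfπ, map_sum]
    exact Finset.sum_congr rfl fun q _ => (hF p q (z q)).symm
  have hdec : ∀ x : (Fin n ⊕ Fin s) → Fin g → ℂ, x = ∑ p, ∑ j,
      ((A.lam.repr (x p) j : ℝ) : ℂ) • Per (Pi.single p (eb A.toAbVar j)) := by
    intro x
    funext p
    rw [Finset.sum_apply, Finset.sum_eq_single p]
    · rw [Finset.sum_apply]
      conv_lhs => rw [← A.lam.sum_repr (x p)]
      refine Finset.sum_congr rfl fun j _ => ?_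
      change A.lam.repr (x p) j • A.lam j = ((A.lam.repr (x p) j : ℝ) : ℂ) •
        A.per ((Pi.single p (eb A.toAbVar j) : (Fin n ⊕ Fin s) → A.H1) p)
      rw [Pi.single_eq_same, Complex.coe_smul]
      congr 1
      have h4 := A.per_bas j
      unfold AbVar.bas at h4
      rw [Pi.basisFun_apply] at h4
      exact h4.symm
    · intro q _ hq
      rw [Finset.sum_apply]
      refine Finset.sum_eq_zero fun j _ => ?_
      change ((A.lam.repr (x q) j : ℝ) : ℂ) •
        A.per ((Pi.single q (eb A.toAbVar j) : (Fin n ⊕ Fin s) → A.H1) p) = 0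
      rw [Pi.single_eq_of_ne hq.symm, map_zero, smul_zero]
    · intro hp
      exact absurd (Finset.mem_univ _) hp
  have hQ2 : ∀ x, Q (Q x) = Q x := by
    intro x
    rw [hdec x]
    simp only [map_sum, map_smul, hPerQ, hπ2]
  obtain ⟨T, hT⟩ : ∃ T : Submodule ℂ ((Fin n ⊕ Fin s) → Fin g → ℂ), T = LinearMap.ker Q := ⟨_, rfl⟩
  have hTm : ∀ x, x ∈ T ↔ Q x = 0 := fun x => by rw [hT, LinearMap.mem_ker]
  -- a basis with algebraic coordinates
  let ev : (Fin n ⊕ Fin s) × Fin g → (Fin n ⊕ Fin s) → Fin g → ℂ := fun c =>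
    Pi.single c.1 (Pi.single c.2 1)
  have hev : ∀ x : (Fin n ⊕ Fin s) → Fin g → ℂ, x = ∑ c, x c.1 c.2 • ev c := by
    intro x
    funext p k
    rw [Finset.sum_apply, Finset.sum_apply, Finset.sum_eq_single (p, k)]
    · simp [ev]
    · rintro ⟨q, l⟩ _ hne
      simp only [ev, Pi.smul_apply, smul_eq_mul]
      by_cases hq : q = p
      · subst hq
        have hl : l ≠ k := fun h => hne (by rw [h])
        rw [Pi.single_eq_same, Pi.single_eq_of_ne hl.symm, mul_zero]
      · rw [Pi.single_eq_of_ne (Ne.symm hq), Pi.zero_apply, mul_zero]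
    · intro hp
      exact absurd (Finset.mem_univ _) hp
  have hspan1 : Submodule.span ℂ (Set.range fun c => ev c - Q (ev c)) = T := by
    apply le_antisymm
    · rw [Submodule.span_le]
      rintro _ ⟨c, rfl⟩
      exact (hTm _).2 (by rw [map_sub, hQ2, sub_self])
    · intro x hx
      have h1 : x = ∑ c, x c.1 c.2 • (ev c - Q (ev c)) := by
        simp only [smul_sub, Finset.sum_sub_distrib]
        rw [← hev x]
        have h2 : ∑ c, x c.1 c.2 • Q (ev c) = Q x := by
          conv_rhs => rw [hev x, map_sum]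
          exact Finset.sum_congr rfl fun c _ => (map_smul Q _ _).symm
        rw [h2, (hTm x).1 hx, sub_zero]
      rw [h1]
      exact Submodule.sum_mem _ fun c _ => Submodule.smul_mem _ _
        (Submodule.subset_span ⟨c, rfl⟩)
  have hFev : ∀ c p k, IsAlgebraic ℚ ((ev c - Q (ev c)) p k) := by
    intro c p k
    have h1 : ∀ (q : Fin n ⊕ Fin s) (l : Fin g), IsAlgebraic ℚ (ev c q l) := by
      intro q l
      simp only [ev]
      by_cases hq : q = c.1
      · subst hq
        rw [Pi.single_eq_same, Pi.single_apply]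
        split_ifs
        · exact isAlgebraic_one
        · exact isAlgebraic_zero
      · rw [Pi.single_eq_of_ne hq]
        exact isAlgebraic_zero
    rw [Pi.sub_apply, Pi.sub_apply]
    refine (h1 p k).sub ?_
    rw [hQ, Finset.sum_eq_single c.1]
    · simp only [ev]
      rw [Pi.single_eq_same]
      exact hFa p c.1 k c.2
    · intro q _ hq
      simp only [ev]
      rw [Pi.single_eq_of_ne hq, map_zero]
    · intro hp
      exact absurd (Finset.mem_univ _) hp
  obtain ⟨β, hβS, hβ, hβT⟩ := extract _ hspan1 rfl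
  have hβa : ∀ k p l, IsAlgebraic ℚ (β k p l) := by
    intro k
    obtain ⟨c, hc⟩ := hβS k
    rw [← hc]
    exact hFev c
  -- periods
  have hspan2 : Submodule.span ℂ {x | ∃ y : (Fin n ⊕ Fin s) → A.H1, (∀ p, y p ∈ A.lat) ∧
      π y = 0 ∧ x = Per y} = T := by
    apply le_antisymm
    · rw [Submodule.span_le]
      rintro _ ⟨y, -, hy, rfl⟩
      refine (hTm _).2 ?_
      rw [hPerQ, hy]
      funext p
      exact map_zero A.per
    · intro x hx
      have h1 : x = ∑ p, ∑ j, ((A.lam.repr (x p) j : ℝ) : ℂ) •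
          Per (Pi.single p (eb A.toAbVar j) - π (Pi.single p (eb A.toAbVar j))) := by
        have h2 : ∀ a b : (Fin n ⊕ Fin s) → A.H1, Per (a - b) = Per a - Per b := by
          intro a b
          funext p
          exact map_sub A.per _ _
        simp only [h2, smul_sub, Finset.sum_sub_distrib]
        rw [← hdec x]
        have h3 : ∑ p, ∑ j, ((A.lam.repr (x p) j : ℝ) : ℂ) •
            Per (π (Pi.single p (eb A.toAbVar j))) = Q x := by
          conv_rhs => rw [hdec x]
          simp only [map_sum, map_smul, hPerQ]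
        rw [h3, (hTm x).1 hx, sub_zero]
      rw [h1]
      refine Submodule.sum_mem _ fun p _ => Submodule.sum_mem _ fun j _ =>
        Submodule.smul_mem _ _ ?_
      obtain ⟨y, hy⟩ : ∃ y : (Fin n ⊕ Fin s) → A.H1,
        y = Pi.single p (eb A.toAbVar j) - π (Pi.single p (eb A.toAbVar j)) := ⟨_, rfl⟩
      rw [← hy]
      have hy0 : π y = 0 := by rw [hy, map_sub, hπ2, sub_self]
      choose m hm0 hm using fun q => A.full_lat (y q)
      have hM : ∀ q, (∏ q, m q) • y q ∈ A.lat := by
        intro q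
        rw [← Finset.prod_erase_mul _ _ (Finset.mem_univ q), mul_smul]
        exact A.lat.nsmul_mem (hm q) _
      have hM0 : ((∏ q, m q : ℕ) : ℂ) ≠ 0 := by
        exact_mod_cast (Finset.prod_pos fun q _ => hm0 q).ne'
      have h3 : Per y = ((∏ q, m q : ℕ) : ℂ)⁻¹ • Per ((∏ q, m q) • y) := by
        have h4 : Per ((∏ q, m q) • y) = ((∏ q, m q : ℕ) : ℂ) • Per y := by
          funext q
          change A.per ((∏ q, m q) • y q) = ((∏ q, m q : ℕ) : ℂ) • A.per (y q)
          rw [map_nsmul, Nat.cast_smul_eq_nsmul]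
        rw [h4, smul_smul, inv_mul_cancel₀ hM0, one_smul]
      rw [h3]
      refine Submodule.smul_mem _ _ (Submodule.subset_span ⟨(∏ q, m q) • y, hM, ?_, rfl⟩)
      rw [map_nsmul, hy0, smul_zero]
  obtain ⟨γ, hγS, hγ, hγT⟩ := extract _ hspan2 rfl
  choose y hy1 hy2 hy3 using hγS
  -- the algebraic vector
  have hder : ∀ (D : Derivation QBar ℂ ℂ) p k, ∑ q, ∑ l, F p q (Pi.single l 1) k *
      (D (pt d q l) - D (A.per (w q) l)) = 0 := by
    intro D p k
    let x : (Fin n ⊕ Fin s) → ℂ ⊗[ℚ] A.H1 := fun q =>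
      lft A.toAbVar (fun c => D (d.P q c)) - XX A.basis D ((1 : ℂ) ⊗ₜ[ℚ] w q)
    have hx : ∀ (lam : ℂ →ₗ[ℚ] ℚ) q, Pool.Agent.W516.DR.cmp lam (x q) =
        (LD A.toAbVar d D lam).2.2.1 q - op (LD A.toAbVar d D lam) (w q) := by
      intro lam q
      rw [op_LD, Pool.Agent.W516.DR.cmpE_apply]
      exact map_sub _ _ _
    have h1 : ∑ q, (f p q).baseChange ℂ (x q) = 0 := by
      apply eq_zero_of_cmp (k := ℚ)
      intro lam
      rw [map_sum]
      simp only [cmp_bc, hx]
      have h2 := (hπ0 _).2 (hw _ (h.per D lam))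
      have h3 := congrFun h2 p
      rw [hfπ] at h3
      exact h3
    have h2 := congrArg (etaL A.basis (Sum.inl k)) h1
    rw [map_sum, map_zero] at h2
    rw [← h2]
    refine Finset.sum_congr rfl fun q _ => ?_
    rw [etaL_bc (hF p q)]
    refine Finset.sum_congr rfl fun l _ => ?_
    congr 1
    simp only [x, map_sub, etaL_lft, etaL_XX_one, A.coe_basis]
    rfl
  have hexp : ∀ p (v : (Fin n ⊕ Fin s) → Fin g → ℂ) k, Q v p k =
      ∑ q, ∑ l, F p q (Pi.single l 1) k * v q l := by
    intro p v k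
    rw [hQ, Finset.sum_apply]
    refine Finset.sum_congr rfl fun q _ => ?_
    conv_lhs => rw [show v q = ∑ l, v q l • (Pi.single l 1 : Fin g → ℂ) from by
      funext l
      rw [Finset.sum_apply]
      simp [Pi.single_apply]]
    rw [map_sum, Finset.sum_apply]
    refine Finset.sum_congr rfl fun l _ => ?_
    rw [map_smul, Pi.smul_apply, smul_eq_mul, mul_comm]
  obtain ⟨α, hα⟩ : ∃ α, α = Q (pt d - Per w) := ⟨_, rfl⟩
  have hαa : ∀ p k, IsAlgebraic ℚ (α p k) := by
    intro p k
    have h1 : ∀ D : Derivation QBar ℂ ℂ, D (α p k) = 0 := by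
      intro D
      rw [hα, hexp, map_sum, ← hder D p k]
      refine Finset.sum_congr rfl fun q _ => ?_
      rw [map_sum]
      refine Finset.sum_congr rfl fun l _ => ?_
      rw [Derivation.leibniz]
      have h2 : D (F p q (Pi.single l 1) k) = 0 := by
        have h3 : ∃ x : QBar, algebraMap QBar ℂ x = F p q (Pi.single l 1) k :=
          ⟨⟨_, mem_algebraicClosure_iff.2 (hFa p q k l)⟩, rfl⟩
        obtain ⟨x, hx⟩ := h3
        rw [← hx, Derivation.map_algebraMap]
      rw [h2, smul_zero, add_zero, smul_eq_mul, Pi.sub_apply, Pi.sub_apply, map_sub]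
    obtain ⟨x, hx⟩ := mem_of_derivation h1
    rw [← hx]
    exact QBar.alg x
  have hQα : Q α = α := by rw [hα, hQ2]
  -- the theorem on the points
  choose m hm0 hm using fun q => A.full_lat (w q)
  obtain ⟨M, hMdef⟩ : ∃ M : ℕ, M = ∏ q, m q := ⟨_, rfl⟩
  have hM : ∀ q, M • w q ∈ A.lat := by
    intro q
    rw [hMdef, ← Finset.prod_erase_mul _ _ (Finset.mem_univ q), mul_smul]
    exact A.lat.nsmul_mem (hm q) _
  have hM0 : (M : ℂ) ≠ 0 := by
    rw [hMdef]
    exact_mod_cast (Finset.prod_pos fun q _ => hm0 q).ne'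
  have hpoint := point A hβ hβa (v := (M : ℂ) • α) (fun p k => by
      rw [Pi.smul_apply, Pi.smul_apply, smul_eq_mul]
      exact (isAlgebraic_natCast (R := ℚ) (A := ℂ) M).mul (hαa p k))
    (w := y) (fun k i => hy1 k i) (fun k => by
      rw [hβT, ← hγT]
      exact Submodule.subset_span ⟨k, hy3 k⟩)
    (by
      have h1 : (fun k => (fun i => A.per (y k i) : (Fin n ⊕ Fin s) → Fin g → ℂ)) = γ :=
        funext fun k => (hy3 k).symm
      rw [h1]
      exact hγ)
    (u := fun q => M • pt d q) (K₁ := K₁)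
    (fun q k => by
      rw [smul_smul]
      exact hu q _)
    (w0 := fun q => -(M • w q)) (fun q => A.lat.neg_mem (hM q))
    (by
      rw [hβT]
      have h1 : ((fun i => M • pt d i + A.per (-(M • w i))) - (M : ℂ) • α :
          (Fin n ⊕ Fin s) → Fin g → ℂ) = (M : ℂ) • (pt d - Per w - α) := by
        funext q
        simp only [Pi.sub_apply, Pi.smul_apply, map_neg, map_nsmul, smul_sub,
          Nat.cast_smul_eq_nsmul]
        rw [← sub_eq_add_neg]
      rw [h1]
      refine Submodule.smul_mem _ _ ((hTm _).2 ?_)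
      rw [map_sub, hQα, ← hα, sub_self])
  have hα0 : α = 0 := by
    rw [hβT, hTm, map_smul, hQα] at hpoint
    exact (smul_eq_zero.1 hpoint).resolve_left hM0
  refine ⟨w, f, F, fun p q x => hF p q x, fun z => ?_, fun p => ?_, hw⟩
  · rw [← hπ0]
    constructor
    · intro hz
      funext p
      rw [hfπ]
      exact hz p
    · intro hz p
      rw [← hfπ, hz]
      rfl
  · have h1 : Q (pt d - Per w) p = 0 := by
      rw [← hα, hα0]
      rfl
    rw [hQ] at h1
    exact h1

end Pool.Agent.R917.OM
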