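import Pool.Agent.R917.OM.Chart
import Pool.Agent.Y102.Line

set_option autoImplicit false
set_option linter.unusedSectionVars false

/-!
# Recurrence of linear flows on tori, and leading coefficients
-/

open Module Filter Topology MvPolynomial

noncomputable section

namespace Pool.Agent.R917.OM

open Pool.Agent.Y102

/-- Multiples of a vector come back to a cocompact subgroup. -/
theorem recurrence {E : Type*} [NormedAddCommGroup E] [NormedSpace ℝ E] [FiniteDimensional ℝ E]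
    (Λ : AddSubgroup E) {R : ℝ} (hR : ∀ z : E, ∃ l ∈ Λ, ‖z - l‖ ≤ R) (v : E) {ε : ℝ} (hε : 0 < ε)
    (m : ℕ) : ∃ d : ℕ, m < d ∧ ∃ l ∈ Λ, ‖(d : ℝ) • v - l‖ < ε := by
  choose l hl hlR using fun k : ℕ => hR ((k : ℝ) • v)
  have _ : ProperSpace E := FiniteDimensional.proper ℝ E
  obtain ⟨a, -, φ, hφ, hlim⟩ := (isCompact_closedBall (0 : E) R).tendsto_subseq
    (x := fun k : ℕ => (k : ℝ) • v - l k) (fun k => by
      rw [mem_closedBall_zero_iff]
      exact hlR k)
  obtain ⟨N, hN⟩ := Metric.cauchySeq_iff.1 hlim.cauchySeq ε hε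
  have h1 := hN (N + m + 1) (by omega) N le_rfl
  refine ⟨φ (N + m + 1) - φ N, ?_, l (φ (N + m + 1)) - l (φ N), Λ.sub_mem (hl _) (hl _), ?_⟩
  · have h2 : φ N + (m + 1) ≤ φ (N + m + 1) := by
      have h3 : ∀ k, φ N + k ≤ φ (N + k) := by
        intro k
        induction k with
        | zero => exact le_rfl
        | succ k ih =>
          have h4 := hφ (Nat.lt_succ_self (N + k))
          rw [Nat.succ_eq_add_one] at h4
          rw [← add_assoc, ← add_assoc]
          omega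
      have := h3 (m + 1)
      rwa [← add_assoc] at this
    omega
  · rw [dist_eq_norm] at h1
    have h2 : φ N ≤ φ (N + m + 1) := hφ.monotone (by omega)
    rw [Nat.cast_sub h2, sub_smul]
    have h3 : (φ (N + m + 1) : ℝ) • v - (φ N : ℝ) • v - (l (φ (N + m + 1)) - l (φ N)) =
        ((fun k : ℕ => (k : ℝ) • v - l k) ∘ φ) (N + m + 1) -
          ((fun k : ℕ => (k : ℝ) • v - l k) ∘ φ) N := by
      simp only [Function.comp_apply]
      abel
    rw [h3]
    exact h1

section opt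

variable {J : Type} [Fintype J]

/-- the substitution -/
def sb (t : ℂ) (y : J → ℂ) : Option J → ℂ
  | none => t
  | some j => y j

theorem eval_opt (P : MvPolynomial (Option J) ℂ) (t : ℂ) (y : J → ℂ) :
    eval (sb t y) P = ((optionEquivLeft ℂ J P).map (eval y)).eval t := by
  induction P using MvPolynomial.induction_on with
  | C a =>
    rw [eval_C, optionEquivLeft_C, Polynomial.map_C, Polynomial.eval_C, eval_C]
  | add p q hp hq =>
    rw [map_add, map_add, Polynomial.map_add, Polynomial.eval_add, hp, hq]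
  | mul_X p i hp =>
    rw [map_mul, map_mul, Polynomial.map_mul, Polynomial.eval_mul, hp]
    congr 1
    rcases i with _ | j
    · rw [optionEquivLeft_X_none, Polynomial.map_X, Polynomial.eval_X, eval_X]
      rfl
    · rw [optionEquivLeft_X_some, Polynomial.map_C, Polynomial.eval_C, eval_X, eval_X]
      rfl

/-- The leading coefficient vanishes at the limit. -/
theorem lead_zero (Q : Polynomial (MvPolynomial J ℂ)) (y : ℕ → J → ℂ) (y0 : J → ℂ)
    (hy : Tendsto y atTop (𝓝 y0)) (t : ℂ) (d : ℕ → ℕ) (hd : ∀ m, m < d m)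
    (h : ∀ m, (Q.map (eval (y m))).eval (t + d m) = 0) : eval y0 Q.leadingCoeff = 0 := by
  have hdlim : Tendsto (fun m => (d m : ℝ)) atTop atTop := by
    refine tendsto_atTop_mono (fun m => ?_) tendsto_natCast_atTop_atTop
    exact_mod_cast (hd m).le
  have hTnorm : Tendsto (fun m => ‖t + (d m : ℂ)‖) atTop atTop := by
    refine tendsto_atTop_mono (fun m => ?_) (tendsto_atTop_add_const_right _ (-‖t‖) hdlim)
    have h1 : ‖(d m : ℂ)‖ = d m := by simp
    have h2 : ‖(d m : ℂ)‖ ≤ ‖t + (d m : ℂ)‖ + ‖t‖ := by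
      calc ‖(d m : ℂ)‖ = ‖(t + (d m : ℂ)) - t‖ := by congr 1; ring
        _ ≤ _ := norm_sub_le _ _
    rw [h1] at h2
    linarith
  have hTinv : Tendsto (fun m => (t + (d m : ℂ))⁻¹) atTop (𝓝 0) := by
    rw [tendsto_zero_iff_norm_tendsto_zero]
    simp only [norm_inv]
    exact hTnorm.inv_tendsto_atTop
  have hne : ∀ᶠ m in atTop, t + (d m : ℂ) ≠ 0 := by
    filter_upwards [hTnorm.eventually_gt_atTop 0] with m hm
    exact norm_pos_iff.1 hm
  -- the normalized relation
  have h1 : ∀ᶠ m in atTop, ∑ k ∈ Finset.range (Q.natDegree + 1),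
      eval (y m) (Q.coeff k) * ((t + (d m : ℂ))⁻¹) ^ (Q.natDegree - k) = 0 := by
    filter_upwards [hne] with m hm
    have h2 := h m
    rw [Polynomial.eval_eq_sum_range' (n := Q.natDegree + 1)
      (lt_of_le_of_lt Polynomial.natDegree_map_le (Nat.lt_succ_self _))] at h2
    have h3 : (∑ k ∈ Finset.range (Q.natDegree + 1),
      eval (y m) (Q.coeff k) * ((t + (d m : ℂ))⁻¹) ^ (Q.natDegree - k)) * (t + d m) ^ Q.natDegree =
      ∑ k ∈ Finset.range (Q.natDegree + 1), (Q.map (eval (y m))).coeff k * (t + d m) ^ k := by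
      rw [Finset.sum_mul]
      refine Finset.sum_congr rfl fun k hk => ?_
      have hk' : k ≤ Q.natDegree := Nat.lt_succ_iff.1 (Finset.mem_range.1 hk)
      rw [Polynomial.coeff_map, mul_assoc]
      congr 1
      have h4 : (t + (d m : ℂ)) ^ Q.natDegree =
          (t + d m) ^ (Q.natDegree - k) * (t + d m) ^ k := by
        rw [← pow_add, Nat.sub_add_cancel hk']
      rw [h4, ← mul_assoc, ← mul_pow, inv_mul_cancel₀ hm, one_pow, one_mul]
    rw [h2] at h3
    exact (mul_eq_zero.1 h3).resolve_right (pow_ne_zero _ hm)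
  have h2 : Tendsto (fun m => ∑ k ∈ Finset.range (Q.natDegree + 1),
      eval (y m) (Q.coeff k) * ((t + (d m : ℂ))⁻¹) ^ (Q.natDegree - k)) atTop
      (𝓝 (∑ k ∈ Finset.range (Q.natDegree + 1),
        eval y0 (Q.coeff k) * (0 : ℂ) ^ (Q.natDegree - k))) := by
    refine tendsto_finsetSum _ fun k _ => ?_
    exact (((MvPolynomial.continuous_eval (Q.coeff k)).tendsto y0).comp hy).mul (hTinv.pow _)
  have h3 : ∑ k ∈ Finset.range (Q.natDegree + 1),
      eval y0 (Q.coeff k) * (0 : ℂ) ^ (Q.natDegree - k) = eval y0 Q.leadingCoeff := by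
    rw [Finset.sum_eq_single Q.natDegree]
    · rw [Nat.sub_self, pow_zero, mul_one]
      rfl
    · intro k hk hk'
      rw [zero_pow, mul_zero]
      have := Finset.mem_range.1 hk
      omega
    · intro h
      exact absurd (Finset.mem_range.2 (Nat.lt_succ_self _)) h
  rw [h3] at h2
  have h4 : Tendsto (fun _ : ℕ => (0 : ℂ)) atTop (𝓝 (eval y0 Q.leadingCoeff)) :=
    h2.congr' (h1.mono fun m hm => hm)
  exact tendsto_nhds_unique tendsto_const_nhds h4 |>.symm

end opt

variable {g : ℕ} (A : AbVarG g)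

/-- The lattice is cocompact. -/
theorem lat_cocompact {ι : Type} [Fintype ι] : ∃ R : ℝ, ∀ z : ι → Fin g → ℂ,
    ∃ w : ι → A.H1, (∀ i, w i ∈ A.lat) ∧ ‖z - fun i => A.per (w i)‖ ≤ R := by
  refine ⟨∑ j, ‖A.lam j‖, fun z => ?_⟩
  refine ⟨fun i j => ((⌊A.lam.repr (z i) j⌋ : ℤ) : ℚ), fun i => ?_, ?_⟩
  · have h1 : (fun j => ((⌊A.lam.repr (z i) j⌋ : ℤ) : ℚ) : A.H1) =
        ∑ j, ⌊A.lam.repr (z i) j⌋ • A.bas j := by
      funext k
      rw [Finset.sum_apply, Finset.sum_eq_single k]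
      · simp [AbVar.bas]
      · intro j _ hj
        simp [AbVar.bas, hj.symm]
      · intro h
        exact absurd (Finset.mem_univ _) h
    change (fun j => ((⌊A.lam.repr (z i) j⌋ : ℤ) : ℚ) : A.H1) ∈ A.lat
    rw [h1]
    exact sum_mem fun j _ => AddSubgroup.zsmul_mem _
      (AddSubgroup.subset_closure (Set.mem_range_self j)) _
  · refine (pi_norm_le_iff_of_nonneg (Finset.sum_nonneg fun j _ => norm_nonneg _)).2 fun i => ?_
    have h1 : (z - fun i => A.per fun j => ((⌊A.lam.repr (z i) j⌋ : ℤ) : ℚ)) i =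
        ∑ j, Int.fract (A.lam.repr (z i) j) • A.lam j := by
      rw [Pi.sub_apply, A.per_apply]
      conv_lhs => rw [← A.lam.sum_repr (z i)]
      rw [← Finset.sum_sub_distrib]
      refine Finset.sum_congr rfl fun j _ => ?_
      have h2 : (((⌊A.lam.repr (z i) j⌋ : ℤ) : ℚ) • A.lam j : Fin g → ℂ) =
          ((⌊A.lam.repr (z i) j⌋ : ℤ) : ℝ) • A.lam j := by
        rw [AbVar.rat_smul, Rat.cast_intCast]
      rw [Int.fract, sub_smul, ← h2]
      congr 3
      rw [A.lam.sum_repr]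
    rw [h1]
    refine (norm_sum_le _ _).trans (Finset.sum_le_sum fun j _ => ?_)
    rw [norm_smul, Real.norm_eq_abs, abs_of_nonneg (Int.fract_nonneg _)]
    calc Int.fract (A.lam.repr (z i) j) * ‖A.lam j‖ ≤ 1 * ‖A.lam j‖ :=
          mul_le_mul_of_nonneg_right (Int.fract_lt_one _).le (norm_nonneg _)
      _ = _ := one_mul _

/-- The lattice of a power. -/
def latP (ι : Type) : AddSubgroup (ι → Fin g → ℂ) where
  carrier := {z | ∃ w : ι → A.H1, (∀ i, w i ∈ A.lat) ∧ z = fun i => A.per (w i)}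
  zero_mem' := ⟨0, fun i => A.lat.zero_mem, by
    funext i
    rw [Pi.zero_apply, Pi.zero_apply, map_zero]⟩
  add_mem' := by
    rintro _ _ ⟨w, hw, rfl⟩ ⟨w', hw', rfl⟩
    refine ⟨w + w', fun i => A.lat.add_mem (hw i) (hw' i), ?_⟩
    funext i
    rw [Pi.add_apply, Pi.add_apply, map_add]
  neg_mem' := by
    rintro _ ⟨w, hw, rfl⟩
    refine ⟨-w, fun i => A.lat.neg_mem (hw i), ?_⟩
    funext i
    rw [Pi.neg_apply, Pi.neg_apply, map_neg]

/-- Multiples of a vector come back to the lattice. -/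
theorem recur {ι : Type} [Fintype ι] (v : ι → Fin g → ℂ) {ε : ℝ} (hε : 0 < ε) (m : ℕ) :
    ∃ d : ℕ, m < d ∧ ∃ w : ι → A.H1, (∀ i, w i ∈ A.lat) ∧
      ‖(d : ℂ) • v - fun i => A.per (w i)‖ < ε := by
  obtain ⟨R, hR⟩ := lat_cocompact A (ι := ι)
  obtain ⟨d, hd, _, ⟨w, hw, rfl⟩, h⟩ := recurrence (latP A ι) (R := R) (fun z => by
    obtain ⟨w, hw, h⟩ := hR z
    exact ⟨_, ⟨w, hw, rfl⟩, h⟩) v hε m
  refine ⟨d, hd, w, hw, ?_⟩
  have h1 : ((d : ℂ) • v : ι → Fin g → ℂ) = (d : ℝ) • v := by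
    rw [← Complex.coe_smul]
    norm_cast
  rw [h1]
  exact h

end Pool.Agent.R917.OM
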