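import Pool.Agent.R917.OM.Fld

set_option autoImplicit false
set_option linter.unusedSectionVars false
set_option linter.unusedSimpArgs false

/-!
# The brackets of the unipotent part
-/

open Module Function TensorProduct Matrix

noncomputable section

namespace Pool.Agent.R917.OM

open Pool.Agent.Y102 Pool.Agent.W516.DR Pool.Agent.H204R3.GP Pool.Agent.W516.KC
  Pool.Agent.H204R3.SP Pool.Agent.TH119.MX

variable {g : ℕ} {A : AbVar g} {n s : ℕ} {𝔤 : Submodule ℚ (Tup A n s)} {d : Dt g n s}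

/-- the bracket of two unipotent elements -/
def bb (z z' : (Fin n ⊕ Fin s) → A.H1) : Fin n → Fin s → ℚ := fun i l =>
  A.om (z (Sum.inr l)) (z' (Sum.inl i)) - A.om (z' (Sum.inr l)) (z (Sum.inl i))

theorem bb_mem (h : Lg 𝔤 d) {z z' : (Fin n ⊕ Fin s) → A.H1} (hz : z ∈ uu 𝔤) (hz' : z' ∈ uu 𝔤) :
    bb z z' ∈ tt 𝔤 := by
  obtain ⟨t, ht⟩ := hz
  obtain ⟨t', ht'⟩ := hz'
  have h1 := h.br _ ht _ ht'
  rw [mem_tt]
  convert h1 using 1
  refine Prod.ext ?_ (Prod.ext rfl (Prod.ext ?_ ?_))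
  · simp [OM.br]
  · funext p
    simp [OM.br, op]
  · funext i l
    simp [OM.br, bb]

/-- A rational linear functional, in terms of coordinates. -/
theorem functional_eq (φ : (Fin n → Fin s → ℚ) →ₗ[ℚ] ℚ) (t : Fin n → Fin s → ℚ) :
    φ t = ∑ i, ∑ l, φ (Pi.single i (Pi.single l 1)) * t i l := by
  classical
  have h3 : t = ∑ i, ∑ l, t i l • (Pi.single i (Pi.single l 1) : Fin n → Fin s → ℚ) := by
    funext i' l'
    rw [Finset.sum_apply, Finset.sum_apply, Finset.sum_eq_single i']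
    · rw [Finset.sum_apply, Finset.sum_apply, Finset.sum_eq_single l']
      · simp
      · intro l _ hl
        simp [Pi.single_eq_of_ne hl.symm]
      · intro hh
        exact absurd (Finset.mem_univ _) hh
    · intro i _ hi
      rw [Finset.sum_apply, Finset.sum_apply]
      refine Finset.sum_eq_zero fun l _ => ?_
      simp [Pi.single_eq_of_ne hi.symm]
    · intro hh
      exact absurd (Finset.mem_univ _) hh
  conv_lhs => rw [h3, map_sum]
  refine Finset.sum_congr rfl fun i _ => ?_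
  rw [map_sum]
  refine Finset.sum_congr rfl fun l _ => ?_
  rw [map_smul, smul_eq_mul, mul_comm]

/-- Common denominators. -/
theorem exists_int (m : Fin n → Fin s → ℚ) : ∃ (N : ℕ) (M : Fin n → Fin s → ℤ), N ≠ 0 ∧
    ∀ i l, (M i l : ℚ) = N * m i l := by
  classical
  refine ⟨∏ c : Fin n × Fin s, (m c.1 c.2).den, fun i l =>
    (((∏ c : Fin n × Fin s, (m c.1 c.2).den : ℕ) : ℚ) * m i l).num, ?_, fun i l => ?_⟩
  · exact Finset.prod_ne_zero_iff.2 fun c _ => (m c.1 c.2).den_nz
  · have h1 : (m i l).den ∣ ∏ c : Fin n × Fin s, (m c.1 c.2).den :=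
      Finset.dvd_prod_of_mem (fun c : Fin n × Fin s => (m c.1 c.2).den)
        (Finset.mem_univ (i, l))
    obtain ⟨k, hk⟩ := h1
    rw [hk]
    have h2 : ((((m i l).den * k : ℕ) : ℚ) * m i l) = (((m i l).num * k : ℤ) : ℚ) := by
      push_cast
      have h3 := Rat.mul_den_eq_num (m i l)
      linear_combination (k : ℚ) * h3
    change ((((((m i l).den * k : ℕ) : ℚ) * m i l).num : ℤ) : ℚ) = _
    rw [h2, Rat.num_intCast]

/-- The span of the brackets in terms of integral linear forms. -/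
theorem mem_tt_of_brackets {S : Set (Fin n → Fin s → ℚ)} (hS : S ⊆ tt 𝔤)
    {t : Fin n → Fin s → ℚ} (ht : ∀ M : Fin n → Fin s → ℤ,
      (∀ b ∈ S, ∑ i, ∑ l, (M i l : ℚ) * b i l = 0) → ∑ i, ∑ l, (M i l : ℚ) * t i l = 0) :
    t ∈ tt 𝔤 := by
  by_contra hcon
  obtain ⟨φ, hφ2, hφ1⟩ := Submodule.exists_le_ker_of_notMem hcon
  obtain ⟨N, M, hN, hM⟩ := exists_int fun i l => φ (Pi.single i (Pi.single l 1))
  have key : ∀ b, ∑ i, ∑ l, (M i l : ℚ) * b i l = N * φ b := by
    intro b
    rw [functional_eq φ b, Finset.mul_sum]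
    refine Finset.sum_congr rfl fun i _ => ?_
    rw [Finset.mul_sum]
    refine Finset.sum_congr rfl fun l _ => ?_
    rw [hM]
    ring
  have h1 := ht M fun b hb => by
    rw [key, LinearMap.mem_ker.1 (hφ1 (hS hb)), mul_zero]
  rw [key] at h1
  rcases mul_eq_zero.1 h1 with h2 | h2
  · exact hN (by exact_mod_cast h2)
  · exact hφ2 h2

end Pool.Agent.R917.OM
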