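import Pool.Agent.Y102.AVDefs

set_option autoImplicit false

/-!
# Abelian varieties over the field of algebraic numbers: rational points and the group law

`Pool.Agent.Y102.AbVar` describes an abelian variety `A` of dimension `g` over `ℚ̄`, embedded in a
projective space by the theta functions `θ i`, without using its points. Here we add what is needed
for the points. Let `K` be a subfield of `ℂ`. A vector `z` of the tangent space `ℂ ^ g` gives a
`K`-rational point if the point `[θ 0 z : ... : θ N z]` of the projective space is rational over
`K` (`IsRat`). If `A` and its embedding are defined over a number field `K₀` then for each extension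
`K` of `K₀` the `K`-rational points are a subgroup. The functions `θ i` have no common zero. The
brackets `θ i * ∂ k (θ j) - θ j * ∂ k (θ i)` are sections of the square of the line bundle, defined
over `ℚ̄`, so quadratic forms in the theta functions with algebraic coefficients (the embedding is
projectively normal); `AbVar` asks for this only for `i = 0`.
-/

namespace Pool.Agent.R917.OM

open Pool.Agent.Y102

noncomputable section

/-- The point of the abelian variety which is given by the vector `z` is rational over `K`: the
theta functions have values in `K` at `z`, up to a common factor. -/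
def IsRat {g : ℕ} (A : AbVar g) (K : IntermediateField ℚ ℂ) (z : Fin g → ℂ) : Prop :=
  ∃ c : ℂ, c ≠ 0 ∧ ∀ i, c * A.θ i z ∈ K

/-- An abelian variety of dimension `g` over the field of algebraic numbers, with a projective
embedding, in terms of theta functions, together with the group law. -/
structure AbVarG (g : ℕ) extends AbVar g where
  /-- the theta functions have no common zero -/
  free : ∀ z, ∃ i, θ i z ≠ 0
  /-- the invariant differentials are defined over the field of algebraic numbers -/
  wronskian : ∀ k i j, ∃ a : Fin (N + 1) → Fin (N + 1) → ℂ, (∀ p q, IsAlgebraic ℚ (a p q)) ∧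
    ∀ z, θ i z * pd k (θ j) z - θ j z * pd k (θ i) z = ∑ p, ∑ q, a p q * (θ p z * θ q z)
  /-- the group law is defined over a number field `K₀` -/
  law : ∃ K₀ : IntermediateField ℚ ℂ, FiniteDimensional ℚ K₀ ∧ ∀ K : IntermediateField ℚ ℂ,
    K₀ ≤ K → ∀ z w, IsRat toAbVar K z → IsRat toAbVar K w → IsRat toAbVar K (z + w)

/-- The vector `z` gives an algebraic point of the affine part `θ 0 ≠ 0` of the abelian variety. -/
def IsPoint {g : ℕ} (A : AbVar g) (z : Fin g → ℂ) : Prop :=
  A.θ 0 z ≠ 0 ∧ ∀ i, IsAlgebraic ℚ (A.θ i z / A.θ 0 z)

end

end Pool.Agent.R917.OM
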