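import Pool.Agent.R917.OM.SL1
import Pool.Agent.R917.OM.Defs
import Pool.Agent.Y102.Theta3

set_option autoImplicit false
set_option linter.unusedSectionVars false

/-!
# Charts of an abelian variety
-/

open Module Filter Topology MvPolynomial

noncomputable section

namespace Pool.Agent.R917.OM

open Pool.Agent.Y102 Pool.Agent.W245.EB

/-- A vector with a nonzero coordinate is not killed by a generic vector `(1, x, x², …)`. -/
theorem exists_nat_ne {N : ℕ} (S : Finset (Fin (N + 1) → ℂ)) (hS : ∀ y ∈ S, y ≠ 0) :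
    ∃ x : ℕ, ∀ y ∈ S, ∑ j : Fin (N + 1), (x : ℂ) ^ (j : ℕ) * y j ≠ 0 := by
  classical
  let p : (Fin (N + 1) → ℂ) → Polynomial ℂ := fun y => ∑ j : Fin (N + 1), Polynomial.monomial (j : ℕ) (y j)
  have hp : ∀ y, y ≠ 0 → p y ≠ 0 := by
    intro y hy h0
    apply hy
    funext j
    have h1 := congrArg (fun q : Polynomial ℂ => q.coeff (j : ℕ)) h0
    simp only [p, Polynomial.finsetSum_coeff, Polynomial.coeff_monomial, Polynomial.coeff_zero] at h1
    rw [Finset.sum_eq_single j] at h1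
    · rwa [if_pos rfl] at h1
    · intro i _ hi
      rw [if_neg]
      intro h
      exact hi (Fin.ext h)
    · intro h
      exact absurd (Finset.mem_univ _) h
  have hP : ∏ y ∈ S, p y ≠ 0 := Finset.prod_ne_zero_iff.2 fun y hy => hp y (hS y hy)
  obtain ⟨x, hx⟩ : ∃ x : ℕ, (x : ℂ) ∉ (∏ y ∈ S, p y).roots.toFinset := by
    by_contra hcon
    push Not at hcon
    have h1 : (Set.range (Nat.cast : ℕ → ℂ)) ⊆ ((∏ y ∈ S, p y).roots.toFinset : Set ℂ) := by
      rintro _ ⟨x, rfl⟩
      exact hcon x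
    exact (Set.infinite_range_of_injective Nat.cast_injective) ((Finset.finite_toSet _).subset h1)
  refine ⟨x, fun y hy h0 => hx ?_⟩
  rw [Multiset.mem_toFinset, Polynomial.mem_roots hP, Polynomial.IsRoot.def,
    Polynomial.eval_prod]
  refine Finset.prod_eq_zero hy ?_
  simp only [p, Polynomial.eval_finsetSum, Polynomial.eval_monomial]
  rw [← h0]
  exact Finset.sum_congr rfl fun j _ => mul_comm _ _

variable {g : ℕ} (A : AbVarG g)

/-- A section of the line bundle. -/
def sec (x : ℕ) (z : Fin g → ℂ) : ℂ :=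
  ∑ j : Fin (A.N + 1), (x : ℂ) ^ (j : ℕ) * A.θ j z

/-- The rational functions given by the embedding. -/
def fn (x : ℕ) (j : Fin (A.N + 1)) (z : Fin g → ℂ) : ℂ := A.θ j z / sec A x z

variable {A}

theorem sec_an (x : ℕ) : AnalyticOnNhd ℂ (sec A x) Set.univ := by
  have h : sec A x = fun z => ∑ j : Fin (A.N + 1), (x : ℂ) ^ (j : ℕ) * A.θ j z := rfl
  rw [h]
  refine Finset.analyticOnNhd_fun_sum _ fun j _ => ?_
  exact analyticOnNhd_const.mul (A.entire j)

theorem sec_cont (x : ℕ) : Continuous (sec A x) :=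
  continuous_iff_continuousAt.2 fun z => (sec_an x z trivial).continuousAt

theorem sec_gr (x : ℕ) : Gr (sec A x) := by
  have key : ∀ S : Finset (Fin (A.N + 1)),
      GrE (fun z : Fin g → ℂ => ∑ j ∈ S, (x : ℂ) ^ (j : ℕ) * A.θ j z) := by
    intro S
    induction S using Finset.induction_on with
    | empty =>
      refine ⟨0, le_refl _, fun z => ?_⟩
      simp
    | insert a S ha ih =>
      simp only [Finset.sum_insert ha]
      exact GrE.add (grE_const_mul (A.gr_theta a) _) ih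
  exact key Finset.univ

theorem fn_an (x : ℕ) (j : Fin (A.N + 1)) {z : Fin g → ℂ} (hz : sec A x z ≠ 0) :
    AnalyticAt ℂ (fn A x j) z :=
  (A.entire j z trivial).div (sec_an x z trivial) hz

theorem sec_lat (x : ℕ) {w : A.H1} (hw : w ∈ A.lat) (z : Fin g → ℂ) :
    ∃ e : ℂ, e ≠ 0 ∧ sec A x (z + A.per w) = e * sec A x z ∧
      ∀ j, A.θ j (z + A.per w) = e * A.θ j z := by
  obtain ⟨c, hc⟩ := A.quasi_lat hw
  refine ⟨_, Complex.exp_ne_zero (∑ k, A.eta w k * z k + c), ?_, fun j => hc j z⟩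
  unfold sec
  rw [Finset.mul_sum]
  refine Finset.sum_congr rfl fun j _ => ?_
  rw [hc]
  ring

theorem sec_ne (x : ℕ) {w : A.H1} (hw : w ∈ A.lat) {z : Fin g → ℂ} :
    sec A x (z + A.per w) ≠ 0 ↔ sec A x z ≠ 0 := by
  obtain ⟨e, he, h1, -⟩ := sec_lat x hw z
  rw [h1, mul_ne_zero_iff]
  exact ⟨fun h => h.2, fun h => ⟨he, h⟩⟩

theorem fn_lat (x : ℕ) (j : Fin (A.N + 1)) {w : A.H1} (hw : w ∈ A.lat) (z : Fin g → ℂ) :
    fn A x j (z + A.per w) = fn A x j z := by
  obtain ⟨e, he, h1, h2⟩ := sec_lat x hw z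
  unfold fn
  rw [h1, h2, mul_div_mul_left _ _ he]

theorem fn_rat {K : IntermediateField ℚ ℂ} (x : ℕ) {z : Fin g → ℂ} (h : IsRat A.toAbVar K z)
    (j : Fin (A.N + 1)) : fn A x j z ∈ K := by
  obtain ⟨c, hc, h1⟩ := h
  have h2 : c * sec A x z ∈ K := by
    unfold sec
    rw [Finset.mul_sum]
    refine sum_mem fun j _ => ?_
    have h3 : c * ((x : ℂ) ^ (j : ℕ) * A.θ j z) = (x : ℂ) ^ (j : ℕ) * (c * A.θ j z) := by ring
    rw [h3]
    exact mul_mem (pow_mem (natCast_mem K x) _) (h1 j)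
  have h3 := div_mem (h1 j) h2
  rwa [mul_div_mul_left _ _ hc] at h3

/-- Finitely many algebraic numbers are in a number field. -/
theorem exists_field {ι : Type} [Finite ι] (f : ι → ℂ) (h : ∀ i, IsAlgebraic ℚ (f i)) :
    ∃ K : IntermediateField ℚ ℂ, FiniteDimensional ℚ K ∧ ∀ i, f i ∈ K := by
  have hfin : Finite (Set.range f) := Set.finite_range f
  refine ⟨IntermediateField.adjoin ℚ (Set.range f), ?_, fun i =>
    IntermediateField.subset_adjoin ℚ _ ⟨i, rfl⟩⟩
  refine IntermediateField.finiteDimensional_adjoin fun x hx => ?_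
  obtain ⟨i, rfl⟩ := hx
  exact (h i).isIntegral

theorem IsRat.mono {A : AbVar g} {K K' : IntermediateField ℚ ℂ} (hK : K ≤ K') {z : Fin g → ℂ}
    (h : IsRat A K z) : IsRat A K' z := by
  obtain ⟨c, hc, h1⟩ := h
  exact ⟨c, hc, fun i => hK (h1 i)⟩

/-- The matrices of the derivatives. -/
theorem exists_wr : ∃ K : IntermediateField ℚ ℂ, FiniteDimensional ℚ K ∧
    ∀ (x : ℕ) (k : Fin g) (j : Fin (A.N + 1)),
    ∃ a : Fin (A.N + 1) → Fin (A.N + 1) → ℂ, (∀ p q, a p q ∈ K) ∧
      ∀ z, sec A x z ≠ 0 → fderiv ℂ (fn A x j) z (Pi.single k 1) =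
        ∑ p, ∑ q, a p q * (fn A x p z * fn A x q z) := by
  classical
  choose a ha h using fun k i j => A.wronskian k i j
  obtain ⟨K, hK, hKa⟩ := exists_field (fun c : Fin g × Fin (A.N + 1) × Fin (A.N + 1) ×
    Fin (A.N + 1) × Fin (A.N + 1) => a c.1 c.2.1 c.2.2.1 c.2.2.2.1 c.2.2.2.2)
    (fun c => ha _ _ _ _ _)
  refine ⟨K, hK, fun x k j => ?_⟩
  refine ⟨fun p q => ∑ i : Fin (A.N + 1), (x : ℂ) ^ (i : ℕ) * a k i j p q, fun p q => ?_,
    fun z hz => ?_⟩
  · refine sum_mem fun i _ => ?_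
    exact mul_mem (pow_mem (natCast_mem K x) _) (hKa (k, i, j, p, q))
  · have h0 : fn A x j = fun z => A.θ j z / sec A x z := rfl
    rw [h0, fderiv_quot (A.entire j z trivial).differentiableAt
      (sec_an x z trivial).differentiableAt hz]
    have h1 : fderiv ℂ (sec A x) z (Pi.single k 1) =
        ∑ i : Fin (A.N + 1), (x : ℂ) ^ (i : ℕ) * pd k (A.θ i) z := by
      have h2 : HasFDerivAt (sec A x) (∑ i : Fin (A.N + 1), (x : ℂ) ^ (i : ℕ) •
          fderiv ℂ (A.θ i) z) z := by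
        have h3 : sec A x = fun z => ∑ i : Fin (A.N + 1), (x : ℂ) ^ (i : ℕ) * A.θ i z := rfl
        rw [h3]
        refine HasFDerivAt.fun_sum fun i _ => ?_
        exact (A.entire i z trivial).differentiableAt.hasFDerivAt.const_mul _
      rw [h2.fderiv, sum_apply]
      rfl
    have h2 : sec A x z * fderiv ℂ (A.θ j) z (Pi.single k 1) -
        A.θ j z * fderiv ℂ (sec A x) z (Pi.single k 1) =
        ∑ i : Fin (A.N + 1), (x : ℂ) ^ (i : ℕ) * ∑ p, ∑ q, a k i j p q *
          (A.θ p z * A.θ q z) := by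
      rw [h1]
      unfold sec
      rw [Finset.sum_mul, Finset.mul_sum, ← Finset.sum_sub_distrib]
      refine Finset.sum_congr rfl fun i _ => ?_
      rw [← h k i j z]
      unfold pd
      ring
    rw [h2]
    simp only [Finset.mul_sum, Finset.sum_mul]
    rw [Finset.sum_comm, Finset.sum_div]
    refine Finset.sum_congr rfl fun p _ => ?_
    rw [Finset.sum_comm, Finset.sum_div]
    refine Finset.sum_congr rfl fun q _ => ?_
    rw [Finset.sum_div]
    refine Finset.sum_congr rfl fun i _ => ?_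
    unfold fn
    field_simp

/-- The functions separate tangent vectors at the origin. -/
theorem fn_imm (x : ℕ) (h0 : sec A x 0 ≠ 0) (v : Fin g → ℂ)
    (hv : ∀ j, fderiv ℂ (fn A x j) 0 v = 0) : v = 0 := by
  apply A.immersion v
  have h1 : ∀ j, sec A x 0 * fderiv ℂ (A.θ j) 0 v = A.θ j 0 * fderiv ℂ (sec A x) 0 v := by
    intro j
    have h2 := hv j
    have h3 : fn A x j = fun z => A.θ j z / sec A x z := rfl
    rw [h3, fderiv_quot (A.entire j 0 trivial).differentiableAt
      (sec_an x 0 trivial).differentiableAt h0, div_eq_zero_iff] at h2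
    rcases h2 with h2 | h2
    · exact sub_eq_zero.1 h2
    · exact absurd h2 (pow_ne_zero 2 h0)
  intro i
  have h2 := h1 0
  have h3 := h1 i
  have h4 : sec A x 0 * (A.θ 0 0 * fderiv ℂ (A.θ i) 0 v) =
      sec A x 0 * (A.θ i 0 * fderiv ℂ (A.θ 0) 0 v) := by
    linear_combination A.θ 0 0 * h3 - A.θ i 0 * h2
  exact mul_left_cancel₀ h0 h4

end Pool.Agent.R917.OM
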