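import Pool.Agent.R917.OM.Spin

set_option autoImplicit false
set_option linter.unusedSectionVars false
set_option linter.unusedSimpArgs false

/-!
# The eigenvectors of the Hodge structure of a 1-motive
-/

open Module Function TensorProduct Matrix

noncomputable section

namespace Pool.Agent.R917.OM

open Pool.Agent.Y102 Pool.Agent.W516.DR Pool.Agent.H204R3.GP Pool.Agent.W516.KC
  Pool.Agent.H204R3.SP Pool.Agent.TH119.MX

variable {g : ℕ} (A : AbVar g) {n s : ℕ} (d : Dt g n s)

/-- The integral of an invariant differential of the first kind along a complex homology class. -/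
def i1 (v : RI g n s → ℂ) (k : Fin g) : ℂ := ∑ r, v r * pmat A d r (Sum.inl (Sum.inl k))

/-- The integral of an invariant differential of the third kind along a complex homology class. -/
def i3 (v : RI g n s → ℂ) (l : Fin s) : ℂ := ∑ r, v r * pmat A d r (Sum.inr (Sum.inl l))

theorem i1_eq (v : RI g n s → ℂ) (k : Fin g) : i1 A d v k =
    ∑ j, v (Sum.inl j) * A.lam j k + ∑ i, v (Sum.inr (Sum.inr i)) * pt d (Sum.inl i) k := by
  unfold i1
  rw [Fintype.sum_sum_type, Fintype.sum_sum_type]
  congr 1
  · refine Finset.sum_congr rfl fun j _ => ?_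
    change v (Sum.inl j) * A.per (eb A j) k = _
    rw [per_ebA]
  · simp only [pmat, Matrix.of_apply, Sum.elim_inl, Sum.elim_inr, mul_zero,
      Finset.sum_const_zero, zero_add]
    rfl

theorem i3_eq (v : RI g n s → ℂ) (l : Fin s) : i3 A d v l =
    ∑ j, v (Sum.inl j) * thd d A l (eb A j) + (v (Sum.inr (Sum.inl l)) * tau +
      ∑ i, v (Sum.inr (Sum.inr i)) * d.ℓ i l) := by
  unfold i3
  rw [Fintype.sum_sum_type, Fintype.sum_sum_type]
  simp only [pmat, Matrix.of_apply, Sum.elim_inl, Sum.elim_inr, mul_ite, mul_zero,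
    Finset.sum_ite_eq', Finset.mem_univ, if_true]

/-- Complex vectors whose periods and conjugate periods vanish. -/
theorem cinj {a : Fin (2 * g) → ℂ} (h1 : ∀ k, ∑ j, a j * A.lam j k = 0)
    (h2 : ∀ k, ∑ j, (starRingEnd ℂ) (a j) * A.lam j k = 0) : a = 0 := by
  have h3 : ∑ j, (a j).re • A.lam j = 0 := by
    funext k
    rw [Finset.sum_apply]
    have h4 : ∑ j, (a j + (starRingEnd ℂ) (a j)) * A.lam j k = 0 := by
      simp only [add_mul, Finset.sum_add_distrib, h1, h2, add_zero]
    have h5 : ∀ j, ((a j).re • A.lam j) k = 2⁻¹ * ((a j + (starRingEnd ℂ) (a j)) * A.lam j k) := by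
      intro j
      rw [Pi.smul_apply, Complex.real_smul, Complex.add_conj]
      push_cast
      ring
    simp only [h5]
    rw [← Finset.mul_sum, h4, mul_zero]
    rfl
  have h4 : ∑ j, (a j).im • A.lam j = 0 := by
    funext k
    rw [Finset.sum_apply]
    have h4 : ∑ j, (a j - (starRingEnd ℂ) (a j)) * A.lam j k = 0 := by
      simp only [sub_mul, Finset.sum_sub_distrib, h1, h2, sub_zero]
    have h5 : ∀ j, ((a j).im • A.lam j) k =
        (2 * Complex.I)⁻¹ * ((a j - (starRingEnd ℂ) (a j)) * A.lam j k) := by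
      intro j
      rw [Pi.smul_apply, Complex.real_smul, Complex.sub_conj]
      push_cast
      field_simp
    simp only [h5]
    rw [← Finset.mul_sum, h4, mul_zero]
    rfl
  have h5 := Fintype.linearIndependent_iff.1 A.lam.linearIndependent _ h3
  have h6 := Fintype.linearIndependent_iff.1 A.lam.linearIndependent _ h4
  funext j
  apply Complex.ext
  · exact h5 j
  · exact h6 j

/-- The real coordinates of a vector. -/
theorem repr_sum (x : Fin g → ℂ) (k : Fin g) :
    ∑ j, ((A.lam.repr x j : ℝ) : ℂ) * A.lam j k = x k := by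
  have h1 := congrFun (A.lam.sum_repr x) k
  rw [Finset.sum_apply] at h1
  rw [← h1]
  refine Finset.sum_congr rfl fun j _ => ?_
  rw [Pi.smul_apply, Complex.real_smul]

/-- The complex structure on the kernel of the periods. -/
theorem J_ker {a : Fin (2 * g) → ℂ} (h1 : ∀ k, ∑ j, a j * A.lam j k = 0) (j' : Fin (2 * g)) :
    ∑ j, a j * ((A.lam.repr (Complex.I • A.lam j) j' : ℝ) : ℂ) = -(Complex.I * a j') := by
  have h2 : (fun j' => ∑ j, a j * ((A.lam.repr (Complex.I • A.lam j) j' : ℝ) : ℂ) +
      Complex.I * a j') = 0 := by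
    refine cinj A (fun k => ?_) (fun k => ?_)
    · simp only [add_mul, Finset.sum_add_distrib, Finset.sum_mul]
      rw [Finset.sum_comm]
      simp only [mul_assoc]
      simp only [← Finset.mul_sum]
      rw [h1, mul_zero, add_zero]
      simp only [repr_sum]
      have h3 : ∀ j, a j * (Complex.I • A.lam j) k = Complex.I * (a j * A.lam j k) := by
        intro j
        rw [Pi.smul_apply, smul_eq_mul]
        ring
      simp only [h3]
      rw [← Finset.mul_sum, h1, mul_zero]
    · simp only [map_add, map_sum, map_mul, Complex.conj_ofReal, Complex.conj_I, add_mul,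
        Finset.sum_add_distrib, Finset.sum_mul]
      rw [Finset.sum_comm]
      simp only [mul_assoc]
      simp only [← Finset.mul_sum]
      simp only [repr_sum]
      have h3 : ∀ j, (starRingEnd ℂ) (a j) * (Complex.I • A.lam j) k =
          Complex.I * ((starRingEnd ℂ) (a j) * A.lam j k) := by
        intro j
        rw [Pi.smul_apply, smul_eq_mul]
        ring
      simp only [h3]
      rw [← Finset.mul_sum, neg_mul, add_neg_cancel]
  have h3 := congrFun h2 j'
  rw [Pi.zero_apply] at h3
  linear_combination h3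

/-- The Riemann form on the kernel of the periods. -/
theorem E_ker {a : Fin (2 * g) → ℂ} (h1 : ∀ k, ∑ j, a j * A.lam j k = 0) (x : Fin g → ℂ) :
    ∑ j, a j * ((A.E x (A.lam j) : ℝ) : ℂ) =
      -(∑ k, x k * ∑ j, a j * A.η j k) / tau := by
  have h2 : ∀ j, ((A.E x (A.lam j) : ℝ) : ℂ) =
      (∑ k, (A.etaR x k * A.lam j k - A.η j k * x k)) / tau := by
    intro j
    rw [AbVar.E_coe, AbVar.riemannForm_eq, AbVar.etaR_lam]
  have h3 : ∑ j, a j * ((A.E x (A.lam j) : ℝ) : ℂ) =
      (∑ k, (A.etaR x k * ∑ j, a j * A.lam j k - x k * ∑ j, a j * A.η j k)) / tau := by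
    calc ∑ j, a j * ((A.E x (A.lam j) : ℝ) : ℂ)
        = (∑ j, ∑ k, a j * (A.etaR x k * A.lam j k - A.η j k * x k)) / tau := by
          rw [Finset.sum_div]
          refine Finset.sum_congr rfl fun j _ => ?_
          rw [h2, mul_div_assoc', Finset.mul_sum]
      _ = (∑ k, ∑ j, a j * (A.etaR x k * A.lam j k - A.η j k * x k)) / tau := by
          rw [Finset.sum_comm]
      _ = _ := by
          congr 1
          refine Finset.sum_congr rfl fun k _ => ?_
          rw [Finset.mul_sum, Finset.mul_sum, ← Finset.sum_sub_distrib]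
          refine Finset.sum_congr rfl fun j _ => ?_
          ring
  rw [h3]
  simp only [h1, mul_zero, zero_sub, Finset.sum_neg_distrib]

/-- The integrals of the third kind on the kernel of the periods. -/
theorem thd_ker {a : Fin (2 * g) → ℂ} (h1 : ∀ k, ∑ j, a j * A.lam j k = 0) (l : Fin s) :
    ∑ j, a j * thd d A l (eb A j) = -∑ k, pt d (Sum.inr l) k * ∑ j, a j * A.η j k := by
  have h2 : ∀ j, thd d A l (eb A j) = ∑ k, (d.P (Sum.inr l) (Sum.inr k) * A.lam j k -
      pt d (Sum.inr l) k * A.η j k) := by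
    intro j
    unfold thd
    refine Finset.sum_congr rfl fun k _ => ?_
    have e1 : A.dR (Sum.inl k) (eb A j) = A.lam j k := by
      change A.per (eb A j) k = _
      rw [per_ebA]
    have e2 : A.dR (Sum.inr k) (eb A j) = A.η j k := by
      change A.eta (Pi.single j 1) k = _
      unfold AbVar.eta
      rw [Fintype.linearCombination_apply_single, one_smul]
    rw [e1, e2]
    rfl
  have h3 : ∑ j, a j * thd d A l (eb A j) = ∑ k, (d.P (Sum.inr l) (Sum.inr k) *
      ∑ j, a j * A.lam j k - pt d (Sum.inr l) k * ∑ j, a j * A.η j k) := by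
    calc ∑ j, a j * thd d A l (eb A j)
        = ∑ j, ∑ k, a j * (d.P (Sum.inr l) (Sum.inr k) * A.lam j k -
          pt d (Sum.inr l) k * A.η j k) := by
          refine Finset.sum_congr rfl fun j _ => ?_
          rw [h2, Finset.mul_sum]
      _ = ∑ k, ∑ j, a j * (d.P (Sum.inr l) (Sum.inr k) * A.lam j k -
          pt d (Sum.inr l) k * A.η j k) := by
          rw [Finset.sum_comm]
      _ = _ := by
          refine Finset.sum_congr rfl fun k _ => ?_
          rw [Finset.mul_sum, Finset.mul_sum, ← Finset.sum_sub_distrib]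
          refine Finset.sum_congr rfl fun j _ => ?_
          ring
  rw [h3]
  simp only [h1, mul_zero, zero_sub, Finset.sum_neg_distrib]

variable {A d}

/-- The vectors of type `(0, -1)`. -/
theorem eig_m {v : RI g n s → ℂ} (h0 : ∀ i, v (Sum.inr (Sum.inr i)) = 0)
    (h1 : ∀ k, i1 A d v k = 0) (h3 : ∀ l, i3 A d v l = 0) :
    v ᵥ* XW A d = v ∧ v ᵥ* XJ A d = (-Complex.I) • v := by
  have e1 : ∀ k, ∑ j, v (Sum.inl j) * A.lam j k = 0 := by
    intro k
    have := h1 k
    rw [i1_eq] at this
    simpa only [h0, zero_mul, Finset.sum_const_zero, add_zero] using this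
  have e3 : ∀ l, ∑ j, v (Sum.inl j) * thd d A l (eb A j) = -(v (Sum.inr (Sum.inl l)) * tau) := by
    intro l
    have := h3 l
    rw [i3_eq] at this
    simp only [h0, zero_mul, Finset.sum_const_zero, add_zero] at this
    exact eq_neg_of_add_eq_zero_left this
  have e4 : ∀ l, ∑ k, pt d (Sum.inr l) k * ∑ j, v (Sum.inl j) * A.η j k =
      v (Sum.inr (Sum.inl l)) * tau := by
    intro l
    have h4 := e3 l
    rw [thd_ker A d (a := fun j => v (Sum.inl j)) e1 l] at h4
    exact neg_injective h4
  have htau : (tau : ℂ) ≠ 0 := AbVar.tau_ne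
  constructor
  · funext r'
    rw [Matrix.vecMul, dotProduct, Fintype.sum_sum_type, Fintype.sum_sum_type]
    rcases r' with c | l' | i' <;>
      simp only [XW, Matrix.of_apply, Sum.elim_inl, Sum.elim_inr, h0, zero_mul, mul_zero,
        Finset.sum_const_zero, add_zero, zero_add, mul_ite, mul_one, Finset.sum_ite_eq',
        Finset.sum_ite_eq, Finset.mem_univ, if_true]
    rw [E_ker A (a := fun j => v (Sum.inl j)) e1, e4]
    field_simp
    ring
  · funext r'
    rw [Matrix.vecMul, dotProduct, Fintype.sum_sum_type, Fintype.sum_sum_type, Pi.smul_apply,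
      smul_eq_mul]
    rcases r' with c | l' | i' <;>
      simp only [XJ, Matrix.of_apply, Sum.elim_inl, Sum.elim_inr, h0, zero_mul, mul_zero,
        Finset.sum_const_zero, add_zero, zero_add]
    · rw [J_ker A (a := fun j => v (Sum.inl j)) e1]
      ring
    · rw [E_ker A (a := fun j => v (Sum.inl j)) e1]
      have h5 : ∑ k, (Complex.I • pt d (Sum.inr l')) k * ∑ j, v (Sum.inl j) * A.η j k =
          Complex.I * (v (Sum.inr (Sum.inl l')) * tau) := by
        rw [← e4, Finset.mul_sum]
        refine Finset.sum_congr rfl fun k _ => ?_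
        rw [Pi.smul_apply, smul_eq_mul, mul_assoc]
      rw [h5]
      field_simp

/-- The vectors of type `(-1, 0)`. -/
theorem eig_p {v w : RI g n s → ℂ} (hv : ∀ r, v r = (starRingEnd ℂ) (w r))
    (h0 : ∀ i, w (Sum.inr (Sum.inr i)) = 0) (h1 : ∀ k, i1 A d w k = 0)
    (h3 : ∀ l, i3 A d w l = 0) :
    v ᵥ* XW A d = v ∧ v ᵥ* XJ A d = Complex.I • v := by
  obtain ⟨e1, e2⟩ := eig_m h0 h1 h3
  constructor
  · funext r'
    have h4 := congrArg (starRingEnd ℂ) (congrFun e1 r')
    rw [← hv] at h4
    rw [← h4, Matrix.vecMul, dotProduct, Matrix.vecMul, dotProduct, map_sum]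
    refine Finset.sum_congr rfl fun r _ => ?_
    rw [hv, map_mul]
    rcases r with j | l | i
    · congr 1
      rcases r' with c | l' | i' <;> simp [XW]
    · congr 1
      rcases r' with c | l' | i' <;> simp [XW]
      split_ifs
      · exact (Complex.conj_ofReal 2).symm
      · rw [map_zero]
    · rw [h0, map_zero, zero_mul, zero_mul]
  · funext r'
    have h4 := congrArg (starRingEnd ℂ) (congrFun e2 r')
    rw [Pi.smul_apply, smul_eq_mul, map_mul, map_neg, Complex.conj_I, neg_neg, ← hv] at h4
    rw [Pi.smul_apply, smul_eq_mul, ← h4, Matrix.vecMul, dotProduct, Matrix.vecMul, dotProduct,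
      map_sum]
    refine Finset.sum_congr rfl fun r _ => ?_
    rw [hv, map_mul]
    rcases r with j | l | i
    · congr 1
      rcases r' with c | l' | i' <;> simp [XJ]
    · congr 1
      rcases r' with c | l' | i' <;> simp [XJ]
    · rw [h0, map_zero, zero_mul, zero_mul]

/-- The vectors of type `(-1, -1)`. -/
theorem eig_t {v : RI g n s → ℂ} (h0 : ∀ j, v (Sum.inl j) = 0)
    (h1 : ∀ i, v (Sum.inr (Sum.inr i)) = 0) :
    v ᵥ* XW A d = (2 : ℂ) • v ∧ v ᵥ* XJ A d = (0 : ℂ) • v := by
  constructor
  · funext r'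
    rw [Matrix.vecMul, dotProduct, Fintype.sum_sum_type, Fintype.sum_sum_type, Pi.smul_apply,
      smul_eq_mul]
    rcases r' with c | l' | i' <;>
      simp only [XW, Matrix.of_apply, Sum.elim_inl, Sum.elim_inr, h0, h1, zero_mul, mul_zero,
        Finset.sum_const_zero, add_zero, zero_add, mul_ite, mul_one, Finset.sum_ite_eq',
        Finset.sum_ite_eq, Finset.mem_univ, if_true]
    ring
  · funext r'
    rw [Matrix.vecMul, dotProduct, Fintype.sum_sum_type, Fintype.sum_sum_type, Pi.smul_apply,
      zero_smul]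
    rcases r' with c | l' | i' <;>
      simp only [XJ, Matrix.of_apply, Sum.elim_inl, Sum.elim_inr, h0, h1, zero_mul, mul_zero,
        Finset.sum_const_zero, add_zero, zero_add]

/-- The Riemann form in terms of the basis. -/
theorem E_sum (x u : Fin g → ℂ) : ((A.E x u : ℝ) : ℂ) =
    ∑ j, ((A.lam.repr u j : ℝ) : ℂ) * ((A.E x (A.lam j) : ℝ) : ℂ) := by
  conv_lhs => rw [← A.lam.sum_repr u]
  rw [map_sum]
  push_cast
  refine Finset.sum_congr rfl fun j _ => ?_
  rw [map_smul, smul_eq_mul]
  push_cast
  rfl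

theorem J_sum (u : Fin g → ℂ) (j' : Fin (2 * g)) :
    ((A.lam.repr (Complex.I • u) j' : ℝ) : ℂ) = ∑ j, ((A.lam.repr u j : ℝ) : ℂ) *
      ((A.lam.repr (Complex.I • A.lam j) j' : ℝ) : ℂ) := by
  conv_lhs => rw [← A.lam.sum_repr u]
  rw [Finset.smul_sum, map_sum, Finsupp.finsetSum_apply]
  push_cast
  refine Finset.sum_congr rfl fun j _ => ?_
  rw [smul_comm, map_smul, Finsupp.smul_apply, smul_eq_mul]
  push_cast
  rfl

/-- The vectors of type `(0, 0)`. -/
theorem eig_0 {v f : RI g n s → ℂ} (hl : ∀ j, v (Sum.inl j) = (starRingEnd ℂ) (f (Sum.inl j)))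
    (he : ∀ i, v (Sum.inr (Sum.inr i)) = (starRingEnd ℂ) (f (Sum.inr (Sum.inr i))))
    (h1 : ∀ k, i1 A d v k = 0) (h3 : ∀ l, i3 A d v l = 0) (hf : ∀ k, i1 A d f k = 0) :
    v ᵥ* XW A d = (0 : ℂ) • v ∧ v ᵥ* XJ A d = (0 : ℂ) • v := by
  have htau : (tau : ℂ) ≠ 0 := AbVar.tau_ne
  have key : ∀ j, v (Sum.inl j) = -∑ i, v (Sum.inr (Sum.inr i)) *
      ((A.lam.repr (pt d (Sum.inl i)) j : ℝ) : ℂ) := by
    have h4 : (fun j => v (Sum.inl j) + ∑ i, v (Sum.inr (Sum.inr i)) *
        ((A.lam.repr (pt d (Sum.inl i)) j : ℝ) : ℂ)) = 0 := by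
      refine cinj A (fun k => ?_) (fun k => ?_)
      · have h5 := h1 k
        rw [i1_eq] at h5
        rw [← h5]
        simp only [add_mul, Finset.sum_add_distrib, Finset.sum_mul]
        congr 1
        rw [Finset.sum_comm]
        refine Finset.sum_congr rfl fun i _ => ?_
        simp only [mul_assoc]
        rw [← Finset.mul_sum, repr_sum]
      · have h5 := hf k
        rw [i1_eq] at h5
        rw [← h5]
        simp only [map_add, map_sum, map_mul, Complex.conj_ofReal, add_mul,
          Finset.sum_add_distrib, Finset.sum_mul, hl, he, Complex.conj_conj]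
        congr 1
        rw [Finset.sum_comm]
        refine Finset.sum_congr rfl fun i _ => ?_
        simp only [mul_assoc]
        rw [← Finset.mul_sum, repr_sum]
    intro j
    have h5 := congrFun h4 j
    rw [Pi.zero_apply] at h5
    exact eq_neg_of_add_eq_zero_left h5
  have hsum : ∀ X : Fin (2 * g) → ℂ, ∑ j, v (Sum.inl j) * X j = -∑ i, v (Sum.inr (Sum.inr i)) *
      ∑ j, ((A.lam.repr (pt d (Sum.inl i)) j : ℝ) : ℂ) * X j := by
    intro X
    simp only [key, neg_mul, Finset.sum_neg_distrib, Finset.sum_mul, Finset.mul_sum]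
    rw [Finset.sum_comm]
    simp only [mul_assoc]
  have e3 : ∀ l, v (Sum.inr (Sum.inl l)) = -∑ i, v (Sum.inr (Sum.inr i)) * kap A d i l := by
    intro l
    have h5 := h3 l
    rw [i3_eq, hsum] at h5
    have h6 : ∑ i, v (Sum.inr (Sum.inr i)) * kap A d i l =
        (∑ i, v (Sum.inr (Sum.inr i)) * d.ℓ i l - ∑ i, v (Sum.inr (Sum.inr i)) *
        ∑ j, ((A.lam.repr (pt d (Sum.inl i)) j : ℝ) : ℂ) * thd d A l (eb A j)) / tau := by
      rw [← Finset.sum_sub_distrib, Finset.sum_div]
      refine Finset.sum_congr rfl fun i _ => ?_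
      unfold kap
      ring
    rw [h6]
    field_simp
    linear_combination h5
  constructor
  · funext r'
    rw [Matrix.vecMul, dotProduct, Fintype.sum_sum_type, Fintype.sum_sum_type, zero_smul,
      Pi.zero_apply]
    rcases r' with c | l' | i' <;>
      simp only [XW, Matrix.of_apply, Sum.elim_inl, Sum.elim_inr, zero_mul, mul_zero,
        Finset.sum_const_zero, add_zero, zero_add, mul_ite, mul_one, Finset.sum_ite_eq',
        Finset.sum_ite_eq, Finset.mem_univ, if_true]
    · rw [key, neg_add_cancel]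
    · rw [hsum, e3]
      simp only [← E_sum, mul_add, Finset.sum_add_distrib]
      have h7 : ∑ i, v (Sum.inr (Sum.inr i)) * (2 * kap A d i l') =
          2 * ∑ i, v (Sum.inr (Sum.inr i)) * kap A d i l' := by
        rw [Finset.mul_sum]
        exact Finset.sum_congr rfl fun i _ => by ring
      rw [h7]
      ring
  · funext r'
    rw [Matrix.vecMul, dotProduct, Fintype.sum_sum_type, Fintype.sum_sum_type, zero_smul,
      Pi.zero_apply]
    rcases r' with c | l' | i' <;>
      simp only [XJ, Matrix.of_apply, Sum.elim_inl, Sum.elim_inr, zero_mul, mul_zero,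
        Finset.sum_const_zero, add_zero, zero_add]
    · rw [hsum]
      simp only [← J_sum]
      rw [neg_add_cancel]
    · rw [hsum]
      simp only [← E_sum]
      rw [neg_add_cancel]

end Pool.Agent.R917.OM
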