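import Pool.Agent.R917.OM.TorRel

set_option autoImplicit false
set_option linter.unusedSectionVars false
set_option linter.unusedSimpArgs false

/-!
# Algebraic groups which contain the periods of a 1-motive
-/

open Module Function TensorProduct Matrix

noncomputable section

namespace Pool.Agent.R917.OM

open Pool.Agent.Y102 Pool.Agent.W516.DR Pool.Agent.H204R3.GP Pool.Agent.W516.KC
  Pool.Agent.H204R3.SP Pool.Agent.TH119.MX

variable {g n s : ℕ}

/-- the indices -/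
def ce (g n s : ℕ) : CI g n s ≃ RI g n s := Equiv.sumCongr (eqv g) (Equiv.refl _)

/-- The square period matrix. -/
def pq (A : AbVar g) (d : Dt g n s) : Matrix (RI g n s) (RI g n s) ℂ :=
  (pmat A d).submatrix id (ce g n s).symm

/-- The group contains a point of the torsor of periods. -/
structure PtM (A : AbVar g) (d : Dt g n s) (H : Set (Matrix (RI g n s) (RI g n s) ℂ)) : Prop where
  grp : AlgGrp QQ H
  pt : ∃ P' T T' : Matrix (RI g n s) (RI g n s) ℂ, pq A d * P' = 1 ∧ P' * pq A d = 1 ∧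
    T * T' = 1 ∧ (∀ i j, T' i j ∈ QA) ∧ pq A d * T ∈ H

/-- The inverse of a matrix of algebraic numbers. -/
theorem alg_inv' {R : Type} [Fintype R] [DecidableEq R] {T : Matrix R R ℂ}
    (hT : ∀ i j, IsAlgebraic ℚ (T i j))
    (hdet : T.det ≠ 0) : ∃ T' : Matrix R R ℂ, T * T' = 1 ∧ ∀ i j, T' i j ∈ QA := by
  let K : IntermediateField ℚ ℂ := algebraicClosure ℚ ℂ
  let S : Matrix R R K := Matrix.of fun i j => ⟨T i j, mem_algebraicClosure_iff.2 (hT i j)⟩
  have hS : S.map (algebraMap K ℂ) = T := by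
    ext i j
    rfl
  have hdS : S.det ≠ 0 := by
    intro h0
    apply hdet
    rw [← hS, ← RingHom.mapMatrix_apply, ← RingHom.map_det, h0, map_zero]
  refine ⟨(S⁻¹).map (algebraMap K ℂ), ?_, fun i j => ?_⟩
  · rw [← hS, ← Matrix.map_mul, Matrix.mul_nonsing_inv _ (isUnit_iff_ne_zero.2 hdS),
      Matrix.map_one _ (map_zero _) (map_one _)]
  · rw [Matrix.map_apply]
    exact (S⁻¹ i j).2

variable {A : AbVar g} {d : Dt g n s}

theorem ptM_of {G : Subgroup (GL (RI g n s) ℂ)}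
    (hG : ∃ I : Set (MvPolynomial (RI g n s × RI g n s) ℚ), ∀ x : GL (RI g n s) ℂ,
      x ∈ G ↔ ∀ p ∈ I, MvPolynomial.aeval
        (fun b : RI g n s × RI g n s => (x : Matrix _ _ ℂ) b.1 b.2) p = 0)
    {T : Matrix (CI g n s) (RI g n s) ℂ} (hT : ∀ i j, IsAlgebraic ℚ (T i j))
    {x : GL (RI g n s) ℂ} (hx : x ∈ G) (hxT : (x : Matrix _ _ ℂ) = pmat A d * T) :
    PtM A d {M : Matrix (RI g n s) (RI g n s) ℂ | ∃ x ∈ G, (x : Matrix _ _ ℂ) = M} := by
  refine ⟨algGrp_of hG, ?_⟩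
  have h1 : pq A d * T.submatrix (ce g n s).symm id = pmat A d * T := by
    unfold pq
    rw [Matrix.submatrix_mul_equiv, Matrix.submatrix_id_id]
  have h2 : (pq A d).det * (T.submatrix (ce g n s).symm id).det ≠ 0 := by
    intro h0
    have h3 : (x : Matrix (RI g n s) (RI g n s) ℂ).det = 0 := by
      rw [hxT, ← h1, Matrix.det_mul, h0]
    exact (Matrix.GeneralLinearGroup.det x).ne_zero h3
  have h4 := left_ne_zero_of_mul h2
  have h5 := right_ne_zero_of_mul h2
  obtain ⟨T', h6, h7⟩ := alg_inv' (T := T.submatrix (ce g n s).symm id) (fun i j => hT _ _) h5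
  have h8 : IsUnit (pq A d).det := isUnit_iff_ne_zero.2 h4
  exact ⟨(pq A d)⁻¹, _, T', Matrix.mul_nonsing_inv _ h8, Matrix.nonsing_inv_mul _ h8, h6, h7,
    ⟨x, hx, by rw [hxT, h1]⟩⟩

/-- The Lie algebra of tuples of a group. -/
def gg (A : AbVar g) (n s : ℕ) (H : Set (Matrix (RI g n s) (RI g n s) ℂ)) :
    Submodule ℚ (Tup A n s) where
  carrier := {L | L.1 ∈ A.NA ∧ ∀ k, Stab H k (mt L)}
  zero_mem' := ⟨A.NA.zero_mem, fun k => by
    rw [mt_zero]
    exact Stab.zero⟩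
  add_mem' := fun {L L'} hL hL' => ⟨A.NA.add_mem hL.1 hL'.1, fun k => by
    rw [mt_add]
    exact (hL.2 k).add (hL'.2 k)⟩
  smul_mem' := fun c L hL => ⟨A.NA.smul_mem c hL.1, fun k => by
    rw [mt_smul]
    exact (hL.2 k).smul _⟩

/-- Those without the dual part. -/
def gg0 (A : AbVar g) (n s : ℕ) (H : Set (Matrix (RI g n s) (RI g n s) ℂ)) :
    Submodule ℚ (Tup A n s) where
  carrier := {L | L ∈ gg A n s H ∧ ∀ l, L.2.2.1 (Sum.inr l) = 0}
  zero_mem' := ⟨(gg A n s H).zero_mem, fun _ => rfl⟩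
  add_mem' := fun {L L'} hL hL' => ⟨(gg A n s H).add_mem hL.1 hL'.1, fun l => by
    rw [Prod.snd_add, Prod.snd_add, Prod.fst_add, Pi.add_apply, hL.2, hL'.2, add_zero]⟩
  smul_mem' := fun c L hL => ⟨(gg A n s H).smul_mem c hL.1, fun l => by
    rw [Prod.smul_snd, Prod.smul_snd, Prod.smul_fst, Pi.smul_apply, hL.2, smul_zero]⟩

variable {H : Set (Matrix (RI g n s) (RI g n s) ℂ)}

theorem stab_YD (h : PtM A d H) (D : Derivation QBar ℂ ℂ) (k : ℕ) : Stab H k (YD A d D) := by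
  obtain ⟨P', T, T', h1, h2, h3, h4, h5⟩ := h.pt
  have h6 : YD A d D = (pq A d).map (derQ D) * P' := by
    have h7 : YD A d D * pq A d = (pq A d).map (derQ D) := by
      have h9 : (YD A d D * pmat A d).submatrix id (ce g n s).symm = YD A d D * pq A d := by
        ext i j
        rfl
      rw [← h9, YD_mul]
      ext i j
      rfl
    rw [← h7, Matrix.mul_assoc, h1, Matrix.mul_one]
  rw [h6]
  exact h.grp.stab_der QQ_le_QA (fun x hx => mem_QA.1 hx) h1 h2 h3 h4 h5 (derQ D)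

theorem LD_mem (h : PtM A d H) (D : Derivation QBar ℂ ℂ) (lam : ℂ →ₗ[ℚ] ℚ) :
    LD A d D lam ∈ gg A n s H := by
  refine ⟨A.LA_le_NA ?_, fun k => ?_⟩
  · rw [AbVar.LA_eq]
    exact X0_mem A.basis AbVar.tau_ne D lam
  · rw [mt_LD]
    exact h.grp.stab_map (lamF lam) (stab_YD h D k)

theorem gg_br {L L' : Tup A n s} (hL : L ∈ gg A n s H) (hL' : L' ∈ gg A n s H) :
    br L L' ∈ gg A n s H := by
  refine ⟨A.NA_bracket hL.1 hL'.1, fun k => ?_⟩
  rw [mt_br (A.NA_skew hL.1) (A.NA_skew hL'.1)]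
  exact (hL'.2 k).comm (hL.2 k)

theorem gg_Lg (h : PtM A d H) : Lg (gg A n s H) d where
  na := fun L hL => hL.1
  br := fun L hL L' hL' => gg_br hL hL'
  per := fun D lam => LD_mem h D lam

theorem gg0_Lg (h : PtM A d H) (hP : ∀ l c, d.P (Sum.inr l) c = 0) : Lg (gg0 A n s H) d where
  na := fun L hL => hL.1.1
  br := fun L hL L' hL' => ⟨gg_br hL.1 hL'.1, fun l => by
    change op L (L'.2.2.1 (Sum.inr l)) - op L' (L.2.2.1 (Sum.inr l)) = 0
    rw [hL.2, hL'.2, map_zero, map_zero, sub_zero]⟩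
  per := fun D lam => ⟨LD_mem h D lam, fun l => by
    change Pool.Agent.W516.DR.cmp lam (lft A fun c => D (d.P (Sum.inr l) c)) = 0
    have h1 : (fun c => D (d.P (Sum.inr l) c)) = 0 := by
      funext c
      rw [hP, map_zero]
      rfl
    rw [h1]
    unfold lft
    simp⟩

/-- The square of a unipotent tuple. -/
theorem mt_sq (z : (Fin n ⊕ Fin s) → A.H1) (t : Fin n → Fin s → ℚ) :
    mt ((0, 0, z, t) : Tup A n s) * mt ((0, 0, z, t) : Tup A n s) =
      mt ((0, 0, 0, fun i l => A.om (z (Sum.inr l)) (z (Sum.inl i))) : Tup A n s) := by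
  unfold mt
  rw [← Matrix.map_mul, mtQ_mul]
  congr 1
  ext r r'
  rcases r with j | l | i <;> rcases r' with j' | l' | i' <;>
    simp [mtQ, op]

theorem mt_mul_zero (z : (Fin n ⊕ Fin s) → A.H1) (t t' : Fin n → Fin s → ℚ) :
    mt ((0, 0, 0, t') : Tup A n s) * mt ((0, 0, z, t) : Tup A n s) = 0 := by
  unfold mt
  rw [← Matrix.map_mul, mtQ_mul]
  ext r r'
  rcases r with j | l | i <;> rcases r' with j' | l' | i' <;>
    simp [op]

/-- The exponential of a unipotent tuple. -/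
theorem exp_unip (z : (Fin n ⊕ Fin s) → A.H1) (t : Fin n → Fin s → ℚ) :
    NormedSpace.exp (mt ((0, 0, z, t) : Tup A n s)) = 1 + mt ((0, 0, z, t) : Tup A n s) +
      (2 : ℂ)⁻¹ • mt ((0, 0, 0, fun i l => A.om (z (Sum.inr l)) (z (Sum.inl i))) : Tup A n s) := by
  have h3 : ∀ k : ℕ, 3 ≤ k → mt ((0, 0, z, t) : Tup A n s) ^ k = 0 := by
    intro k hk
    obtain ⟨m, rfl⟩ := Nat.exists_eq_add_of_le hk
    rw [pow_add]
    have h4 : mt ((0, 0, z, t) : Tup A n s) ^ 3 = 0 := by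
      rw [pow_succ, pow_two, mt_sq, mt_mul_zero]
    rw [h4, zero_mul]
  rw [NormedSpace.exp_eq_tsum ℂ]
  change ∑' k : ℕ, ((k.factorial : ℂ)⁻¹ • mt ((0, 0, z, t) : Tup A n s) ^ k) = _
  rw [tsum_eq_sum (s := Finset.range 3)]
  · rw [Finset.sum_range_succ, Finset.sum_range_succ, Finset.sum_range_succ,
      Finset.sum_range_zero, pow_zero, pow_one, pow_two, mt_sq]
    simp
  · intro k hk
    rw [h3 k (by simpa using hk), smul_zero]

end Pool.Agent.R917.OM
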