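import Pool.Agent.R917.OM.Spl

set_option autoImplicit false
set_option linter.unusedSectionVars false
set_option linter.unusedSimpArgs false

/-!
# The Hodge structure of a 1-motive and its rational components
-/

open Module Function TensorProduct Matrix

noncomputable section

namespace Pool.Agent.R917.OM

open Pool.Agent.Y102 Pool.Agent.W516.DR Pool.Agent.H204R3.GP Pool.Agent.W516.KC
  Pool.Agent.H204R3.SP Pool.Agent.TH119.MX

/-- A finite family of complex numbers, in terms of a basis over the rational numbers. -/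
theorem exists_coordsC {ι : Type} [Fintype ι] (r : ι → ℂ) :
    ∃ (s : Finset (Basis.ofVectorSpaceIndex ℚ ℂ)), ∀ i, r i =
      ∑ k ∈ s, (((Basis.ofVectorSpace ℚ ℂ).coord k (r i) : ℚ) : ℂ) * Basis.ofVectorSpace ℚ ℂ k := by
  classical
  refine ⟨Finset.univ.biUnion fun i => ((Basis.ofVectorSpace ℚ ℂ).repr (r i)).support, fun i => ?_⟩
  have h1 := (Basis.ofVectorSpace ℚ ℂ).linearCombination_repr (r i)
  rw [Finsupp.linearCombination_apply, Finsupp.sum_of_support_subset (s :=
    Finset.univ.biUnion fun i => ((Basis.ofVectorSpace ℚ ℂ).repr (r i)).support) _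
    (fun k hk => Finset.mem_biUnion.2 ⟨i, Finset.mem_univ _, hk⟩) (fun k a => a • _)
    (fun k _ => zero_smul ℚ _)] at h1
  conv_lhs => rw [← h1]
  refine Finset.sum_congr rfl fun k _ => ?_
  rw [Basis.coord_apply, Rat.smul_def]

theorem stab_sum' {B : Type} [Fintype B] [DecidableEq B] {H : Set (Matrix B B ℂ)} {ι : Type}
    (s : Finset ι) {d : ℕ} (Y : ι → Matrix B B ℂ)
    (h : ∀ k ∈ s, Stab H d (Y k)) : Stab H d (∑ k ∈ s, Y k) := by
  classical
  induction s using Finset.induction_on with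
  | empty =>
    rw [Finset.sum_empty]
    exact Stab.zero
  | insert a s ha ih =>
    rw [Finset.sum_insert ha]
    exact (h a (Finset.mem_insert_self _ _)).add
      (ih fun k hk => h k (Finset.mem_insert_of_mem hk))

/-- A matrix is in the Lie algebra if its rational components are. -/
theorem stab_of_comp {B : Type} [Fintype B] [DecidableEq B] {H : Set (Matrix B B ℂ)} {k : ℕ}
    {X : Matrix B B ℂ} (h : ∀ lam : ℂ →ₗ[ℚ] ℚ, Stab H k (X.map (lamF lam))) : Stab H k X := by
  obtain ⟨s, hs⟩ := exists_coordsC (fun p : B × B => X p.1 p.2)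
  have h1 : X = ∑ b ∈ s, (Basis.ofVectorSpace ℚ ℂ b) •
      X.map (lamF ((Basis.ofVectorSpace ℚ ℂ).coord b)) := by
    ext i j
    rw [Matrix.sum_apply]
    have h2 := hs (i, j)
    simp only at h2
    rw [h2]
    refine Finset.sum_congr rfl fun b _ => ?_
    rw [Matrix.smul_apply, Matrix.map_apply, smul_eq_mul, mul_comm, lamF_apply]
  rw [h1]
  exact stab_sum' s _ fun b _ => (h _).smul _

variable {g : ℕ} {A : AbVar g} {n s : ℕ} {𝔤 : Submodule ℚ (Tup A n s)} {d : Dt g n s}

/-- A functional on the complex numbers, restricted to the real numbers. -/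
def fr (lam : ℂ →ₗ[ℚ] ℚ) : ℝ →ₗ[ℚ] ℚ where
  toFun r := lam (r : ℂ)
  map_add' x y := by rw [Complex.ofReal_add, map_add]
  map_smul' c x := by
    have h1 : ((c • x : ℝ) : ℂ) = c • (x : ℂ) := by
      rw [Rat.smul_def, Rat.smul_def, Complex.ofReal_mul, Complex.ofReal_ratCast]
    rw [h1, map_smul, RingHom.id_apply]

theorem fr_apply (lam : ℂ →ₗ[ℚ] ℚ) (r : ℝ) : fr lam r = lam (r : ℂ) := rfl

variable (A d)

/-- The classes of the torus part. -/
def kap (i : Fin n) (l : Fin s) : ℂ := (d.ℓ i l -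
  ∑ j, ((A.lam.repr (pt d (Sum.inl i)) j : ℝ) : ℂ) * thd d A l (eb A j)) / tau

/-- The complex structure. -/
def XJ : Matrix (RI g n s) (RI g n s) ℂ := Matrix.of fun r r' =>
  Sum.elim (fun j => Sum.elim (fun j' => ((A.lam.repr (Complex.I • A.lam j) j' : ℝ) : ℂ))
      (Sum.elim (fun l => ((A.E (Complex.I • pt d (Sum.inr l)) (A.lam j) : ℝ) : ℂ))
        (fun _ => 0)) r')
    (Sum.elim (fun _ => 0)
      (fun i => Sum.elim (fun j' => ((A.lam.repr (Complex.I • pt d (Sum.inl i)) j' : ℝ) : ℂ))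
        (Sum.elim (fun l => ((A.E (Complex.I • pt d (Sum.inr l)) (pt d (Sum.inl i)) : ℝ) : ℂ))
          (fun _ => 0)) r')) r

/-- The weight. -/
def XW : Matrix (RI g n s) (RI g n s) ℂ := Matrix.of fun r r' =>
  Sum.elim (fun j => Sum.elim (fun j' => if j = j' then 1 else 0)
      (Sum.elim (fun l => ((A.E (pt d (Sum.inr l)) (A.lam j) : ℝ) : ℂ)) (fun _ => 0)) r')
    (Sum.elim (fun l => Sum.elim (fun _ => 0) (Sum.elim (fun l' => if l = l' then 2 else 0)
        (fun _ => 0)) r')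
      (fun i => Sum.elim (fun j' => ((A.lam.repr (pt d (Sum.inl i)) j' : ℝ) : ℂ))
        (Sum.elim (fun l => ((A.E (pt d (Sum.inr l)) (pt d (Sum.inl i)) : ℝ) : ℂ) +
          2 * kap A d i l) (fun _ => 0)) r')) r

/-- The rational components of the complex structure. -/
def tJ (lam : ℂ →ₗ[ℚ] ℚ) : Tup A n s :=
  (A.cmpE (fr lam) AbVar.JJ, 0, fun p => A.cmp (fr lam) (Complex.I • pt d p),
    fun i l => fr lam (A.E (Complex.I • pt d (Sum.inr l)) (pt d (Sum.inl i))))

/-- The rational components of the weight. -/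
def tW (lam : ℂ →ₗ[ℚ] ℚ) : Tup A n s :=
  (0, fr lam 1, fun p => A.cmp (fr lam) (pt d p),
    fun i l => fr lam (A.E (pt d (Sum.inr l)) (pt d (Sum.inl i))) + 2 * lam (kap A d i l))

theorem per_ebA (j : Fin (2 * g)) : A.per (eb A j) = A.lam j := by
  have h4 := A.per_bas j
  unfold AbVar.bas at h4
  rwa [Pi.basisFun_apply] at h4

theorem mt_tJ (lam : ℂ →ₗ[ℚ] ℚ) : mt (tJ A d lam) = (XJ A d).map (lamF lam) := by
  ext r r'
  rcases r with j | l | i <;> rcases r' with c | l' | i' <;>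
    simp only [mt, mtQ, XJ, Matrix.of_apply, Matrix.map_apply, Sum.elim_inl, Sum.elim_inr,
      map_zero, lamF_apply]
  · rw [op_apply]
    change ((A.cmpE (fr lam) AbVar.JJ (eb A j) c + ((0 : ℚ) • eb A j) c : ℚ) : ℂ) = _
    rw [zero_smul, Pi.zero_apply, add_zero, AbVar.cmpE_apply, AbVar.cmp_apply, per_ebA,
      fr_apply]
    rfl
  · change ((A.om (A.cmp (fr lam) (Complex.I • pt d (Sum.inr l'))) (eb A j) : ℚ) : ℂ) = _
    rw [AbVar.om_cmp, per_ebA, fr_apply]
  · change (((if l = l' then 2 * (0 : ℚ) else 0) : ℚ) : ℂ) = _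
    split_ifs <;> simp
  · rfl
  · rfl

theorem mt_tW (lam : ℂ →ₗ[ℚ] ℚ) : mt (tW A d lam) = (XW A d).map (lamF lam) := by
  ext r r'
  rcases r with j | l | i <;> rcases r' with c | l' | i' <;>
    simp only [mt, mtQ, XW, Matrix.of_apply, Matrix.map_apply, Sum.elim_inl, Sum.elim_inr,
      map_zero, lamF_apply]
  · rw [op_apply]
    change (((0 : Module.End ℚ A.H1) (eb A j) c + (fr lam 1 • eb A j) c : ℚ) : ℂ) = _
    rw [LinearMap.zero_apply, Pi.zero_apply, zero_add, Pi.smul_apply, fr_apply, smul_eq_mul]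
    unfold eb
    by_cases hjc : j = c
    · subst hjc
      rw [Pi.single_eq_same, mul_one, if_pos rfl, Complex.ofReal_one]
    · rw [Pi.single_eq_of_ne (Ne.symm hjc), mul_zero, if_neg hjc, map_zero, Rat.cast_zero]
  · change ((A.om (A.cmp (fr lam) (pt d (Sum.inr l'))) (eb A j) : ℚ) : ℂ) = _
    rw [AbVar.om_cmp, per_ebA, fr_apply]
  · change (((if l = l' then 2 * (fr lam 1) else 0) : ℚ) : ℂ) = _
    split_ifs
    · have h2 : (2 : ℂ) = (2 : ℚ) • (((1 : ℝ) : ℂ)) := by
        rw [Rat.smul_def]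
        norm_num
      rw [h2, map_smul, smul_eq_mul, fr_apply]
    · rw [map_zero, Rat.cast_zero]
  · rfl
  · change ((fr lam (A.E (pt d (Sum.inr l')) (pt d (Sum.inl i))) +
      2 * lam (kap A d i l') : ℚ) : ℂ) = _
    rw [map_add, fr_apply]
    have h2 : (2 : ℂ) * kap A d i l' = (2 : ℚ) • kap A d i l' := by
      rw [Rat.smul_def]
      norm_num
    rw [h2, map_smul, smul_eq_mul]

end Pool.Agent.R917.OM
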