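import Pool.Agent.R917.OM.Hdg

set_option autoImplicit false
set_option linter.unusedSectionVars false
set_option linter.unusedSimpArgs false

/-!
# The components of the Hodge structure are in the Lie algebra
-/

open Module Function TensorProduct Matrix

noncomputable section

namespace Pool.Agent.R917.OM

open Pool.Agent.Y102 Pool.Agent.W516.DR Pool.Agent.H204R3.GP Pool.Agent.W516.KC
  Pool.Agent.H204R3.SP Pool.Agent.TH119.MX

variable {g : ℕ} {A : AbVar g} {n s : ℕ} {𝔤 : Submodule ℚ (Tup A n s)} {d : Dt g n s}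

theorem mem_of_parts (h : Lg 𝔤 d)
    (hB : ∀ φ : (Fin n → Fin s → ℚ) →ₗ[ℚ] ℚ, (∀ t ∈ tt 𝔤, φ t = 0) → ∀ L ∈ 𝔤, ∀ L' ∈ 𝔤,
      φ (fun i l => A.om (L.2.2.1 (Sum.inr l)) (L'.2.2.1 (Sum.inl i))) = 0)
    {L L' : Tup A n s} (hL : L ∈ 𝔤) (e1 : L'.1 = L.1) (e2 : L'.2.1 = L.2.1)
    (hz : (fun p => L'.2.2.1 p - L.2.2.1 p) ∈ uu 𝔤)
    (ht : ∀ φ : (Fin n → Fin s → ℚ) →ₗ[ℚ] ℚ, (∀ t ∈ tt 𝔤, φ t = 0) → ∀ ρ : ℚ,
      (∀ L ∈ 𝔤, φ L.2.2.2 = 2 * L.2.1 * ρ) → φ L'.2.2.2 = 2 * L'.2.1 * ρ) : L' ∈ 𝔤 := by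
  obtain ⟨t', ht'⟩ := hz
  obtain ⟨L'', hL''⟩ : ∃ L'' : Tup A n s, L'' = L + (0, 0, fun p => L'.2.2.1 p - L.2.2.1 p, t') :=
    ⟨_, rfl⟩
  have h1 : L'' ∈ 𝔤 := by
    rw [hL'']
    exact 𝔤.add_mem hL ht'
  have f1 : L''.1 = L'.1 := by
    rw [hL'', Prod.fst_add, e1]
    exact add_zero _
  have f2 : L''.2.1 = L'.2.1 := by
    rw [hL'', Prod.snd_add, Prod.fst_add, e2]
    exact add_zero _
  have f3 : L''.2.2.1 = L'.2.2.1 := by
    rw [hL'', Prod.snd_add, Prod.snd_add, Prod.fst_add]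
    funext p
    rw [Pi.add_apply, add_sub_cancel]
  have h2 : L'.2.2.2 - L''.2.2.2 ∈ tt 𝔤 := by
    by_contra hcon
    obtain ⟨φ, hφ2, hφ1⟩ := Submodule.exists_le_ker_of_notMem hcon
    have h3 : ∀ t ∈ tt 𝔤, φ t = 0 := fun t ht => LinearMap.mem_ker.1 (hφ1 ht)
    obtain ⟨ρ, hρ⟩ := phi_levi h h3 (hB φ h3)
    apply hφ2
    rw [map_sub, ht φ h3 ρ hρ, hρ L'' h1, f2, sub_self]
  have h3 := 𝔤.add_mem h1 (mem_tt.1 h2)
  convert h3 using 1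
  refine Prod.ext ?_ (Prod.ext ?_ (Prod.ext ?_ ?_))
  · rw [Prod.fst_add, f1]
    exact (add_zero _).symm
  · rw [Prod.snd_add, Prod.fst_add, f2]
    exact (add_zero _).symm
  · rw [Prod.snd_add, Prod.snd_add, Prod.fst_add, f3]
    exact (add_zero _).symm
  · rw [Prod.snd_add, Prod.snd_add, Prod.snd_add, add_sub_cancel]

/-- The relations between the points and the components. -/
theorem sum_cmp {f : (Fin n ⊕ Fin s) → (Fin n ⊕ Fin s) → Module.End ℚ A.H1}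
    {F : (Fin n ⊕ Fin s) → (Fin n ⊕ Fin s) → (Fin g → ℂ) →ₗ[ℂ] (Fin g → ℂ)}
    (h1 : ∀ p q w, A.per (f p q w) = F p q (A.per w)) (p q : Fin n ⊕ Fin s)
    (r : ℝ →ₗ[ℚ] ℚ) (x : Fin g → ℂ) : f p q (A.cmp r x) = A.cmp r (F p q x) := by
  rw [← AbVar.cmp_ext]
  congr 1
  have h2 : A.ext (f p q) = (F p q).restrictScalars ℝ := by
    refine A.ext_per fun w => ?_
    rw [AbVar.ext_apply, h1]
    rfl
  rw [h2]
  rfl

variable {w : (Fin n ⊕ Fin s) → A.H1}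
  {f : (Fin n ⊕ Fin s) → (Fin n ⊕ Fin s) → Module.End ℚ A.H1}
  {F : (Fin n ⊕ Fin s) → (Fin n ⊕ Fin s) → (Fin g → ℂ) →ₗ[ℂ] (Fin g → ℂ)} {S : Set (Fin s)}

/-- The complex structure is in the Lie algebra. -/
theorem tJ_mem (h : Lg 𝔤 d) (h1 : ∀ p q w, A.per (f p q w) = F p q (A.per w))
    (h2 : ∀ z, (∀ p, ∑ q, f p q (z q) = 0) ↔ z ∈ uu 𝔤)
    (h3 : ∀ p, ∑ q, F p q (pt d q - A.per (w q)) = 0)
    (h4 : ∀ L ∈ 𝔤, (fun p => L.2.2.1 p - op L (w p)) ∈ uu 𝔤)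
    (hB : ∀ φ : (Fin n → Fin s → ℚ) →ₗ[ℚ] ℚ, (∀ t ∈ tt 𝔤, φ t = 0) → ∀ L ∈ 𝔤, ∀ L' ∈ 𝔤,
      φ (fun i l => A.om (L.2.2.1 (Sum.inr l)) (L'.2.2.1 (Sum.inl i))) = 0)
    (hS : ∀ l ∈ S, pt d (Sum.inr l) = 0)
    (hnd : ∀ φ : (Fin n → Fin s → ℚ) →ₗ[ℚ] ℚ, (∀ t ∈ tt 𝔤, φ t = 0) → ∀ i l, l ∉ S →
      φ (Pi.single i (Pi.single l 1)) = 0)
    (hNA : ∀ X ∈ A.NA, ∃ L ∈ 𝔤, L.1 = X ∧ L.2.1 = 0) (lam : ℂ →ₗ[ℚ] ℚ) : tJ A d lam ∈ 𝔤 := by
  obtain ⟨L, hL, e1, e2⟩ := hNA _ (A.MA_le_NA (A.J_mem (fr lam)))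
  refine mem_of_parts h hB hL e1.symm e2.symm ?_ fun φ hφ ρ hρ => ?_
  · have h5 := h4 L hL
    have h6 : (fun p => (tJ A d lam).2.2.1 p - op L (w p)) ∈ uu 𝔤 := by
      rw [← h2]
      intro p
      have h7 : ∀ q, (tJ A d lam).2.2.1 q - op L (w q) =
          A.cmp (fr lam) (Complex.I • (pt d q - A.per (w q))) := by
        intro q
        rw [op_apply, e1, e2, zero_smul, add_zero, AbVar.cmpE_apply, smul_sub, map_sub]
        rfl
      simp only [h7, sum_cmp h1]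
      rw [← map_sum]
      simp only [map_smul]
      rw [← Finset.smul_sum, h3, smul_zero, map_zero]
    have h7 := (uu 𝔤).sub_mem h6 h5
    convert h7 using 1
    funext p
    rw [Pi.sub_apply]
    abel
  · rw [functional_eq φ]
    have h5 : (tJ A d lam).2.1 = 0 := rfl
    rw [h5, mul_zero, zero_mul]
    refine Finset.sum_eq_zero fun i _ => Finset.sum_eq_zero fun l _ => ?_
    by_cases hl : l ∈ S
    · have h6 : (tJ A d lam).2.2.2 i l = fr lam (A.E (Complex.I • pt d (Sum.inr l))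
          (pt d (Sum.inl i))) := rfl
      rw [h6, hS l hl, smul_zero, map_zero, LinearMap.zero_apply, map_zero, mul_zero]
    · rw [hnd φ hφ i l hl, zero_mul]

/-- The weight is in the Lie algebra. -/
theorem tW_mem (h : Lg 𝔤 d) (h1 : ∀ p q w, A.per (f p q w) = F p q (A.per w))
    (h2 : ∀ z, (∀ p, ∑ q, f p q (z q) = 0) ↔ z ∈ uu 𝔤)
    (h3 : ∀ p, ∑ q, F p q (pt d q - A.per (w q)) = 0)
    (h4 : ∀ L ∈ 𝔤, (fun p => L.2.2.1 p - op L (w p)) ∈ uu 𝔤)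
    (hB : ∀ φ : (Fin n → Fin s → ℚ) →ₗ[ℚ] ℚ, (∀ t ∈ tt 𝔤, φ t = 0) → ∀ L ∈ 𝔤, ∀ L' ∈ 𝔤,
      φ (fun i l => A.om (L.2.2.1 (Sum.inr l)) (L'.2.2.1 (Sum.inl i))) = 0)
    (hP : ∀ l ∈ S, ∀ c, d.P (Sum.inr l) c = 0)
    (hℓ : ∀ i, ∀ l ∈ S, IsAlgebraic ℚ (Complex.exp (d.ℓ i l)))
    (hnd : ∀ φ : (Fin n → Fin s → ℚ) →ₗ[ℚ] ℚ, (∀ t ∈ tt 𝔤, φ t = 0) → ∀ i l, l ∉ S →
      φ (Pi.single i (Pi.single l 1)) = 0)
    (hW : ∃ L ∈ 𝔤, L.1 = 0 ∧ L.2.1 = 1) (lam : ℂ →ₗ[ℚ] ℚ) : tW A d lam ∈ 𝔤 := by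
  obtain ⟨L₁, hL₁, e1', e2'⟩ := hW
  obtain ⟨L, hLd⟩ : ∃ L : Tup A n s, L = fr lam 1 • L₁ := ⟨_, rfl⟩
  have hL : L ∈ 𝔤 := by
    rw [hLd]
    exact 𝔤.smul_mem _ hL₁
  have e1 : L.1 = 0 := by rw [hLd, Prod.smul_fst, e1', smul_zero]
  have e2 : L.2.1 = fr lam 1 := by rw [hLd, Prod.smul_snd, Prod.smul_fst, e2', smul_eq_mul, mul_one]
  refine mem_of_parts h hB hL e1.symm e2.symm ?_ fun φ hφ ρ hρ => ?_
  · have h5 := h4 L hL
    have h6 : (fun p => (tW A d lam).2.2.1 p - op L (w p)) ∈ uu 𝔤 := by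
      rw [← h2]
      intro p
      have h7 : ∀ q, (tW A d lam).2.2.1 q - op L (w q) =
          A.cmp (fr lam) (pt d q - A.per (w q)) := by
        intro q
        have h8 := A.cmp_smul_per (fr lam) 1 (w q)
        rw [one_smul] at h8
        rw [op_apply, e1, e2, LinearMap.zero_apply, zero_add, map_sub, h8]
        rfl
      simp only [h7, sum_cmp h1]
      rw [← map_sum, h3, map_zero]
    have h7 := (uu 𝔤).sub_mem h6 h5
    convert h7 using 1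
    funext p
    rw [Pi.sub_apply]
    abel
  · have hlog := phi_log h hρ (hnd φ hφ) hP hℓ
    have h5 : (tW A d lam).2.1 = fr lam 1 := rfl
    rw [functional_eq φ, h5]
    have h6 : ∀ i l, ((φ (Pi.single i (Pi.single l 1)) : ℚ) : ℚ) * (tW A d lam).2.2.2 i l =
        lam ((2 / tau) * (((φ (Pi.single i (Pi.single l 1)) : ℚ) : ℂ) * d.ℓ i l)) := by
      intro i l
      by_cases hl : l ∈ S
      · have hpt0 : pt d (Sum.inr l) = 0 := by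
          funext k
          exact hP l hl _
        have h7 : (tW A d lam).2.2.2 i l = fr lam (A.E (pt d (Sum.inr l))
          (pt d (Sum.inl i))) + 2 * lam (kap A d i l) := rfl
        have h8 : kap A d i l = d.ℓ i l / tau := by
          unfold kap thd
          simp only [hP l hl, zero_mul, sub_zero, Finset.sum_const_zero, mul_zero]
        have h9 : (2 / tau) * (((φ (Pi.single i (Pi.single l 1)) : ℚ) : ℂ) * d.ℓ i l) =
            (2 * φ (Pi.single i (Pi.single l 1))) • (d.ℓ i l / tau) := by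
          rw [Rat.smul_def]
          push_cast
          ring
        rw [h7, hpt0, map_zero, LinearMap.zero_apply, map_zero, zero_add, h8, h9, map_smul,
          smul_eq_mul]
        ring
      · rw [hnd φ hφ i l hl]
        simp
    simp only [h6]
    simp only [← map_sum]
    simp only [← Finset.mul_sum]
    rw [hlog]
    have h7 : (2 / tau : ℂ) * (ρ * tau) = (2 * ρ) • (((1 : ℝ) : ℂ)) := by
      rw [Rat.smul_def, Complex.ofReal_one, mul_one]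
      have := AbVar.tau_ne
      field_simp
      push_cast
      ring
    rw [h7, map_smul, smul_eq_mul, fr_apply]
    ring

end Pool.Agent.R917.OM
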