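import Pool.Agent.R917.OM.Per

set_option autoImplicit false
set_option linter.unusedSectionVars false
set_option linter.unusedSimpArgs false

/-!
# Lie algebras of tuples
-/

open Module Function TensorProduct Matrix

noncomputable section

namespace Pool.Agent.R917.OM

open Pool.Agent.Y102 Pool.Agent.W516.DR Pool.Agent.H204R3.GP Pool.Agent.W516.KC
  Pool.Agent.H204R3.SP Pool.Agent.TH119.MX

variable {g : ℕ} {A : AbVar g} {n s : ℕ}

/-- A Lie algebra of tuples which contains the logarithmic derivatives of the periods. -/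
structure Lg (𝔤 : Submodule ℚ (Tup A n s)) (d : Dt g n s) : Prop where
  na : ∀ L ∈ 𝔤, L.1 ∈ A.NA
  br : ∀ L ∈ 𝔤, ∀ L' ∈ 𝔤, br L L' ∈ 𝔤
  per : ∀ (D : Derivation QBar ℂ ℂ) (lam : ℂ →ₗ[ℚ] ℚ), LD A d D lam ∈ 𝔤

variable {𝔤 : Submodule ℚ (Tup A n s)} {d : Dt g n s}

/-- the image on the abelian part -/
def aa (𝔤 : Submodule ℚ (Tup A n s)) : Submodule ℚ (Module.End ℚ A.H1) :=
  𝔤.map (LinearMap.fst ℚ _ _)

theorem mem_aa {X : Module.End ℚ A.H1} : X ∈ aa 𝔤 ↔ ∃ L ∈ 𝔤, L.1 = X := Iff.rfl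

theorem Lg.full (h : Lg 𝔤 d) : A.Full (aa 𝔤) := by
  refine full_of_X0 A ?_ ?_ ?_
  · rintro _ ⟨L, hL, rfl⟩
    exact h.na L hL
  · rintro _ ⟨L, hL, rfl⟩ _ ⟨L', hL', rfl⟩
    exact ⟨OM.br L L', h.br L hL L' hL', rfl⟩
  · intro D lam
    exact ⟨_, h.per D lam, rfl⟩

/-- the unipotent part -/
def uu (𝔤 : Submodule ℚ (Tup A n s)) : Submodule ℚ ((Fin n ⊕ Fin s) → A.H1) where
  carrier := {z | ∃ t : Fin n → Fin s → ℚ, ((0, 0, z, t) : Tup A n s) ∈ 𝔤}
  zero_mem' := ⟨0, 𝔤.zero_mem⟩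
  add_mem' := by
    rintro z z' ⟨t, ht⟩ ⟨t', ht'⟩
    refine ⟨t + t', ?_⟩
    have h1 := 𝔤.add_mem ht ht'
    simpa using h1
  smul_mem' := by
    rintro c z ⟨t, ht⟩
    refine ⟨c • t, ?_⟩
    have h1 := 𝔤.smul_mem c ht
    simpa using h1

theorem uu_stable (h : Lg 𝔤 d) {L : Tup A n s} (hL : L ∈ 𝔤) {z : (Fin n ⊕ Fin s) → A.H1}
    (hz : z ∈ uu 𝔤) : (fun p => op L (z p)) ∈ uu 𝔤 := by
  obtain ⟨t, ht⟩ := hz
  have h1 := h.br L hL _ ht
  refine ⟨(OM.br L ((0, 0, z, t) : Tup A n s)).2.2.2, ?_⟩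
  convert h1 using 1
  refine Prod.ext ?_ (Prod.ext rfl (Prod.ext ?_ rfl))
  · simp [OM.br]
  · funext p
    simp [OM.br, op_apply]

/-- elements of the derived algebra have lifts without scalars -/
theorem der_lift (h : Lg 𝔤 d) {X : Module.End ℚ A.H1} (hX : X ∈ der (aa 𝔤)) :
    ∃ L ∈ 𝔤, L.1 = X ∧ L.2.1 = 0 := by
  unfold der at hX
  induction hX using Submodule.span_induction with
  | mem X hX =>
    obtain ⟨_, ⟨L, hL, rfl⟩, _, ⟨L', hL', rfl⟩, rfl⟩ := hX
    exact ⟨OM.br L L', h.br L hL L' hL', rfl, rfl⟩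
  | zero => exact ⟨0, 𝔤.zero_mem, rfl, rfl⟩
  | add X Y _ _ hX hY =>
    obtain ⟨L, hL, h1, h2⟩ := hX
    obtain ⟨L', hL', h1', h2'⟩ := hY
    exact ⟨L + L', 𝔤.add_mem hL hL', by rw [Prod.fst_add, h1, h1'], by
      rw [Prod.snd_add, Prod.fst_add, h2, h2', add_zero]⟩
  | smul c X _ hX =>
    obtain ⟨L, hL, h1, h2⟩ := hX
    exact ⟨c • L, 𝔤.smul_mem c hL, by rw [Prod.smul_fst, h1], by
      rw [Prod.smul_snd, Prod.smul_fst, h2, smul_zero]⟩

/-- A central element of nonzero weight. -/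
theorem exists_central (h : Lg 𝔤 d) : ∃ Z ∈ 𝔤, Z.2.1 ≠ 0 ∧ ∀ L ∈ 𝔤, Z.1 * L.1 = L.1 * Z.1 := by
  obtain ⟨D, lam, hne⟩ := exists_der
  obtain ⟨Z, hZ, e, he, h1, h2⟩ := h.full.dec ⟨_, h.per D lam, rfl⟩
  obtain ⟨L, hL, h3, h4⟩ := der_lift h he
  refine ⟨LD A d D lam - L, 𝔤.sub_mem (h.per D lam) hL, ?_, fun L' hL' => ?_⟩
  · rw [Prod.snd_sub, Prod.fst_sub, h4, sub_zero]
    exact hne
  · have h5 : (LD A d D lam - L).1 = Z := by
      rw [Prod.fst_sub, h3]
      exact sub_eq_iff_eq_add.2 h1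
    rw [h5]
    exact h2 _ ⟨L', hL', rfl⟩

/-- Central elements plus nonzero scalars are injective. -/
theorem inj_central (h : Lg 𝔤 d) {Z : Module.End ℚ A.H1} (hZ : Z ∈ aa 𝔤)
    (hc : ∀ Y ∈ aa 𝔤, Z * Y = Y * Z) {c : ℚ} (hc0 : c ≠ 0) {x : A.H1} (hx : Z x + c • x = 0) :
    x = 0 := by
  let K : Submodule ℚ A.H1 := LinearMap.ker (Z + c • (1 : Module.End ℚ A.H1))
  have hK : ∀ y, y ∈ K ↔ Z y = -(c • y) := by
    intro y
    rw [LinearMap.mem_ker, LinearMap.add_apply, LinearMap.smul_apply, Module.End.one_apply]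
    exact ⟨fun h => eq_neg_of_add_eq_zero_left h, fun h => by rw [h, neg_add_cancel]⟩
  have h1 : IsDeRhamBettiSubspace QBar A.dR K := by
    rw [← A.coe_basis]
    refine sub_of_stable A.basis (τ := tau) K fun D lam u hu => ?_
    rw [hK] at hu ⊢
    have h2 : X0 A.basis tau D lam ∈ aa 𝔤 := ⟨_, h.per D lam, rfl⟩
    have h3 := congrArg (fun T : Module.End ℚ A.H1 => T u) (hc _ h2)
    simp only [Module.End.mul_apply] at h3
    rw [h3, hu, map_neg, map_smul]
  have h2 := A.isCompl_of_sub h1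
  have hx' : x ∈ K := (hK x).2 (eq_neg_of_add_eq_zero_left hx)
  have h3 : ∀ y ∈ K, A.om y x = 0 := by
    intro y hy
    have h4 := A.NA_skew (h.full.le hZ) y x
    rw [(hK y).1 hy, (hK x).1 hx'] at h4
    simp only [map_neg, map_smul, LinearMap.neg_apply, LinearMap.smul_apply, smul_eq_mul] at h4
    have h5 : c * A.om y x = 0 := by linarith
    exact (mul_eq_zero.1 h5).resolve_left hc0
  exact Submodule.disjoint_def.1 h2.disjoint x hx' h3

/-- The Levi component. -/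
theorem exists_levi (h : Lg 𝔤 d) : ∃ w : (Fin n ⊕ Fin s) → A.H1,
    ∀ L ∈ 𝔤, (fun p => L.2.2.1 p - op L (w p)) ∈ uu 𝔤 := by
  obtain ⟨Z, hZ, hc0, hcen⟩ := exists_central h
  have hinj : Function.Injective (op Z) := by
    rw [injective_iff_map_eq_zero]
    intro x hx
    exact inj_central h ⟨Z, hZ, rfl⟩ (by
      rintro _ ⟨L, hL, rfl⟩
      exact hcen L hL) hc0 hx
  have hsurj : Function.Surjective (op Z) := LinearMap.injective_iff_surjective.1 hinj
  choose w hw using fun p => hsurj (Z.2.2.1 p)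
  refine ⟨w, fun L hL => ?_⟩
  have hcomm : ∀ x, op L (op Z x) = op Z (op L x) := by
    intro x
    have h1 := congrArg (fun T : Module.End ℚ A.H1 => T x) (hcen L hL)
    simp only [Module.End.mul_apply] at h1
    simp only [op_apply, map_add, map_smul, smul_add]
    rw [h1, smul_comm L.2.1 Z.2.1]
    abel
  have h1 : (fun p => op Z (L.2.2.1 p - op L (w p))) ∈ uu 𝔤 := by
    have h2 := h.br Z hZ L hL
    refine ⟨(OM.br Z L).2.2.2, ?_⟩
    convert h2 using 1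
    refine Prod.ext ?_ (Prod.ext rfl (Prod.ext ?_ rfl))
    · change 0 = Z.1 * L.1 - L.1 * Z.1
      rw [hcen L hL, sub_self]
    · funext p
      change op Z (L.2.2.1 p - op L (w p)) = op Z (L.2.2.1 p) - op L (Z.2.2.1 p)
      rw [← hw p, hcomm, map_sub]
  -- the operator is bijective on the unipotent part
  let T : uu 𝔤 →ₗ[ℚ] uu 𝔤 :=
    { toFun := fun z => ⟨fun p => op Z (z.1 p), uu_stable h hZ z.2⟩
      map_add' := fun z z' => by
        apply Subtype.ext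
        funext p
        simp
      map_smul' := fun c z => by
        apply Subtype.ext
        funext p
        simp }
  have hTinj : Function.Injective T := by
    rw [injective_iff_map_eq_zero]
    intro z hz
    apply Subtype.ext
    funext p
    apply hinj
    rw [ZeroMemClass.coe_zero, Pi.zero_apply, map_zero]
    exact congrFun (congrArg Subtype.val hz) p
  obtain ⟨z, hz⟩ := (LinearMap.injective_iff_surjective.1 hTinj) ⟨_, h1⟩
  have h2 : (z : (Fin n ⊕ Fin s) → A.H1) = fun p => L.2.2.1 p - op L (w p) := by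
    funext p
    apply hinj
    exact congrFun (congrArg Subtype.val hz) p
  rw [← h2]
  exact z.2

end Pool.Agent.R917.OM
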