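import Pool.Agent.R917.OM.Tup

set_option autoImplicit false
set_option linter.unusedSectionVars false
set_option linter.unusedSimpArgs false

/-!
# The period matrix of a 1-motive and its logarithmic derivatives
-/

open Module Function TensorProduct Matrix

noncomputable section

namespace Pool.Agent.R917.OM

open Pool.Agent.Y102 Pool.Agent.W516.DR Pool.Agent.H204R3.GP Pool.Agent.W516.KC
  Pool.Agent.H204R3.SP Pool.Agent.TH119.MX

variable {g : ℕ} {A : AbVar g} {n s : ℕ}

/-- the extension of a linear form -/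
def ex (f : A.H1 →ₗ[ℚ] ℚ) : ℂ ⊗[ℚ] A.H1 →ₗ[ℂ] ℂ :=
  LinearMap.liftBaseChange ℂ ((Algebra.linearMap ℚ ℂ).comp f)

theorem ex_tmul (f : A.H1 →ₗ[ℚ] ℚ) (c : ℂ) (w : A.H1) : ex f (c ⊗ₜ[ℚ] w) = c * (f w : ℂ) := by
  unfold ex
  rw [LinearMap.liftBaseChange_tmul]
  rfl

theorem lam_ex (lam : ℂ →ₗ[ℚ] ℚ) (f : A.H1 →ₗ[ℚ] ℚ) (z : ℂ ⊗[ℚ] A.H1) :
    lam (ex f z) = f (Pool.Agent.W516.DR.cmp lam z) := by
  induction z with
  | zero => simp only [map_zero]
  | add z z' h h' => simp only [map_add, h, h']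
  | tmul c w =>
    rw [ex_tmul, cmp_tmul, map_smul, smul_eq_mul]
    have h1 : c * (f w : ℂ) = f w • c := by
      rw [Rat.smul_def, mul_comm]
    rw [h1, map_smul, smul_eq_mul, mul_comm]

/-- the coordinates -/
def crd (j : Fin (2 * g)) : ℂ ⊗[ℚ] A.H1 →ₗ[ℂ] ℂ := ex (LinearMap.proj j)

theorem sum_crd (i : Fin g ⊕ Fin g) (z : ℂ ⊗[ℚ] A.H1) :
    ∑ j, crd j z * A.dR i (eb A j) = etaL A.basis i z := by
  induction z with
  | zero => simp only [map_zero, zero_mul, Finset.sum_const_zero]
  | add z z' h h' => simp only [map_add, add_mul, Finset.sum_add_distrib, h, h']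
  | tmul c w =>
    rw [etaL_tmul, A.coe_basis]
    conv_rhs => rw [lin_sum (A := A) (A.dR i) w, Finset.mul_sum]
    refine Finset.sum_congr rfl fun j _ => ?_
    unfold crd
    rw [ex_tmul, LinearMap.proj_apply, Rat.smul_def]
    ring

/-- the element with given de Rham coordinates -/
def lft (A : AbVar g) (P : Fin g ⊕ Fin g → ℂ) : ℂ ⊗[ℚ] A.H1 := ∑ i, P i • ee A.basis i

theorem etaL_lft (P : Fin g ⊕ Fin g → ℂ) (i : Fin g ⊕ Fin g) :
    etaL A.basis i (lft A P) = P i := by
  unfold lft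
  rw [map_sum, Finset.sum_eq_single i]
  · rw [map_smul, etaL_ee, if_pos rfl, smul_eq_mul, mul_one]
  · intro j _ hj
    rw [map_smul, etaL_ee, if_neg hj, smul_zero]
  · intro h
    exact absurd (Finset.mem_univ _) h

/-- The polarization on the de Rham side. -/
theorem ex_om (w : A.H1) (z : ℂ ⊗[ℚ] A.H1) : ex (A.om.flip w) z * tau =
    ∑ k, (etaL A.basis (Sum.inr k) z * A.dR (Sum.inl k) w -
      etaL A.basis (Sum.inl k) z * A.dR (Sum.inr k) w) := by
  induction z with
  | zero => simp only [map_zero, zero_mul, sub_zero, Finset.sum_const_zero]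
  | add z z' h h' =>
    simp only [map_add, add_mul, h, h']
    rw [← Finset.sum_add_distrib]
    refine Finset.sum_congr rfl fun k _ => by ring
  | tmul c u =>
    rw [ex_tmul, LinearMap.flip_apply, A.om_pairing]
    simp only [etaL_tmul, A.coe_basis]
    have h1 : (tau : ℂ) = 2 * Real.pi * Complex.I := rfl
    rw [← h1, mul_assoc, div_mul_cancel₀ _ AbVar.tau_ne, Finset.mul_sum]
    refine Finset.sum_congr rfl fun k _ => ?_
    have h2 : ∀ x : A.H1, A.dR (Sum.inl k) x = A.per x k := fun x => rfl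
    have h3 : ∀ x : A.H1, A.dR (Sum.inr k) x = A.eta x k := fun x => rfl
    rw [h2, h2, h3, h3]
    ring

/-- The data of a 1-motive: the de Rham coordinates of the `n` points and of the `s` points of the
dual abelian variety, and the `n s` logarithms. -/
structure Dt (g n s : ℕ) where
  P : Fin n ⊕ Fin s → Fin g ⊕ Fin g → ℂ
  ℓ : Fin n → Fin s → ℂ

variable (d : Dt g n s)

/-- the integrals of the third kind -/
def thd (A : AbVar g) (l : Fin s) (w : A.H1) : ℂ :=
  ∑ k, (d.P (Sum.inr l) (Sum.inr k) * A.dR (Sum.inl k) w -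
    d.P (Sum.inr l) (Sum.inl k) * A.dR (Sum.inr k) w)

/-- the indices of the de Rham side -/
abbrev CI (g n s : ℕ) : Type := (Fin g ⊕ Fin g) ⊕ (Fin s ⊕ Fin n)

/-- The period matrix. -/
def pmat (A : AbVar g) (d : Dt g n s) : Matrix (RI g n s) (CI g n s) ℂ := Matrix.of fun r r' =>
  Sum.elim (fun j => Sum.elim (fun i => A.dR i (eb A j))
      (Sum.elim (fun l => thd d A l (eb A j)) (fun _ => 0)) r')
    (Sum.elim
      (fun l => Sum.elim (fun _ => 0) (Sum.elim (fun l' => if l = l' then tau else 0)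
        (fun _ => 0)) r')
      (fun i => Sum.elim (fun c => d.P (Sum.inl i) c)
        (Sum.elim (fun l => d.ℓ i l) (fun i' => if i = i' then 1 else 0)) r')) r

/-- the logarithms of the torus part -/
def tD (D : Derivation QBar ℂ ℂ) (i : Fin n) (l : Fin s) : ℂ :=
  (D (d.ℓ i l) - ∑ k, (d.P (Sum.inr l) (Sum.inr k) * D (d.P (Sum.inl i) (Sum.inl k)) -
    d.P (Sum.inr l) (Sum.inl k) * D (d.P (Sum.inl i) (Sum.inr k)))) / tau

/-- The logarithmic derivative of the period matrix. -/
def YD (A : AbVar g) (d : Dt g n s) (D : Derivation QBar ℂ ℂ) :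
    Matrix (RI g n s) (RI g n s) ℂ := Matrix.of fun r r' =>
  Sum.elim (fun j => Sum.elim (fun j' => crd j' (XX A.basis D ((1 : ℂ) ⊗ₜ[ℚ] eb A j)))
      (Sum.elim (fun l => ex (A.om.flip (eb A j)) (lft A fun c => D (d.P (Sum.inr l) c)))
        (fun _ => 0)) r')
    (Sum.elim
      (fun l => Sum.elim (fun _ => 0) (Sum.elim (fun l' => if l = l' then D tau / tau else 0)
        (fun _ => 0)) r')
      (fun i => Sum.elim (fun j' => crd (A := A) j' (lft A fun c => D (d.P (Sum.inl i) c)))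
        (Sum.elim (fun l => tD d D i l) (fun _ => 0)) r')) r

theorem sum_thd (l : Fin s) (z : ℂ ⊗[ℚ] A.H1) : ∑ j, crd j z * thd d A l (eb A j) =
    ∑ k, (d.P (Sum.inr l) (Sum.inr k) * etaL A.basis (Sum.inl k) z -
      d.P (Sum.inr l) (Sum.inl k) * etaL A.basis (Sum.inr k) z) := by
  simp only [← sum_crd]
  unfold thd
  simp only [Finset.mul_sum]
  rw [Finset.sum_comm]
  refine Finset.sum_congr rfl fun k _ => ?_
  rw [← Finset.sum_sub_distrib]
  refine Finset.sum_congr rfl fun j _ => ?_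
  ring

theorem YD_mul (D : Derivation QBar ℂ ℂ) : YD A d D * pmat A d = (pmat A d).map D := by
  ext r r'
  rw [Matrix.mul_apply, Fintype.sum_sum_type, Fintype.sum_sum_type]
  rcases r with j | l | i <;> rcases r' with c | l' | i' <;>
    simp only [YD, pmat, Matrix.of_apply, Matrix.map_apply, Sum.elim_inl, Sum.elim_inr, mul_zero,
      zero_mul, Finset.sum_const_zero, add_zero, zero_add, map_zero, sum_crd, sum_thd,
      mul_ite, ite_mul, Finset.sum_ite_eq, Finset.sum_ite_eq', Finset.mem_univ, if_true,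
      etaL_XX_one, etaL_lft]
  · rw [A.coe_basis]
  · rw [ex_om]
    simp only [etaL_lft, etaL_XX_one, A.coe_basis]
    unfold thd
    rw [map_sum, ← Finset.sum_add_distrib]
    refine Finset.sum_congr rfl fun k _ => ?_
    rw [map_sub, Derivation.leibniz, Derivation.leibniz]
    simp only [smul_eq_mul]
    ring
  · have h1 : (tau : ℂ) ≠ 0 := AbVar.tau_ne
    split_ifs
    · rw [div_mul_cancel₀ _ h1]
    · rw [map_zero]
  · unfold tD
    rw [div_mul_cancel₀ _ AbVar.tau_ne]
    ring
  · split_ifs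
    · rw [Derivation.map_one_eq_zero]
    · rw [map_zero]

/-- The rational component of the logarithmic derivative. -/
def LD (A : AbVar g) (d : Dt g n s) (D : Derivation QBar ℂ ℂ) (lam : ℂ →ₗ[ℚ] ℚ) : Tup A n s :=
  (X0 A.basis tau D lam, lam (D tau / (2 * tau)),
    fun p => Pool.Agent.W516.DR.cmp lam (lft A fun c => D (d.P p c)), fun i l => lam (tD d D i l))

theorem op_LD (D : Derivation QBar ℂ ℂ) (lam : ℂ →ₗ[ℚ] ℚ) :
    op (LD A d D lam) = Pool.Agent.W516.DR.cmpE lam (XX A.basis D) := X0_eq (A := A) D lam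

theorem mt_LD (D : Derivation QBar ℂ ℂ) (lam : ℂ →ₗ[ℚ] ℚ) :
    mt (LD A d D lam) = (YD A d D).map (lamF lam) := by
  ext r r'
  rcases r with j | l | i <;> rcases r' with c | l' | i' <;>
    simp only [mt, mtQ, YD, Matrix.of_apply, Matrix.map_apply, Sum.elim_inl, Sum.elim_inr,
      map_zero, op_LD, lamF_apply]
  · rw [Pool.Agent.W516.DR.cmpE_apply]
    unfold crd
    rw [lam_ex]
    rfl
  · rw [lam_ex]
    rfl
  · split_ifs
    · have h1 : (2 : ℚ) * (LD A d D lam).2.1 = lam (D tau / tau) := by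
        change (2 : ℚ) * lam (D tau / (2 * tau)) = _
        have h2 : D tau / tau = (2 : ℚ) • (D tau / (2 * tau)) := by
          rw [Rat.smul_def, mul_comm (2 : ℂ) tau, ← div_div]
          push_cast
          ring
        rw [h2, map_smul, smul_eq_mul]
      rw [h1]
      rfl
    · rw [map_zero, map_zero, Rat.cast_zero]
  · unfold crd
    rw [lam_ex]
    rfl
  · rfl

end Pool.Agent.R917.OM
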