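import Pool.Agent.R917.OM.Lg

set_option autoImplicit false
set_option linter.unusedSectionVars false
set_option linter.unusedSimpArgs false

/-!
# Projectors on the powers of a semisimple representation
-/

open Module Function TensorProduct Matrix

noncomputable section

namespace Pool.Agent.R917.OM

open Pool.Agent.Y102 Pool.Agent.W516.DR Pool.Agent.H204R3.GP Pool.Agent.W516.KC
  Pool.Agent.H204R3.SP Pool.Agent.TH119.MX

section general

variable {k W : Type} [Field k] [CharZero k] [AddCommGroup W] [Module k W] [FiniteDimensional k W]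
  {𝔥 : Submodule k (Module.End k W)}

/-- a submodule over the enveloping algebra -/
def subS {ι : Type} (U : Submodule k (ι → W))
    (hU : ∀ X ∈ 𝔥, ∀ u ∈ U, (fun p => X (u p)) ∈ U) :
    Submodule (Algebra.adjoin k (𝔥 : Set (Module.End k W))) (ι → W) where
  carrier := U
  zero_mem' := U.zero_mem
  add_mem' := fun ha hb => U.add_mem ha hb
  smul_mem' := by
    rintro ⟨X, hX⟩ u hu
    change (fun p => X (u p)) ∈ U
    have h1 : ∀ X ∈ Algebra.adjoin k (𝔥 : Set (Module.End k W)),
        ∀ u ∈ U, (fun p => X (u p)) ∈ U := by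
      intro X hX
      induction hX using Algebra.adjoin_induction with
      | mem X hX => exact hU X hX
      | algebraMap c => exact fun u hu => U.smul_mem c hu
      | add X Y _ _ hX hY => exact fun u hu => U.add_mem (hX u hu) (hY u hu)
      | mul X Y _ _ hX hY => exact fun u hu => hX _ (hY u hu)
    exact h1 X hX u hu

/-- a submodule over the enveloping algebra -/
def subS1 (U : Submodule k W) (hU : ∀ X ∈ 𝔥, ∀ u ∈ U, X u ∈ U) :
    Submodule (Algebra.adjoin k (𝔥 : Set (Module.End k W))) W where
  carrier := U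
  zero_mem' := U.zero_mem
  add_mem' := fun ha hb => U.add_mem ha hb
  smul_mem' := by
    rintro ⟨X, hX⟩ u hu
    change X u ∈ U
    have h1 : ∀ X ∈ Algebra.adjoin k (𝔥 : Set (Module.End k W)), ∀ u ∈ U, X u ∈ U := by
      intro X hX
      induction hX using Algebra.adjoin_induction with
      | mem X hX => exact hU X hX
      | algebraMap c => exact fun u hu => U.smul_mem c hu
      | add X Y _ _ hX hY => exact fun u hu => U.add_mem (hX u hu) (hY u hu)
      | mul X Y _ _ hX hY => exact fun u hu => hX _ (hY u hu)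
    exact h1 X hX u hu

theorem semisimple_of (hs : Semi 𝔥) :
    IsSemisimpleModule (Algebra.adjoin k (𝔥 : Set (Module.End k W))) W where
  exists_isCompl U := by
    obtain ⟨V, hV, hc⟩ := hs (U.restrictScalars k) (fun X hX u hu =>
      U.smul_mem (⟨X, Algebra.subset_adjoin hX⟩ : Algebra.adjoin k (𝔥 : Set (Module.End k W))) hu)
    refine ⟨subS1 V hV, ?_⟩
    constructor
    · rw [Submodule.disjoint_def]
      intro x hx hx'
      exact Submodule.disjoint_def.1 hc.disjoint x hx hx'
    · rw [codisjoint_iff_le_sup]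
      intro x _
      have h1 : x ∈ U.restrictScalars k ⊔ V := by
        rw [hc.sup_eq_top]
        trivial
      obtain ⟨a, ha, b, hb, rfl⟩ := Submodule.mem_sup.1 h1
      exact Submodule.mem_sup.2 ⟨a, ha, b, hb, rfl⟩

/-- Stable subspaces of powers are kernels of projectors. -/
theorem exists_proj_aux (hs : Semi 𝔥) {ι : Type} [Fintype ι] (U : Submodule k (ι → W))
    (hU : ∀ X ∈ 𝔥, ∀ u ∈ U, (fun p => X (u p)) ∈ U) :
    ∃ π : (ι → W) →ₗ[k] (ι → W), (∀ z, π (π z) = π z) ∧ (∀ z, π z = 0 ↔ z ∈ U) ∧
      ∀ X ∈ 𝔥, ∀ z, π (fun p => X (z p)) = fun p => X (π z p) := by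
  have _ := semisimple_of hs
  obtain ⟨V, hV⟩ := exists_isCompl (subS U hU)
  let π := Submodule.projection V (subS U hU) hV.symm
  have h1 : ∀ z, z ∈ V → π z = z := fun z hz => by
    exact Submodule.projection_apply_left hV.symm ⟨z, hz⟩
  have h2 : ∀ z, π z ∈ V := fun z => Submodule.projection_apply_mem hV.symm z
  refine ⟨π.restrictScalars k, fun z => h1 _ (h2 z), fun z => ?_, fun X hX z => ?_⟩
  · change π z = 0 ↔ z ∈ subS U hU
    exact Submodule.projection_apply_eq_zero_iff hV.symm
  · exact π.map_smul (⟨X, Algebra.subset_adjoin hX⟩ :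
      Algebra.adjoin k (𝔥 : Set (Module.End k W))) z

end general

end Pool.Agent.R917.OM
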