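import Pool.Agent.Y102.SL

set_option autoImplicit false

/-!
# The theorem of Schneider and Lang on Cartesian products, for functions with algebraic
# differential equations and values in a number field
-/

open MvPolynomial NumberField

noncomputable section

namespace Pool.Agent.R917.OM

open Pool.Agent.W245.EB Pool.Agent.Y102

/-- **The theorem of Schneider and Lang on Cartesian products.** -/
theorem schneiderLang {n : ℕ} (hn : 0 < n) (F : IntermediateField ℚ ℂ) [hfd : FiniteDimensional ℚ F]
    {V : Type} [Fintype V]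
    (val : V → (Fin n → ℂ) → ℂ) (O : Set (Fin n → ℂ)) (hO : IsOpen O)
    (han : ∀ p, AnalyticOnNhd ℂ (val p) O)
    (U : Fin n → Fin n → ℂ) (hU : LinearIndependent ℂ U)
    (hpt : ∀ s : Fin n → Fin (AD.Snum n (Module.finrank ℚ F)), (∑ k, ((s k : ℕ) : ℂ) • U k) ∈ O)
    (hval : ∀ p, ∀ s : Fin n → Fin (AD.Snum n (Module.finrank ℚ F)),
      val p (∑ k, ((s k : ℕ) : ℂ) • U k) ∈ F)
    (δ : Fin n → V → MvPolynomial V ℂ) (hδa : ∀ j p m, (δ j p).coeff m ∈ F)
    (hδ : ∀ j p, (δ j p).totalDegree ≤ 2)
    (hD : ∀ j p, ∀ z ∈ O, fderiv ℂ (val p) z (Pi.single j 1) =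
      MvPolynomial.eval (fun q => val q z) (δ j p))
    {I : Type} [Fintype I] (hI : Fintype.card I = n + 1) (b : I → V) (hb : Function.Injective b)
    (Th A : I → (Fin n → ℂ) → ℂ) (hTha : ∀ i, AnalyticOnNhd ℂ (Th i) Set.univ)
    (hAa : ∀ i, AnalyticOnNhd ℂ (A i) Set.univ) (hThg : ∀ i, GrE (Th i)) (hAg : ∀ i, GrE (A i))
    (hTh : ∀ i, ∀ z ∈ O, Th i z * val (b i) z = A i z)
    (hne : ∀ i, ∀ s : Fin n → Fin (AD.Snum n (Module.finrank ℚ F)),
      Th i (∑ k, ((s k : ℕ) : ℂ) • U k) ≠ 0) :
    ∃ P : MvPolynomial I ℂ, P ≠ 0 ∧ ∀ z ∈ O, (∀ i, Th i z ≠ 0) →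
      MvPolynomial.eval (fun i => val (b i) z) P = 0 := by
  classical
  by_contra hcon
  push Not at hcon
  -- the numbers
  set s : Finset ℂ := (Finset.univ.image fun p : V × (Fin n → Fin (AD.Snum n
      (Module.finrank ℚ F))) => val p.1 (∑ k, ((p.2 k : ℕ) : ℂ) • U k)) ∪
    Finset.univ.biUnion fun q : Fin n × V => (δ q.1 q.2).support.image fun m => (δ q.1 q.2).coeff m
    with hs
  have hsF : ∀ x ∈ s, x ∈ F := by
    intro x hx
    rw [hs, Finset.mem_union] at hx
    rcases hx with hx | hx
    · obtain ⟨p, _, rfl⟩ := Finset.mem_image.1 hx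
      exact hval p.1 p.2
    · obtain ⟨q, _, hq⟩ := Finset.mem_biUnion.1 hx
      obtain ⟨m, _, rfl⟩ := Finset.mem_image.1 hq
      exact hδa _ _ _
  have hNF : NumberField F := { to_charZero := inferInstance, to_finiteDimensional := hfd }
  obtain ⟨c, hc0, hc⟩ := exists_integral_multiples ℤ ℚ
    (Finset.univ.image (fun x : s => (⟨x.1, hsF _ x.2⟩ : F)))
  have hcC : (c : ℂ) ≠ 0 := by exact_mod_cast hc0
  have hint : ∀ x (hx : x ∈ s), IsIntegral ℤ (c • (⟨x, hsF _ hx⟩ : F)) := by
    intro x hx
    exact hc _ (Finset.mem_image.2 ⟨⟨x, hx⟩, Finset.mem_univ _, rfl⟩)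
  have hv0 : ∀ p (t : Fin n → Fin (AD.Snum n (Module.finrank ℚ F))),
      val p (∑ k, ((t k : ℕ) : ℂ) • U k) ∈ s := fun p t => by
    rw [hs, Finset.mem_union]
    exact Or.inl (Finset.mem_image.2 ⟨(p, t), Finset.mem_univ _, rfl⟩)
  have hco : ∀ j p m, m ∈ (δ j p).support → (δ j p).coeff m ∈ s := fun j p m hm => by
    rw [hs, Finset.mem_union]
    exact Or.inr (Finset.mem_biUnion.2 ⟨(j, p), Finset.mem_univ _,
      Finset.mem_image.2 ⟨m, hm, rfl⟩⟩)
  let X0 : V → (Fin n → Fin (AD.Snum n (Module.finrank ℚ F))) → 𝓞 F := fun p t =>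
    ⟨c • ⟨val p _, hsF _ (hv0 p t)⟩, hint _ (hv0 p t)⟩
  have hcfe : ∀ j p m, ∃ y : 𝓞 F, ((y : F) : ℂ) = c * (δ j p).coeff m := by
    intro j p m
    by_cases hm : m ∈ (δ j p).support
    · refine ⟨⟨c • ⟨(δ j p).coeff m, hsF _ (hco j p m hm)⟩, hint _ (hco j p m hm)⟩, ?_⟩
      change ((c • (⟨(δ j p).coeff m, hsF _ (hco j p m hm)⟩ : F) : F) : ℂ) = _
      rw [zsmul_eq_mul]
      simp
    · refine ⟨0, ?_⟩
      rw [MvPolynomial.notMem_support_iff.1 hm]
      simp
  choose cf hcf using hcfe
  let e : AD n (AD.Snum n (Module.finrank ℚ F)) :=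
    { K := F
      ph := algebraMap F ℂ
      V := V
      val := fun p z => c * val p z
      O := O
      isOpen_O := hO
      analytic_val := fun p z hz => analyticAt_const.mul (han p z hz)
      U := U
      hU := hU
      pt_mem := fun s => hpt s
      X := X0
      hX := by
        intro p t
        change ((c • (⟨val p _, hsF _ (hv0 p t)⟩ : F) : F) : ℂ) = _
        rw [zsmul_eq_mul]
        simp
      δ := fun j p => ∑ m ∈ (δ j p).support, monomial m (cf j p m * (c : 𝓞 F) ^ (2 - m.degree))
      hδ := by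
        intro j p
        refine MvPolynomial.totalDegree_finsetSum_le fun m hm => ?_
        refine (MvPolynomial.totalDegree_monomial_le _ _).trans ?_
        exact (MvPolynomial.le_totalDegree hm).trans (hδ j p)
      v := fun j => (c : ℂ) ^ 2 • Pi.single j 1
      spans_v := by
        intro w
        refine ⟨fun j => w j / (c : ℂ) ^ 2, ?_⟩
        funext k
        rw [Finset.sum_apply]
        simp only [Pi.smul_apply, smul_eq_mul]
        rw [Finset.sum_eq_single k]
        · rw [Pi.single_eq_same]
          field_simp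
        · intro j _ hj
          rw [Pi.single_eq_of_ne (Ne.symm hj)]
          ring
        · intro h
          exact absurd (Finset.mem_univ _) h
      D_val := by
        intro j p z hz
        have h1 : D ((c : ℂ) ^ 2 • Pi.single j 1) (fun z => c * val p z) z =
            (c : ℂ) ^ 3 * MvPolynomial.eval (fun q => val q z) (δ j p) := by
          rw [D_smul_vec, D_const_mul_fun (han p z hz).differentiableAt, D, hD j p z hz]
          ring
        rw [h1]
        simp only [ev]
        rw [MvPolynomial.eval₂_sum]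
        conv_lhs => rw [MvPolynomial.eval_eq]
        rw [Finset.mul_sum]
        refine Finset.sum_congr rfl fun m hm => ?_
        rw [MvPolynomial.eval₂_monomial]
        have h2 : m.degree ≤ 2 := by
          have := (MvPolynomial.le_totalDegree hm).trans (hδ j p)
          exact this
        have h3 : (m.prod fun n e => ((c : ℂ) * val n z) ^ e) =
            (c : ℂ) ^ m.degree * ∏ d ∈ m.support, val d z ^ m d := by
          rw [Finsupp.prod, Finsupp.degree_apply, ← Finset.prod_pow_eq_pow_sum,
            ← Finset.prod_mul_distrib]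
          refine Finset.prod_congr rfl fun d _ => ?_
          rw [mul_pow]
        rw [h3]
        simp only [map_mul, map_pow, RingHom.comp_apply, map_intCast]
        have h4 : (algebraMap F ℂ) ((algebraMap (𝓞 F) F) (cf j p m)) = c * (δ j p).coeff m :=
          hcf j p m
        rw [h4]
        have h5 : (c : ℂ) ^ 3 = c * (c ^ (2 - m.degree) * c ^ m.degree) := by
          rw [← pow_add, Nat.sub_add_cancel h2]
          ring
        rw [h5]
        ring
      I := I
      cardI := hI
      b := b
      hb := hb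
      Th := Th
      A := fun i z => c * A i z
      analytic_Th := hTha
      analytic_A := fun i z hz => analyticAt_const.mul (hAa i z hz)
      gr_Th := hThg
      gr_A := fun i => grE_const_mul (hAg i) c
      hTh := by
        intro i z hz
        rw [← hTh i z hz]
        ring
      Th_ne := fun i s => hne i s
      indep := by
        intro P hP
        let Q : MvPolynomial I ℂ := MvPolynomial.aeval (fun i => C (c : ℂ) * X i) P
        have hQe : ∀ x : I → ℂ, MvPolynomial.eval x Q =
            MvPolynomial.eval (fun i => c * x i) P := fun x => eval_scale (c : ℂ) P x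
        have hQ0 : Q ≠ 0 := by
          intro hQ
          apply hP
          apply MvPolynomial.funext
          intro x
          have h1 := hQe fun i => (c : ℂ)⁻¹ * x i
          rw [hQ, map_zero] at h1
          have h2 : (fun i => (c : ℂ) * ((c : ℂ)⁻¹ * x i)) = x := by
            funext i
            field_simp
          rw [h2] at h1
          rw [← h1, map_zero]
        obtain ⟨z, hz, hz1, hz2⟩ := hcon Q hQ0
        refine ⟨z, hz, hz1, ?_⟩
        rw [hQe] at hz2
        exact hz2 }
  exact e.false hn rfl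

end Pool.Agent.R917.OM
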