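import Pool.Agent.R917.OM.Brk

set_option autoImplicit false
set_option linter.unusedSectionVars false
set_option linter.unusedSimpArgs false

/-!
# Functionals on the part of weight minus two which vanish on the brackets
-/

open Module Function TensorProduct Matrix

noncomputable section

namespace Pool.Agent.R917.OM

open Pool.Agent.Y102 Pool.Agent.W516.DR Pool.Agent.H204R3.GP Pool.Agent.W516.KC
  Pool.Agent.H204R3.SP Pool.Agent.TH119.MX

variable {g : ℕ} {A : AbVar g} {n s : ℕ} {𝔤 : Submodule ℚ (Tup A n s)} {d : Dt g n s}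

theorem br_levi {Z L : Tup A n s} (hcen : Z.1 * L.1 = L.1 * Z.1) :
    br Z L = (0, 0, fun p => op Z (L.2.2.1 p) - op L (Z.2.2.1 p),
      fun i l => A.om (Z.2.2.1 (Sum.inr l)) (L.2.2.1 (Sum.inl i)) -
        A.om (L.2.2.1 (Sum.inr l)) (Z.2.2.1 (Sum.inl i)) + 2 * Z.2.1 * L.2.2.2 i l -
          2 * L.2.1 * Z.2.2.2 i l) := by
  refine Prod.ext ?_ (Prod.ext rfl (Prod.ext rfl rfl))
  change Z.1 * L.1 - L.1 * Z.1 = 0
  rw [hcen, sub_self]

/-- A functional which vanishes on the brackets vanishes on the unipotent part. -/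
theorem phi_graded (h : Lg 𝔤 d) {φ : (Fin n → Fin s → ℚ) →ₗ[ℚ] ℚ} (hφ : ∀ t ∈ tt 𝔤, φ t = 0)
    (hB : ∀ L ∈ 𝔤, ∀ L' ∈ 𝔤,
      φ (fun i l => A.om (L.2.2.1 (Sum.inr l)) (L'.2.2.1 (Sum.inl i))) = 0)
    {z : (Fin n ⊕ Fin s) → A.H1} {t : Fin n → Fin s → ℚ}
    (hz : ((0, 0, z, t) : Tup A n s) ∈ 𝔤) : φ t = 0 := by
  obtain ⟨Z, hZ, hc0, hcen⟩ := exists_central h
  let T : uu 𝔤 →ₗ[ℚ] uu 𝔤 :=
    { toFun := fun z => ⟨(fun p => op Z (z.1 p)) - (2 * Z.2.1) • z.1,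
        (uu 𝔤).sub_mem (uu_stable h hZ z.2) ((uu 𝔤).smul_mem _ z.2)⟩
      map_add' := fun z z' => by
        apply Subtype.ext
        funext p
        simp only [Submodule.coe_add, Pi.sub_apply, Pi.add_apply, Pi.smul_apply, map_add, smul_add]
        abel
      map_smul' := fun c z => by
        apply Subtype.ext
        funext p
        simp only [Submodule.coe_smul, Pi.sub_apply, Pi.smul_apply, map_smul, RingHom.id_apply,
          smul_sub]
        rw [smul_comm (2 * Z.2.1) c] }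
  have hTinj : Function.Injective T := by
    rw [injective_iff_map_eq_zero]
    intro z hz
    apply Subtype.ext
    funext p
    have h1 : op Z (z.1 p) - (2 * Z.2.1) • z.1 p = 0 := congrFun (congrArg Subtype.val hz) p
    refine inj_central h (Z := Z.1) ⟨Z, hZ, rfl⟩ (by
      rintro _ ⟨L, hL, rfl⟩
      exact hcen L hL) (neg_ne_zero.2 hc0) ?_
    have h2 : ∀ (a b : A.H1) (c : ℚ), a + c • b - (2 * c) • b = a + (-c) • b := by
      intro a b c
      module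
    rw [op_apply, h2] at h1
    exact h1
  obtain ⟨z1, hz1⟩ := (LinearMap.injective_iff_surjective.1 hTinj) ⟨z, t, hz⟩
  obtain ⟨t1, ht1⟩ := z1.2
  have hz2 : (fun p => op Z (z1.1 p)) - (2 * Z.2.1) • z1.1 = z := congrArg Subtype.val hz1
  have h2 := h.br Z hZ _ ht1
  have h3 := 𝔤.sub_mem h2 (𝔤.smul_mem (2 * Z.2.1) ht1)
  have h4 := 𝔤.sub_mem hz h3
  have h5 : t - (fun i l => A.om (Z.2.2.1 (Sum.inr l)) (z1.1 (Sum.inl i)) -
      A.om (z1.1 (Sum.inr l)) (Z.2.2.1 (Sum.inl i))) ∈ tt 𝔤 := by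
    rw [mem_tt]
    convert h4 using 1
    refine Prod.ext ?_ (Prod.ext ?_ (Prod.ext ?_ ?_))
    · simp [OM.br]
    · simp [OM.br]
    · change (0 : (Fin n ⊕ Fin s) → A.H1) = z - ((fun p => op Z (z1.1 p) -
        op ((0, 0, z1.1, t1) : Tup A n s) (Z.2.2.1 p)) - (2 * Z.2.1) • z1.1)
      rw [← hz2]
      funext p
      simp [op]
    · funext i l
      simp only [OM.br, Prod.snd_sub, Prod.smul_snd, Pi.sub_apply, Pi.smul_apply, smul_eq_mul]
      ring
  have h6 := hφ _ h5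
  have h7 := hB Z hZ _ ht1
  have h8 := hB _ ht1 Z hZ
  have h9 : (fun i l => A.om (Z.2.2.1 (Sum.inr l)) (z1.1 (Sum.inl i)) -
      A.om (z1.1 (Sum.inr l)) (Z.2.2.1 (Sum.inl i))) =
      (fun i l => A.om (Z.2.2.1 (Sum.inr l)) (z1.1 (Sum.inl i))) -
      (fun i l => A.om (z1.1 (Sum.inr l)) (Z.2.2.1 (Sum.inl i))) := rfl
  rw [map_sub, h9, map_sub, h7, h8, sub_zero, sub_zero] at h6
  exact h6

/-- The values of such a functional. -/
theorem phi_levi (h : Lg 𝔤 d) {φ : (Fin n → Fin s → ℚ) →ₗ[ℚ] ℚ} (hφ : ∀ t ∈ tt 𝔤, φ t = 0)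
    (hB : ∀ L ∈ 𝔤, ∀ L' ∈ 𝔤,
      φ (fun i l => A.om (L.2.2.1 (Sum.inr l)) (L'.2.2.1 (Sum.inl i))) = 0) :
    ∃ ρ : ℚ, ∀ L ∈ 𝔤, φ L.2.2.2 = 2 * L.2.1 * ρ := by
  obtain ⟨Z, hZ, hc0, hcen⟩ := exists_central h
  refine ⟨φ Z.2.2.2 / (2 * Z.2.1), fun L hL => ?_⟩
  have h1 := h.br Z hZ L hL
  rw [br_levi (hcen L hL)] at h1
  have h2 := phi_graded h hφ hB h1
  have h3 : (fun i l => A.om (Z.2.2.1 (Sum.inr l)) (L.2.2.1 (Sum.inl i)) -
        A.om (L.2.2.1 (Sum.inr l)) (Z.2.2.1 (Sum.inl i)) + 2 * Z.2.1 * L.2.2.2 i l -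
          2 * L.2.1 * Z.2.2.2 i l) =
      (fun i l => A.om (Z.2.2.1 (Sum.inr l)) (L.2.2.1 (Sum.inl i))) -
      (fun i l => A.om (L.2.2.1 (Sum.inr l)) (Z.2.2.1 (Sum.inl i))) +
      (2 * Z.2.1) • L.2.2.2 - (2 * L.2.1) • Z.2.2.2 := by
    funext i l
    simp
  rw [h3, map_sub, map_add, map_sub, hB Z hZ L hL, hB L hL Z hZ, map_smul, map_smul, smul_eq_mul,
    smul_eq_mul, sub_zero, zero_add, sub_eq_zero] at h2
  field_simp
  linear_combination (1 / 2 : ℚ) * h2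

/-- Derivations over the field of algebraic numbers vanish on algebraic numbers. -/
theorem der_alg (D : Derivation QBar ℂ ℂ) {x : ℂ} (hx : IsAlgebraic ℚ x) : D x = 0 := by
  have h3 : x = algebraMap QBar ℂ ⟨x, mem_algebraicClosure_iff.2 hx⟩ := rfl
  rw [h3, Derivation.map_algebraMap]

/-- `2 π i` is not an algebraic number. -/
theorem tau_rat {q : ℚ} (h : IsAlgebraic ℚ ((q : ℂ) * tau)) : q = 0 := by
  by_contra hq
  obtain ⟨D, lam, hne⟩ := exists_der
  have h1 : IsAlgebraic ℚ (tau : ℂ) := by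
    have h2 : (tau : ℂ) = (q : ℂ)⁻¹ * ((q : ℂ) * tau) := by
      rw [← mul_assoc, inv_mul_cancel₀ (by exact_mod_cast hq), one_mul]
    rw [h2]
    exact (isAlgebraic_algebraMap (R := ℚ) (A := ℂ) q).inv.mul h
  have h2 : D tau = 0 := der_alg D h1
  rw [h2, zero_div, map_zero] at hne
  exact hne rfl

/-- A linear combination of logarithms of algebraic numbers and of a rational multiple of `2 π i` is
zero if it is algebraic. -/
theorem log_zero {ι : Type} [Fintype ι] [DecidableEq ι] (x : ι → ℂ)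
    (hx : ∀ i, IsAlgebraic ℚ (Complex.exp (x i)))
    (m : ι → ℚ) (r : ℚ) (h : IsAlgebraic ℚ (∑ i, (m i : ℂ) * x i - tau * r)) :
    ∑ i, (m i : ℂ) * x i = r * tau := by
  obtain ⟨N, M, k, hN, hM, hk⟩ := log_rel x hx m r h
  have h3 : ∀ i, (M i : ℂ) = N * m i := fun i => by
    exact_mod_cast congrArg (fun q : ℚ => (q : ℂ)) (hM i)
  replace hk : (N : ℂ) * ∑ i, (m i : ℂ) * x i = k * tau := by
    rw [← hk, Finset.mul_sum]
    refine Finset.sum_congr rfl fun i _ => ?_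
    rw [h3, mul_assoc]
  have h4 : IsAlgebraic ℚ (((k - N * r : ℚ) : ℂ) * tau) := by
    have h5 : (((k - N * r : ℚ) : ℂ) * tau) = (N : ℂ) * (∑ i, (m i : ℂ) * x i - tau * r) := by
      rw [mul_sub, hk]
      push_cast
      ring
    rw [h5]
    exact (isAlgebraic_natCast (R := ℚ) (A := ℂ) N).mul h
  have h5 := tau_rat h4
  have h6 : (k : ℂ) = N * r := by
    have h7 : (k : ℚ) = N * r := sub_eq_zero.1 h5
    exact_mod_cast congrArg (fun q : ℚ => (q : ℂ)) h7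
  have h8 : (N : ℂ) ≠ 0 := by exact_mod_cast hN.ne'
  refine mul_left_cancel₀ h8 ?_
  rw [hk, h6, mul_assoc]

/-- The relation of logarithms given by a functional which vanishes on the brackets. -/
theorem phi_log (h : Lg 𝔤 d) {S : Set (Fin s)} {φ : (Fin n → Fin s → ℚ) →ₗ[ℚ] ℚ} {ρ : ℚ}
    (hρ : ∀ L ∈ 𝔤, φ L.2.2.2 = 2 * L.2.1 * ρ)
    (hm : ∀ i l, l ∉ S → φ (Pi.single i (Pi.single l 1)) = 0)
    (hP : ∀ l ∈ S, ∀ c, d.P (Sum.inr l) c = 0)
    (hℓ : ∀ i, ∀ l ∈ S, IsAlgebraic ℚ (Complex.exp (d.ℓ i l))) :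
    ∑ i, ∑ l, ((φ (Pi.single i (Pi.single l 1)) : ℚ) : ℂ) * d.ℓ i l = ρ * tau := by
  classical
  have htau : (tau : ℂ) ≠ 0 := AbVar.tau_ne
  obtain ⟨m, hmdef⟩ : ∃ m : Fin n → Fin s → ℚ, m = fun i l =>
    φ (Pi.single i (Pi.single l 1)) := ⟨_, rfl⟩
  have hm' : ∀ i l, l ∉ S → m i l = 0 := fun i l hl => by rw [hmdef]; exact hm i l hl
  have hφ : ∀ t : Fin n → Fin s → ℚ, φ t = ∑ i, ∑ l, m i l * t i l := by
    intro t
    rw [functional_eq φ t, hmdef]
  have e0 : ∑ i, ∑ l, ((φ (Pi.single i (Pi.single l 1)) : ℚ) : ℂ) * d.ℓ i l =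
      ∑ i, ∑ l, (m i l : ℂ) * d.ℓ i l := by rw [hmdef]
  rw [e0]
  have hder : ∀ D : Derivation QBar ℂ ℂ,
      D (∑ i, ∑ l, (m i l : ℂ) * d.ℓ i l - (ρ : ℂ) * tau) = 0 := by
    intro D
    have h1 : ∀ lam : ℂ →ₗ[ℚ] ℚ, lam (∑ i, ∑ l, (m i l : ℂ) * tD d D i l -
        (ρ : ℂ) * (D tau / tau)) = 0 := by
      intro lam
      have h2 := hρ _ (h.per D lam)
      rw [hφ] at h2
      change ∑ i, ∑ l, m i l * lam (tD d D i l) = 2 * lam (D tau / (2 * tau)) * ρ at h2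
      have h3 : 2 * lam (D tau / (2 * tau)) * ρ = lam ((ρ : ℂ) * (D tau / tau)) := by
        have h4 : (ρ : ℂ) * (D tau / tau) = (2 * ρ) • (D tau / (2 * tau)) := by
          rw [Rat.smul_def]
          push_cast
          field_simp
        rw [h4, map_smul, smul_eq_mul]
        ring
      rw [map_sub, ← h3, ← h2, map_sum, sub_eq_zero]
      refine Finset.sum_congr rfl fun i _ => ?_
      rw [map_sum]
      refine Finset.sum_congr rfl fun l _ => ?_
      rw [← Rat.smul_def, map_smul, smul_eq_mul]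
    have h2 := eq_zero_of_dual h1
    have h3 : ∑ i, ∑ l, (m i l : ℂ) * tD d D i l =
        (∑ i, ∑ l, (m i l : ℂ) * D (d.ℓ i l)) / tau := by
      rw [Finset.sum_div]
      refine Finset.sum_congr rfl fun i _ => ?_
      rw [Finset.sum_div]
      refine Finset.sum_congr rfl fun l _ => ?_
      by_cases hl : l ∈ S
      · unfold tD
        simp only [hP l hl, zero_mul, sub_zero, Finset.sum_const_zero]
        ring
      · rw [hm' i l hl]
        simp
    rw [h3, sub_eq_zero, div_eq_iff htau] at h2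
    rw [map_sub, map_sum, der_rat_mul]
    have h4 : ∑ i, D (∑ l, (m i l : ℂ) * d.ℓ i l) = ∑ i, ∑ l, (m i l : ℂ) * D (d.ℓ i l) := by
      refine Finset.sum_congr rfl fun i _ => ?_
      rw [map_sum]
      exact Finset.sum_congr rfl fun l _ => der_rat_mul D _ _
    rw [h4, h2]
    field_simp
    ring
  obtain ⟨x, hx⟩ := mem_of_derivation hder
  have halg : IsAlgebraic ℚ (∑ i, ∑ l, (m i l : ℂ) * d.ℓ i l - (ρ : ℂ) * tau) := by
    rw [← hx]
    exact QBar.alg x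
  have e1 : ∑ i, ∑ l, (m i l : ℂ) * d.ℓ i l =
      ∑ c : Fin n × Fin s, (m c.1 c.2 : ℂ) * (if c.2 ∈ S then d.ℓ c.1 c.2 else 0) := by
    rw [Fintype.sum_prod_type]
    refine Finset.sum_congr rfl fun i _ => Finset.sum_congr rfl fun l _ => ?_
    by_cases hl : l ∈ S
    · rw [if_pos hl]
    · rw [hm' i l hl]
      simp
  rw [e1] at halg ⊢
  rw [mul_comm (ρ : ℂ)] at halg
  refine log_zero _ (fun c => ?_) _ _ halg
  split_ifs with hl
  · exact hℓ _ _ hl
  · rw [Complex.exp_zero]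
    exact isAlgebraic_one

end Pool.Agent.R917.OM
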