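import Pool.Agent.R917.OM.Rel

set_option autoImplicit false
set_option linter.unusedSectionVars false
set_option linter.unusedSimpArgs false

/-!
# The part of weight minus two
-/

open Module Function TensorProduct Matrix

noncomputable section

namespace Pool.Agent.R917.OM

open Pool.Agent.Y102 Pool.Agent.W516.DR Pool.Agent.H204R3.GP Pool.Agent.W516.KC
  Pool.Agent.H204R3.SP Pool.Agent.TH119.MX

variable {g : ℕ} {A : AbVar g} {n s : ℕ} {𝔤 : Submodule ℚ (Tup A n s)} {d : Dt g n s}

/-- the part of weight minus two -/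
def tt (𝔤 : Submodule ℚ (Tup A n s)) : Submodule ℚ (Fin n → Fin s → ℚ) where
  carrier := {t | ((0, 0, 0, t) : Tup A n s) ∈ 𝔤}
  zero_mem' := 𝔤.zero_mem
  add_mem' := by
    intro t t' ht ht'
    have h1 := 𝔤.add_mem ht ht'
    simpa using h1
  smul_mem' := by
    intro c t ht
    have h1 := 𝔤.smul_mem c ht
    simpa using h1

theorem mem_tt {t : Fin n → Fin s → ℚ} : t ∈ tt 𝔤 ↔ ((0, 0, 0, t) : Tup A n s) ∈ 𝔤 := Iff.rfl

/-! ### The case of full unipotent part -/

/-- If the unipotent part is everything in weight minus one then it is in weight minus two. -/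
theorem full_of_uu (h : Lg 𝔤 d) (hg : 0 < g) (hu : ∀ z, z ∈ uu 𝔤)
    (z : (Fin n ⊕ Fin s) → A.H1) (t : Fin n → Fin s → ℚ) : ((0, 0, z, t) : Tup A n s) ∈ 𝔤 := by
  classical
  obtain ⟨y, x, hyx⟩ : ∃ y x : A.H1, A.om y x ≠ 0 := by
    by_contra hcon
    push Not at hcon
    have h1 : ∀ y : A.H1, y = 0 := fun y => A.om_nondeg fun x => hcon y x
    have h2 := h1 (Pi.single ⟨0, by omega⟩ 1)
    have h3 := congrFun h2 ⟨0, by omega⟩
    rw [Pi.single_eq_same] at h3
    exact one_ne_zero h3
  have h1 : ∀ i l, (Pi.single i (Pi.single l 1) : Fin n → Fin s → ℚ) ∈ tt 𝔤 := by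
    intro i l
    obtain ⟨t1, ht1⟩ := hu (Pi.single (Sum.inr l) y)
    obtain ⟨t2, ht2⟩ := hu (Pi.single (Sum.inl i) x)
    have h2 := h.br _ ht1 _ ht2
    have h3 : ((0, 0, 0, Pi.single i (Pi.single l (A.om y x))) : Tup A n s) ∈ 𝔤 := by
      convert h2 using 1
      refine Prod.ext ?_ (Prod.ext rfl (Prod.ext ?_ ?_))
      · simp [OM.br]
      · funext p
        simp [OM.br, op_apply]
      · funext i' l'
        simp only [OM.br, mul_zero, zero_mul, add_zero, sub_zero]
        by_cases hi : i' = i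
        · subst hi
          by_cases hl : l' = l
          · subst hl
            rw [Pi.single_eq_same, Pi.single_eq_same, Pi.single_eq_same, Pi.single_eq_same,
              Pi.single_eq_of_ne (by simp), Pi.single_eq_of_ne (by simp), map_zero, sub_zero]
          · rw [Pi.single_eq_same, Pi.single_eq_of_ne hl,
              Pi.single_eq_of_ne (i := Sum.inr l) (by simpa using hl),
              Pi.single_eq_of_ne (i := Sum.inl i') (i' := Sum.inr l') (by simp)]
            simp
        · rw [Pi.single_eq_of_ne hi, Pi.single_eq_of_ne (i := Sum.inl i) (by simpa using hi),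
              Pi.single_eq_of_ne (i := Sum.inl i) (i' := Sum.inr l') (by simp)]
          simp
    have h4 := (tt 𝔤).smul_mem (A.om y x)⁻¹ (mem_tt.2 h3)
    convert h4 using 1
    funext i' l'
    by_cases hi : i' = i
    · subst hi
      by_cases hl : l' = l
      · subst hl
        simp [hyx]
      · simp [hl]
    · simp [hi]
  have h2 : ∀ t : Fin n → Fin s → ℚ, t ∈ tt 𝔤 := by
    intro t
    have h3 : t = ∑ i, ∑ l, t i l • (Pi.single i (Pi.single l 1) : Fin n → Fin s → ℚ) := by
      funext i' l'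
      simp only [Finset.sum_apply, Pi.smul_apply]
      rw [Finset.sum_eq_single i', Finset.sum_eq_single l']
      · simp
      · intro l _ hl
        rw [Pi.single_eq_same, Pi.single_eq_of_ne hl.symm, smul_zero]
      · intro hh
        exact absurd (Finset.mem_univ _) hh
      · intro i _ hi
        refine Finset.sum_eq_zero fun l _ => ?_
        rw [Pi.single_eq_of_ne hi.symm, Pi.zero_apply, smul_zero]
      · intro hh
        exact absurd (Finset.mem_univ _) hh
    rw [h3]
    exact Submodule.sum_mem _ fun i _ => Submodule.sum_mem _ fun l _ =>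
      Submodule.smul_mem _ _ (h1 i l)
  obtain ⟨t', ht'⟩ := hu z
  have h3 := 𝔤.add_mem ht' (mem_tt.1 (h2 (t - t')))
  simpa using h3

/-! ### The split case -/

section split

variable (hy : ∀ L ∈ 𝔤, ∀ l, L.2.2.1 (Sum.inr l) = 0)

include hy in
theorem br_split (h : Lg 𝔤 d) {Z L : Tup A n s} (hZ : Z ∈ 𝔤) (hL : L ∈ 𝔤) :
    (br Z L).2.2.2 = fun i l => 2 * Z.2.1 * L.2.2.2 i l - 2 * L.2.1 * Z.2.2.2 i l := by
  funext i l
  simp only [br, hy Z hZ, hy L hL, map_zero, LinearMap.zero_apply, sub_zero, zero_add]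

include hy in
/-- The unipotent part is graded. -/
theorem graded (h : Lg 𝔤 d) {z : (Fin n ⊕ Fin s) → A.H1} {t : Fin n → Fin s → ℚ}
    (hz : ((0, 0, z, t) : Tup A n s) ∈ 𝔤) : t ∈ tt 𝔤 := by
  obtain ⟨Z, hZ, hc0, hcen⟩ := exists_central h
  let V : Type := ((Fin n ⊕ Fin s) → A.H1) × (Fin n → Fin s → ℚ)
  let Ad : Module.End ℚ (((Fin n ⊕ Fin s) → A.H1) × (Fin n → Fin s → ℚ)) :=
    { toFun := fun x => (fun p => op Z (x.1 p), (2 * Z.2.1) • x.2)
      map_add' := fun x y => by
        refine Prod.ext ?_ ?_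
        · funext p
          simp
        · simp
      map_smul' := fun c x => by
        refine Prod.ext ?_ ?_
        · funext p
          simp
        · simp only [Prod.smul_snd, RingHom.id_apply]
          rw [smul_comm] }
  let S : Submodule ℚ (((Fin n ⊕ Fin s) → A.H1) × (Fin n → Fin s → ℚ)) :=
    { carrier := {x | ((0, 0, x.1, x.2) : Tup A n s) ∈ 𝔤}
      zero_mem' := 𝔤.zero_mem
      add_mem' := by
        intro x y hx hy
        have h1 := 𝔤.add_mem hx hy
        simpa using h1
      smul_mem' := by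
        intro c x hx
        have h1 := 𝔤.smul_mem c hx
        simpa using h1 }
  have hAd : ∀ x ∈ S, Ad x ∈ S := by
    intro x hx
    have h1 := h.br Z hZ _ hx
    have h2 := br_split hy h hZ hx
    change ((0, 0, (fun p => op Z (x.1 p)), (2 * Z.2.1) • x.2) : Tup A n s) ∈ 𝔤
    convert h1 using 1
    refine Prod.ext ?_ (Prod.ext rfl (Prod.ext ?_ ?_))
    · simp [OM.br]
    · funext p
      simp [OM.br, op_apply]
    · rw [h2]
      funext i l
      simp
  have hp : ∀ p : Polynomial ℚ, ∀ x ∈ S, (fun q => Polynomial.aeval (op Z) p (x.1 q),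
      p.eval (2 * Z.2.1) • x.2) ∈ S := by
    intro p
    induction p using Polynomial.induction_on with
    | C a =>
      intro x hx
      have h1 := S.smul_mem a hx
      convert h1 using 1
      refine Prod.ext ?_ ?_
      · funext q
        simp
      · simp
    | add p q hp hq =>
      intro x hx
      have h1 := S.add_mem (hp x hx) (hq x hx)
      convert h1 using 1
      refine Prod.ext ?_ ?_
      · funext q
        simp
      · simp [add_smul]
    | monomial k a ih =>
      intro x hx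
      have h1 := ih (Ad x) (hAd x hx)
      convert h1 using 1
      refine Prod.ext ?_ ?_
      · funext q
        change _ = (Polynomial.aeval (op Z) (Polynomial.C a * Polynomial.X ^ k)) (op Z (x.1 q))
        rw [pow_succ, ← mul_assoc, map_mul, Polynomial.aeval_X]
        rfl
      · change _ = Polynomial.eval _ (Polynomial.C a * Polynomial.X ^ k) • ((2 * Z.2.1) • x.2)
        rw [smul_smul, pow_succ, ← mul_assoc, Polynomial.eval_mul, Polynomial.eval_X]
  have h1 := hp (minpoly ℚ (op Z)) (z, t) hz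
  have h2 : (minpoly ℚ (op Z)).eval (2 * Z.2.1) ≠ 0 := by
    intro h0
    have h3 : (op Z).HasEigenvalue (2 * Z.2.1) := by
      rw [Module.End.hasEigenvalue_iff_isRoot]
      exact h0
    obtain ⟨x, hx⟩ := h3.exists_hasEigenvector
    apply hx.2
    have h4 := hx.apply_eq_smul
    refine inj_central h ⟨Z, hZ, rfl⟩ (by
      rintro _ ⟨L, hL, rfl⟩
      exact hcen L hL) (neg_ne_zero.2 hc0) ?_
    rw [op_apply] at h4
    change Z.1 x + -Z.2.1 • x = 0
    have h5 : Z.1 x = (2 * Z.2.1) • x - Z.2.1 • x := by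
      rw [← h4, add_sub_cancel_right]
    rw [h5, ← sub_smul, ← add_smul]
    have h6 : 2 * Z.2.1 - Z.2.1 + -Z.2.1 = 0 := by ring
    rw [h6, zero_smul]
  have h3 : ((0, 0, 0, (minpoly ℚ (op Z)).eval (2 * Z.2.1) • t) : Tup A n s) ∈ 𝔤 := by
    have h4 : ((fun q => Polynomial.aeval (op Z) (minpoly ℚ (op Z)) (z q)) :
        (Fin n ⊕ Fin s) → A.H1) = 0 := by
      funext q
      rw [minpoly.aeval]
      rfl
    have h5 : ((0, 0, (fun q => Polynomial.aeval (op Z) (minpoly ℚ (op Z)) (z q)),
        (minpoly ℚ (op Z)).eval (2 * Z.2.1) • t) : Tup A n s) ∈ 𝔤 := h1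
    rwa [h4] at h5
  have h4 := (tt 𝔤).smul_mem ((minpoly ℚ (op Z)).eval (2 * Z.2.1))⁻¹ (mem_tt.2 h3)
  rwa [smul_smul, inv_mul_cancel₀ h2, one_smul] at h4

include hy in
/-- The component of weight minus two of the Levi subgroup. -/
theorem exists_levi_t (h : Lg 𝔤 d) : ∃ r : Fin n → Fin s → ℚ, ∀ L ∈ 𝔤,
    (fun i l => L.2.2.2 i l - 2 * L.2.1 * r i l) ∈ tt 𝔤 := by
  obtain ⟨Z, hZ, hc0, hcen⟩ := exists_central h
  refine ⟨fun i l => Z.2.2.2 i l / (2 * Z.2.1), fun L hL => ?_⟩
  have h1 := h.br Z hZ L hL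
  have h2 := br_split hy h hZ hL
  have h3 : (br Z L).2.2.2 ∈ tt 𝔤 := by
    refine graded hy h (z := (br Z L).2.2.1) ?_
    convert h1 using 1
    refine Prod.ext ?_ (Prod.ext rfl (Prod.ext rfl rfl))
    change 0 = Z.1 * L.1 - L.1 * Z.1
    rw [hcen L hL, sub_self]
  have h4 := (tt 𝔤).smul_mem (2 * Z.2.1)⁻¹ h3
  rw [h2] at h4
  convert h4 using 1
  funext i l
  simp only [Pi.smul_apply, smul_eq_mul]
  field_simp

end split

end Pool.Agent.R917.OM
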