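import Pool.Agent.R917.OM.Tor

set_option autoImplicit false
set_option linter.unusedSectionVars false
set_option linter.unusedSimpArgs false

/-!
# The part of weight minus two and the multiplicative relations
-/

open Module Function TensorProduct Matrix

noncomputable section

namespace Pool.Agent.R917.OM

open Pool.Agent.Y102 Pool.Agent.W516.DR Pool.Agent.H204R3.GP Pool.Agent.W516.KC
  Pool.Agent.H204R3.SP Pool.Agent.TH119.MX

variable {g : ℕ} {A : AbVar g} {n s : ℕ} {𝔤 : Submodule ℚ (Tup A n s)} {d : Dt g n s}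

/-- If a linear combination of logarithms of algebraic numbers and of a rational multiple of `2 π i`
is algebraic then a multiple is a multiplicative relation. -/
theorem log_rel {ι : Type} [Fintype ι] [DecidableEq ι] (x : ι → ℂ)
    (hx : ∀ i, IsAlgebraic ℚ (Complex.exp (x i)))
    (m : ι → ℚ) (r : ℚ) (h : IsAlgebraic ℚ (∑ i, (m i : ℂ) * x i - tau * r)) :
    ∃ (N : ℕ) (M : ι → ℤ) (k : ℤ), 0 < N ∧ (∀ i, (M i : ℚ) = N * m i) ∧
      ∑ i, (M i : ℂ) * x i = k * tau := by
  obtain ⟨N, hN⟩ : ∃ N : ℕ, N = r.den * ∏ i, (m i).den := ⟨_, rfl⟩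
  have hN0 : 0 < N := by
    rw [hN]
    exact Nat.mul_pos r.den_pos (Finset.prod_pos fun i _ => (m i).den_pos)
  have hM : ∀ i, ∃ M : ℤ, (M : ℚ) = N * m i := by
    intro i
    refine ⟨(r.den * ∏ j ∈ Finset.univ.erase i, (m j).den : ℕ) * (m i).num, ?_⟩
    have h2 : (∏ j, (m j).den) = (m i).den * ∏ j ∈ Finset.univ.erase i, (m j).den :=
      (Finset.mul_prod_erase _ _ (Finset.mem_univ i)).symm
    have h3 : ((m i).den : ℚ) * m i = (m i).num := Rat.den_mul_eq_num (m i)
    rw [hN, h2]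
    push_cast
    rw [← h3]
    ring
  choose M hM using hM
  have hk : ((r.num * ∏ i, ((m i).den : ℤ) : ℤ) : ℚ) = N * r := by
    have h3 : (r.den : ℚ) * r = r.num := Rat.den_mul_eq_num r
    rw [hN]
    push_cast
    rw [← h3]
    ring
  obtain ⟨k, hkk⟩ : ∃ k : ℤ, k = r.num * ∏ i, ((m i).den : ℤ) := ⟨_, rfl⟩
  rw [← hkk] at hk
  refine ⟨N, M, k, hN0, hM, ?_⟩
  have h1 : IsAlgebraic ℚ ((N : ℂ) * (∑ i, (m i : ℂ) * x i - tau * r)) :=
    (isAlgebraic_natCast (R := ℚ) (A := ℂ) N).mul h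
  have h2 : (N : ℂ) * (∑ i, (m i : ℂ) * x i - tau * r) = ∑ i, (M i : ℂ) * x i - k * tau := by
    have h3 : ∀ i, (M i : ℂ) = N * m i := fun i => by exact_mod_cast congrArg (fun q : ℚ => (q : ℂ)) (hM i)
    have h4 : (k : ℂ) = N * r := by exact_mod_cast congrArg (fun q : ℚ => (q : ℂ)) hk
    simp only [h3]
    rw [h4, mul_sub, Finset.mul_sum]
    congr 1
    · exact Finset.sum_congr rfl fun i _ => by ring
    · ring
  rw [h2] at h1
  have h3 : IsAlgebraic ℚ (Complex.exp (∑ i, (M i : ℂ) * x i - k * tau)) := by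
    have h4 : Complex.exp (∑ i, (M i : ℂ) * x i - k * tau) =
        ∏ i, Complex.exp (x i) ^ (M i) := by
      rw [Complex.exp_sub]
      have h5 : Complex.exp ((k : ℂ) * tau) = 1 := by
        have : (tau : ℂ) = 2 * Real.pi * Complex.I := rfl
        rw [this]
        exact Complex.exp_int_mul_two_pi_mul_I k
      rw [h5, div_one, Complex.exp_sum]
      exact Finset.prod_congr rfl fun i _ => by rw [Complex.exp_int_mul]
    rw [h4]
    have h5 : ∀ S : Finset ι, IsAlgebraic ℚ (∏ i ∈ S, Complex.exp (x i) ^ (M i)) := by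
      intro S
      induction S using Finset.induction_on with
      | empty =>
        rw [Finset.prod_empty]
        exact isAlgebraic_one
      | insert a S ha ih =>
        rw [Finset.prod_insert ha]
        refine IsAlgebraic.mul ?_ ih
        rcases Int.eq_nat_or_neg (M a) with ⟨e, he | he⟩
        · rw [he, zpow_natCast]
          exact (hx a).pow e
        · rw [he, _root_.zpow_neg, zpow_natCast]
          exact ((hx a).pow e).inv
    exact h5 _
  by_contra hne
  exact (Pool.Agent.H340R2.LW.transcendental_cexp _ h1 (sub_ne_zero.2 hne)) h3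

theorem der_rat (D : Derivation QBar ℂ ℂ) (q : ℚ) : D (q : ℂ) = 0 := by
  have h3 : ((q : ℚ) : ℂ) = algebraMap QBar ℂ (algebraMap ℚ QBar q) := rfl
  rw [h3, Derivation.map_algebraMap]

theorem der_rat_mul (D : Derivation QBar ℂ ℂ) (q : ℚ) (x : ℂ) : D ((q : ℂ) * x) = q * D x := by
  rw [Derivation.leibniz, der_rat, smul_zero, add_zero, smul_eq_mul]

theorem der_comb (D : Derivation QBar ℂ ℂ) {ι : Type} [Fintype ι] (T : ℂ) (hT : T ≠ 0)
    (m r : ι → ℚ) (x : ι → ℂ) : D (∑ c, (m c : ℂ) * x c - T * ((∑ c, m c * r c : ℚ) : ℂ)) =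
      T * ∑ c, (m c : ℂ) * ((D (x c) - D T * (r c : ℂ)) / T) := by
  rw [map_sub, map_sum, mul_comm T, der_rat_mul]
  simp only [der_rat_mul]
  push_cast
  rw [Finset.sum_mul, ← Finset.sum_sub_distrib, Finset.mul_sum]
  refine Finset.sum_congr rfl fun c _ => ?_
  field_simp

/-- **The part of weight minus two.** -/
theorem mem_tt_of_rel (h : Lg 𝔤 d) (hy : ∀ L ∈ 𝔤, ∀ l, L.2.2.1 (Sum.inr l) = 0)
    (hP : ∀ l c, d.P (Sum.inr l) c = 0) (hℓ : ∀ i l, IsAlgebraic ℚ (Complex.exp (d.ℓ i l)))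
    {t : Fin n → Fin s → ℚ}
    (ht : ∀ M : Fin n → Fin s → ℤ, (∃ k : ℤ, ∑ i, ∑ l, (M i l : ℂ) * d.ℓ i l = k * tau) →
      ∑ i, ∑ l, (M i l : ℚ) * t i l = 0) : t ∈ tt 𝔤 := by
  classical
  obtain ⟨r, hr⟩ := exists_levi_t hy h
  by_contra hcon
  obtain ⟨φ, hφ2, hφ1⟩ := Submodule.exists_le_ker_of_notMem hcon
  let m : Fin n × Fin s → ℚ := fun c => φ (Pi.single c.1 (Pi.single c.2 1))
  have hφ : ∀ t : Fin n → Fin s → ℚ, φ t = ∑ c : Fin n × Fin s, m c * t c.1 c.2 := by
    intro t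
    have h3 : t = ∑ c : Fin n × Fin s, t c.1 c.2 •
        (Pi.single c.1 (Pi.single c.2 1) : Fin n → Fin s → ℚ) := by
      funext i' l'
      rw [Finset.sum_apply, Finset.sum_apply, Finset.sum_eq_single (i', l')]
      · simp
      · rintro ⟨i, l⟩ _ hne
        simp only [Pi.smul_apply, smul_eq_mul]
        by_cases hi : i = i'
        · subst hi
          have hl : l ≠ l' := fun hh => hne (by rw [hh])
          rw [Pi.single_eq_same, Pi.single_eq_of_ne hl.symm, mul_zero]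
        · rw [Pi.single_eq_of_ne (Ne.symm hi), Pi.zero_apply, mul_zero]
      · intro hh
        exact absurd (Finset.mem_univ _) hh
    conv_lhs => rw [h3, map_sum]
    refine Finset.sum_congr rfl fun c _ => ?_
    rw [map_smul, smul_eq_mul, mul_comm]
  have htau : (tau : ℂ) ≠ 0 := AbVar.tau_ne
  have hder : ∀ D : Derivation QBar ℂ ℂ,
      D (∑ c, (m c : ℂ) * d.ℓ c.1 c.2 - tau * ((∑ c, m c * r c.1 c.2 : ℚ) : ℂ)) = 0 := by
    intro D
    have h1 : ∀ lam : ℂ →ₗ[ℚ] ℚ, lam (∑ c, (m c : ℂ) * ((D (d.ℓ c.1 c.2) -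
        D tau * (r c.1 c.2 : ℂ)) / tau)) = 0 := by
      intro lam
      have h2 := hφ1 (hr _ (h.per D lam))
      rw [LinearMap.mem_ker, hφ] at h2
      rw [← h2, map_sum]
      refine Finset.sum_congr rfl fun c _ => ?_
      rw [← Rat.smul_def, map_smul, smul_eq_mul]
      congr 1
      change _ = lam (tD d D c.1 c.2) - 2 * lam (D tau / (2 * tau)) * r c.1 c.2
      have h3 : 2 * lam (D tau / (2 * tau)) * r c.1 c.2 =
          lam (D tau / tau * (r c.1 c.2 : ℂ)) := by
        have h4 : D tau / tau * (r c.1 c.2 : ℂ) = (2 * r c.1 c.2) • (D tau / (2 * tau)) := by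
          rw [Rat.smul_def]
          push_cast
          field_simp
        rw [h4, map_smul, smul_eq_mul]
        ring
      rw [h3, ← map_sub]
      congr 1
      unfold tD
      simp only [hP, zero_mul, sub_zero, Finset.sum_const_zero]
      ring
    have h2 : ∑ c, (m c : ℂ) * ((D (d.ℓ c.1 c.2) - D tau * (r c.1 c.2 : ℂ)) / tau) = 0 :=
      eq_zero_of_dual h1
    have h3 := der_comb D tau htau m (fun c => r c.1 c.2) (fun c : Fin n × Fin s => d.ℓ c.1 c.2)
    rw [h3, h2, mul_zero]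
  obtain ⟨x, hx⟩ := mem_of_derivation hder
  have halg : IsAlgebraic ℚ (∑ c, (m c : ℂ) * d.ℓ c.1 c.2 -
      tau * ((∑ c, m c * r c.1 c.2 : ℚ) : ℂ)) := by
    rw [← hx]
    exact QBar.alg x
  obtain ⟨N, M, k, hN, hM, hk⟩ := log_rel (fun c : Fin n × Fin s => d.ℓ c.1 c.2)
    (fun c => hℓ _ _) m _ halg
  have h1 := ht (fun i l => M (i, l)) ⟨k, by
    rw [← hk, Fintype.sum_prod_type]⟩
  apply hφ2
  rw [hφ]
  have h2 : (N : ℚ) * ∑ c : Fin n × Fin s, m c * t c.1 c.2 = 0 := by
    rw [← h1, Finset.mul_sum, Fintype.sum_prod_type]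
    refine Finset.sum_congr rfl fun i _ => Finset.sum_congr rfl fun l _ => ?_
    rw [hM (i, l)]
    ring
  exact (mul_eq_zero.1 h2).resolve_left (by exact_mod_cast hN.ne')

end Pool.Agent.R917.OM
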