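import Pool.Agent.R917.MT

set_option autoImplicit false
set_option linter.unusedSectionVars false
set_option linter.unusedSimpArgs false

/-!
# The Lie algebra of the parabolic group of a 1-motive
-/

open Module Function TensorProduct Matrix

noncomputable section

namespace Pool.Agent.R917.OM

open Pool.Agent.Y102 Pool.Agent.W516.DR Pool.Agent.H204R3.GP Pool.Agent.W516.KC
  Pool.Agent.H204R3.SP Pool.Agent.TH119.MX

variable {g : ℕ} (A : AbVar g) (n s : ℕ)

/-- the indices of the basis of the Betti realization -/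
abbrev RI (g n s : ℕ) : Type := Fin (2 * g) ⊕ (Fin s ⊕ Fin n)

/-- The elements of the Lie algebra: `a`, `c`, the vectors `z`, the numbers `t`. The endomorphism is
`a + c` on the first homology of the abelian variety, `2 c` on that of the torus. -/
abbrev Tup : Type := (Module.End ℚ A.H1) × ℚ × ((Fin n ⊕ Fin s) → A.H1) × (Fin n → Fin s → ℚ)

/-- the basis vector -/
def eb (j : Fin (2 * g)) : A.H1 := Pi.single j 1

variable {A n s}

/-- the endomorphism of the first homology of the abelian variety -/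
def op (L : Tup A n s) : Module.End ℚ A.H1 := L.1 + L.2.1 • 1

theorem op_apply (L : Tup A n s) (w : A.H1) : op L w = L.1 w + L.2.1 • w := rfl

/-- the matrix (in terms of rows) -/
def mtQ (L : Tup A n s) : Matrix (RI g n s) (RI g n s) ℚ := Matrix.of fun r r' =>
  Sum.elim (fun j => Sum.elim (fun j' => op L (eb A j) j')
      (Sum.elim (fun l => A.om (L.2.2.1 (Sum.inr l)) (eb A j)) (fun _ => 0)) r')
    (Sum.elim
      (fun l => Sum.elim (fun _ => 0) (Sum.elim (fun l' => if l = l' then 2 * L.2.1 else 0)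
        (fun _ => 0)) r')
      (fun i => Sum.elim (fun j' => L.2.2.1 (Sum.inl i) j')
        (Sum.elim (fun l => L.2.2.2 i l) (fun _ => 0)) r')) r

/-- the complex matrix -/
def mt (L : Tup A n s) : Matrix (RI g n s) (RI g n s) ℂ := (mtQ L).map (algebraMap ℚ ℂ)

theorem op_add (L L' : Tup A n s) : op (L + L') = op L + op L' := by
  unfold op
  rw [Prod.fst_add, Prod.snd_add, Prod.fst_add, add_smul]
  abel

theorem op_smul (q : ℚ) (L : Tup A n s) : op (q • L) = q • op L := by
  unfold op
  rw [Prod.smul_fst, Prod.smul_snd, Prod.smul_fst, smul_add, smul_eq_mul, mul_smul]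

theorem mtQ_add (L L' : Tup A n s) : mtQ (L + L') = mtQ L + mtQ L' := by
  ext r r'
  rcases r with j | l | i <;> rcases r' with j' | l' | i' <;>
    simp only [mtQ, Matrix.of_apply, Matrix.add_apply, Sum.elim_inl, Sum.elim_inr, add_zero,
      Prod.fst_add, Prod.snd_add, Pi.add_apply, LinearMap.add_apply, map_add, mul_add, op_add]
  split_ifs <;> simp

theorem mtQ_smul (q : ℚ) (L : Tup A n s) : mtQ (q • L) = q • mtQ L := by
  ext r r'
  rcases r with j | l | i <;> rcases r' with j' | l' | i' <;>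
    simp only [mtQ, Matrix.of_apply, Matrix.smul_apply, Sum.elim_inl, Sum.elim_inr, smul_zero,
      Prod.smul_fst, Prod.smul_snd, Pi.smul_apply, LinearMap.smul_apply, op_smul,
      map_smul, smul_eq_mul, mul_zero]
  split_ifs <;> ring

theorem mtQ_zero : mtQ (0 : Tup A n s) = 0 := by
  have h := mtQ_smul (0 : ℚ) (0 : Tup A n s)
  rwa [zero_smul, zero_smul] at h

theorem mt_add (L L' : Tup A n s) : mt (L + L') = mt L + mt L' := by
  unfold mt
  rw [mtQ_add, Matrix.map_add _ (map_add _)]

theorem mt_smul (q : ℚ) (L : Tup A n s) : mt (q • L) = (q : ℂ) • mt L := by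
  unfold mt
  rw [mtQ_smul]
  ext r r'
  simp only [Matrix.map_apply, Matrix.smul_apply, smul_eq_mul, map_mul]
  rfl

theorem mt_zero : mt (0 : Tup A n s) = 0 := by
  unfold mt
  rw [mtQ_zero, Matrix.map_zero _ (map_zero _)]

/-- the bracket -/
def br (L L' : Tup A n s) : Tup A n s :=
  (L.1 * L'.1 - L'.1 * L.1, 0,
    fun p => op L (L'.2.2.1 p) - op L' (L.2.2.1 p),
    fun i l => A.om (L.2.2.1 (Sum.inr l)) (L'.2.2.1 (Sum.inl i)) -
      A.om (L'.2.2.1 (Sum.inr l)) (L.2.2.1 (Sum.inl i)) + 2 * L.2.1 * L'.2.2.2 i l -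
        2 * L'.2.1 * L.2.2.2 i l)

theorem lin_sum {S : Type*} [AddCommGroup S] [Module ℚ S] (f : A.H1 →ₗ[ℚ] S) (w : A.H1) :
    f w = ∑ j, w j • f (eb A j) := by
  conv_lhs => rw [← (Pi.basisFun ℚ (Fin (2 * g))).sum_repr w]
  rw [map_sum]
  refine Finset.sum_congr rfl fun j _ => ?_
  rw [map_smul, Pi.basisFun_repr, Pi.basisFun_apply]
  rfl

theorem mtQ_mul (L L' : Tup A n s) : mtQ L' * mtQ L = Matrix.of fun r r' =>
    Sum.elim (fun j => Sum.elim (fun j' => op L (op L' (eb A j)) j')
      (Sum.elim (fun l => A.om (L.2.2.1 (Sum.inr l)) (op L' (eb A j)) +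
        2 * L.2.1 * A.om (L'.2.2.1 (Sum.inr l)) (eb A j)) (fun _ => 0)) r')
    (Sum.elim
      (fun l => Sum.elim (fun _ => 0) (Sum.elim (fun l' => if l = l' then 2 * L.2.1 *
        (2 * L'.2.1) else 0) (fun _ => 0)) r')
      (fun i => Sum.elim (fun j' => op L (L'.2.2.1 (Sum.inl i)) j')
        (Sum.elim (fun l => A.om (L.2.2.1 (Sum.inr l)) (L'.2.2.1 (Sum.inl i)) +
          2 * L.2.1 * L'.2.2.2 i l) (fun _ => 0)) r')) r := by
  have key : ∀ (w : A.H1) (j' : Fin (2 * g)), ∑ x, w x * (op L (eb A x) j') = op L w j' := by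
    intro w j'
    have h1 := lin_sum (A := A) ((LinearMap.proj j' : A.H1 →ₗ[ℚ] ℚ).comp (op L)) w
    simp only [LinearMap.comp_apply, LinearMap.proj_apply, smul_eq_mul] at h1
    exact h1.symm
  have key2 : ∀ (w y : A.H1), ∑ x, w x * A.om y (eb A x) = A.om y w := by
    intro w y
    have h1 := lin_sum (A := A) (A.om y) w
    simp only [smul_eq_mul] at h1
    exact h1.symm
  ext r r'
  rw [Matrix.mul_apply, Fintype.sum_sum_type, Fintype.sum_sum_type]
  rcases r with j | l | i <;> rcases r' with j' | l' | i' <;>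
    simp only [mtQ, Matrix.of_apply, Sum.elim_inl, Sum.elim_inr, mul_zero, zero_mul,
      Finset.sum_const_zero, add_zero, zero_add, key, key2, mul_ite, ite_mul,
      Finset.sum_ite_eq, Finset.sum_ite_eq', Finset.mem_univ, if_true]
  · ring
  · split_ifs <;> ring
  · ring

theorem op_br (L L' : Tup A n s) (w : A.H1) :
    op (br L L') w = op L (op L' w) - op L' (op L w) := by
  simp only [op_apply, br, zero_smul, add_zero, LinearMap.sub_apply, Module.End.mul_apply,
    map_add, map_smul, smul_add]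
  rw [smul_comm L.2.1 L'.2.1]
  abel

theorem mtQ_br {L L' : Tup A n s} (h : ∀ u v, A.om (L.1 u) v + A.om u (L.1 v) = 0)
    (h' : ∀ u v, A.om (L'.1 u) v + A.om u (L'.1 v) = 0) :
    mtQ (br L L') = mtQ L' * mtQ L - mtQ L * mtQ L' := by
  rw [mtQ_mul, mtQ_mul]
  ext r r'
  rcases r with j | l | i <;> rcases r' with j' | l' | i' <;>
    simp only [mtQ, Matrix.of_apply, Matrix.sub_apply, Sum.elim_inl, Sum.elim_inr, sub_zero,
      op_br]
  · rfl
  · have e1 := h (L'.2.2.1 (Sum.inr l')) (eb A j)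
    have e2 := h' (L.2.2.1 (Sum.inr l')) (eb A j)
    simp only [br, op_apply, map_add, map_sub, map_smul, LinearMap.add_apply,
      LinearMap.sub_apply, LinearMap.smul_apply, smul_eq_mul]
    linear_combination e1 - e2
  · simp only [br]
    split_ifs <;> ring
  · rfl
  · simp only [br]
    ring

theorem mt_br {L L' : Tup A n s} (h : ∀ u v, A.om (L.1 u) v + A.om u (L.1 v) = 0)
    (h' : ∀ u v, A.om (L'.1 u) v + A.om u (L'.1 v) = 0) :
    mt (br L L') = mt L' * mt L - mt L * mt L' := by
  unfold mt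
  rw [mtQ_br h h', Matrix.map_sub _ (map_sub _), Matrix.map_mul, Matrix.map_mul]

end Pool.Agent.R917.OM
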